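import Pool.Agent.H867R3.Kn.Stubs

/-! Task A1: the components of a state of the knotoid diagram are the classes of the closed
diagram. -/

set_option autoImplicit false

namespace Pool.Agent.H867R3.Kn

open Finset LaurentPolynomial Pool.Agent.H832R2.JR

variable {N : ℕ}

/-- the two ends (tail and head) of the knotoid diagram -/
def A1_cut (G : GaussWord N) (x : Half N) : Prop :=
  (x.2 = true ∧ (G x.1 : ℕ) + 1 = 2 * N) ∨ (x.2 = false ∧ (G x.1 : ℕ) = 0)

theorem A1_cut_inj (G : GaussWord N) {x y : Half N} (hx : A1_cut G x) (hy : A1_cut G y)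
    (h : x.2 = y.2) : x = y := by
  rcases x with ⟨p, e⟩
  rcases y with ⟨q, e'⟩
  simp only at h
  subst h
  have : (G p : ℕ) = G q := by
    rcases hx with ⟨h1, h2⟩ | ⟨h1, h2⟩ <;> rcases hy with ⟨h3, h4⟩ | ⟨h3, h4⟩
    · simp only at h2 h4
      omega
    · rw [h1] at h3
      exact absurd h3 (by simp)
    · rw [h1] at h3
      exact absurd h3 (by simp)
    · simp only at h2 h4
      omega
  rw [G.injective (Fin.ext this)]

theorem A1_next_symm (G : GaussWord N) (p : Fin N × Bool) :
    (G p : ℕ) = if (G ((next G).symm p) : ℕ) + 1 = 2 * N then 0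
      else (G ((next G).symm p) : ℕ) + 1 := by
  have := next_val G ((next G).symm p)
  rwa [Equiv.apply_symm_apply] at this

theorem A1_cut_arc (G : GaussWord N) (x : Half N) : A1_cut G (arcFun G x) ↔ A1_cut G x := by
  rcases x with ⟨p, _ | _⟩
  · have h := A1_next_symm G p
    simp only [A1_cut, arcFun]
    split_ifs at h with h1
    · simp [h1, h]
    · simp [h1, h]
  · have h := next_val G p
    simp only [A1_cut, arcFun]
    split_ifs at h with h1
    · simp [h1, h]
    · simp [h1, h]

open Classical in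
/-- the arcs of the knotoid diagram -/
noncomputable def A1_arc (G : GaussWord N) (x : Half N) : Half N :=
  if A1_cut G x then x else arcFun G x

theorem A1_arc_inv (G : GaussWord N) (x : Half N) : A1_arc G (A1_arc G x) = x := by
  by_cases h : A1_cut G x
  · simp [A1_arc, h]
  · have h1 : A1_arc G x = arcFun G x := if_neg h
    rw [h1]
    have h2 : ¬ A1_cut G (arcFun G x) := fun h' => h ((A1_cut_arc G x).1 h')
    unfold A1_arc
    rw [if_neg h2, arcFun_inv]

theorem A1_arc_fixed (G : GaussWord N) (x : Half N) : A1_arc G x = x ↔ A1_cut G x := by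
  by_cases h : A1_cut G x
  · simp [A1_arc, h]
  · simp [A1_arc, h, arcFun_ne]

theorem A1_arc_joined (G : GaussWord N) (s : Fin N → Bool) (x : Half N) (h : ¬ A1_cut G x) :
    Quot.mk (KJoined G s) x = Quot.mk (KJoined G s) (arcFun G x) := by
  rcases x with ⟨p, _ | _⟩
  · have h1 := A1_next_symm G p
    refine Eq.symm (Quot.sound (Or.inl ⟨(next G).symm p, p, ?_, rfl, rfl⟩))
    split_ifs at h1 with h2
    · exact absurd (Or.inr ⟨rfl, h1⟩) h
    · exact h1
  · have h1 := next_val G p
    refine Quot.sound (Or.inl ⟨p, next G p, ?_, rfl, rfl⟩)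
    split_ifs at h1 with h2
    · exact absurd (Or.inl ⟨rfl, h2⟩) h
    · exact h1

theorem A1_smooth_joined (G : GaussWord N) (s : Fin N → Bool) (x : Half N) :
    Quot.mk (KJoined G s) x = Quot.mk (KJoined G s) (smooth (st s) x) := by
  rcases x with ⟨⟨c, b⟩, e⟩
  cases hs : s c
  · have e1 : smooth (st s) ((c, b), e) = ((c, !b), e) := by simp [smooth, st, hs]
    rw [e1]
    cases b
    · exact Quot.sound (Or.inr (Or.inr ⟨c, e, hs, rfl, rfl⟩))
    · exact Eq.symm (Quot.sound (Or.inr (Or.inr ⟨c, e, hs, rfl, rfl⟩)))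
  · have e1 : smooth (st s) ((c, b), e) = ((c, !b), !e) := by simp [smooth, st, hs]
    rw [e1]
    cases e
    · exact Quot.sound (Or.inr (Or.inl ⟨c, b, hs, rfl, rfl⟩))
    · exact Eq.symm (Quot.sound (Or.inr (Or.inl ⟨c, !b, hs, rfl, by simp⟩)))

/-- the two ends belong to the same component -/
theorem A1_ends (G : GaussWord N) (s : Fin N → Bool) (x : Half N) (h : A1_cut G x) :
    Quot.mk (KJoined G s) x = Quot.mk (KJoined G s) (arcFun G x) := by
  let α : Equiv.Perm (Half N) := ⟨smooth (st s), smooth (st s), smooth_inv _, smooth_inv _⟩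
  let β : Equiv.Perm (Half N) := ⟨A1_arc G, A1_arc G, A1_arc_inv G, A1_arc_inv G⟩
  obtain ⟨b, hb1, hb2, hb3, -⟩ := path_lemma α β (smooth_inv _) (A1_arc_inv G) (smooth_ne _) x
    ((A1_arc_fixed G x).2 h)
  have hbc : A1_cut G b := (A1_arc_fixed G b).1 hb2
  have hac : A1_cut G (arcFun G x) := (A1_cut_arc G x).2 h
  have hne : arcFun G x ≠ x := arcFun_ne G x
  have e1 : b.2 ≠ x.2 := fun he => hb1 (A1_cut_inj G hbc h he)
  have e2 : (arcFun G x).2 ≠ x.2 := fun he => hne (A1_cut_inj G hac h he)
  have e3 : b = arcFun G x := by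
    apply A1_cut_inj G hbc hac
    revert e1 e2
    cases b.2 <;> cases x.2 <;> cases (arcFun G x).2 <;> simp
  rw [← e3]
  have hgen : ∀ u v, gen α β u v → Quot.mk (KJoined G s) u = Quot.mk (KJoined G s) v := by
    rintro u v (rfl | rfl)
    · exact A1_smooth_joined G s u
    · show Quot.mk (KJoined G s) u = Quot.mk (KJoined G s) (A1_arc G u)
      by_cases hu : A1_cut G u
      · rw [(A1_arc_fixed G u).2 hu]
      · have : A1_arc G u = arcFun G u := if_neg hu
        rw [this]
        exact A1_arc_joined G s u hu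
  exact (congrArg (Quot.lift (Quot.mk (KJoined G s)) hgen) hb3).symm

theorem A1_gen_joined (G : GaussWord N) (s : Fin N → Bool) (x y : Half N)
    (h : gen (arcFun G) (smooth (st s)) x y) :
    Quot.mk (KJoined G s) x = Quot.mk (KJoined G s) y := by
  rcases h with rfl | rfl
  · by_cases hu : A1_cut G x
    · exact A1_ends G s x hu
    · exact A1_arc_joined G s x hu
  · exact A1_smooth_joined G s x

theorem A1_joined_gen (G : GaussWord N) (s : Fin N → Bool) (x y : Half N)
    (h : KJoined G s x y) :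
    Quot.mk (gen (arcFun G) (smooth (st s))) x = Quot.mk (gen (arcFun G) (smooth (st s))) y := by
  rcases h with ⟨p, q, hpq, rfl, rfl⟩ | ⟨c, b, hs, rfl, rfl⟩ | ⟨c, e, hs, rfl, rfl⟩
  · have h1 := next_val G p
    have h2 := (G q).2
    rw [if_neg (by omega), ← hpq] at h1
    have h3 : next G p = q := G.injective (Fin.ext h1)
    refine Quot.sound (Or.inl ?_)
    simp [arcFun, h3]
  · refine Quot.sound (Or.inr ?_)
    simp [smooth, st, hs]
  · refine Quot.sound (Or.inr ?_)
    simp [smooth, st, hs]

theorem t_A1 : S_A1 := by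
  intro N G s
  refine ⟨fun x y => ⟨fun h => ?_, fun h => ?_⟩, ?_⟩
  · exact congrArg (Quot.lift (Quot.mk (gen (arcFun G) (smooth (st s)))) (A1_joined_gen G s)) h
  · exact congrArg (Quot.lift (Quot.mk (KJoined G s)) (A1_gen_joined G s)) h
  · exact card_quot_congr _ _ (A1_joined_gen G s) (A1_gen_joined G s)

end Pool.Agent.H867R3.Kn
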