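import Pool.Agent.H867R3.Kn.Stubs

set_option autoImplicit false

namespace Pool.Agent.H867R3.Kn

open Finset LaurentPolynomial Pool.Agent.H832R2.JR Function

theorem A2_joined {N : ℕ} (G : GaussWord N) (s : Fin N → Bool) (φ : Half N → Bool)
    (h1 : ∀ p q, (G q : ℕ) = G p + 1 → φ (q, false) = φ (p, true))
    (h2 : ∀ x, φ (smooth (st s) x) = φ x) (x y : Half N) (h : KJoined G s x y) : φ x = φ y := by
  rcases h with ⟨p, q, hpq, rfl, rfl⟩ | ⟨c, b, hs, rfl, rfl⟩ | ⟨c, e, hs, rfl, rfl⟩
  · exact (h1 p q hpq).symm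
  · have := h2 ((c, b), false)
    have hst : st s c = 1 := by simp [st, hs]
    rw [← this]
    simp [smooth, hst]
  · have := h2 ((c, false), e)
    have hst : st s c = 2 := by simp [st, hs]
    rw [← this]
    simp [smooth, hst]

theorem t_A2 (hA1 : S_A1) : S_A2 := by
  intro N G s φ h1 h2 x y hxy
  have h := ((hA1 N G s).1 x y).2 hxy
  exact congrArg (Quot.lift φ (fun a b hab => A2_joined G s φ h1 h2 a b hab)) h

end Pool.Agent.H867R3.Kn
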