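import Pool.Agent.H867R3.Kn.Stubs

set_option autoImplicit false

namespace Pool.Agent.H867R3.Kn

open Finset LaurentPolynomial Pool.Agent.H832R2.JR Function

theorem t_A3 : S_A3 := by
  rintro N ε s ⟨⟨c, b⟩, e⟩
  refine ⟨?_, ?_, ?_⟩
  · have hst : st s c = if s c then 1 else 2 := rfl
    cases hs : s c <;> cases hε : ε c <;> cases b <;> cases e <;>
      simp [smooth, rot, st, hs, hε]
  · cases hε : ε c <;> cases b <;> cases e <;> simp [rot, hε]
  · cases b <;> simp [rot]

end Pool.Agent.H867R3.Kn
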