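import Pool.Agent.H867R3.Kn.Stubs

set_option autoImplicit false

namespace Pool.Agent.H867R3.Kn

open Finset LaurentPolynomial Pool.Agent.H832R2.JR Function

theorem A4_main {N : ℕ} (G : GaussWord N) (t : Fin N → Fin 3) (c : Fin N) :
    ∃ (n : ℕ) (k0 : Fin 3), (∀ k, L G (update t c k) = if k = k0 then n + 1 else n) ∧
      ∀ k, k ≠ 0 → (cls G (update t c k) ((c, false), false) =
        cls G (update t c k) ((c, false), true) ↔ k ≠ k0) := by
  classical
  set r := gen (arcFun G) (smoothOff t c) with hr
  have hc : ∀ x : Half N, x.1.1 = c ↔ x = ((c, false), false) ∨ x = ((c, false), true) ∨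
      x = ((c, true), false) ∨ x = ((c, true), true) := by
    rintro ⟨⟨d, b⟩, e⟩
    cases b <;> cases e <;> simp
  have L0 : L G (update t c 0) = Nat.card (Quot (addPair (addPair r ((c, false), false)
      ((c, false), true)) ((c, true), false) ((c, true), true))) := by
    rw [L_eq G (update t c 0) c ((c, false), false) ((c, false), true) ((c, true), false)
      ((c, true), true) (by simp [smooth]) (by simp [smooth]) (by intro x; rw [hc]),
      smoothOff_update]
  have L1 : L G (update t c 1) = Nat.card (Quot (addPair (addPair r ((c, false), false)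
      ((c, true), true)) ((c, true), false) ((c, false), true))) := by
    rw [L_eq G (update t c 1) c ((c, false), false) ((c, true), true) ((c, true), false)
      ((c, false), true) (by simp [smooth]) (by simp [smooth]) (by intro x; rw [hc]; tauto),
      smoothOff_update]
  have L2 : L G (update t c 2) = Nat.card (Quot (addPair (addPair r ((c, false), false)
      ((c, true), false)) ((c, false), true) ((c, true), true))) := by
    rw [L_eq G (update t c 2) c ((c, false), false) ((c, true), false) ((c, false), true)
      ((c, true), true) (by simp [smooth]) (by simp [smooth]) (by intro x; rw [hc]; tauto),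
      smoothOff_update]
  -- from `r` to the classes of `update t c k`
  have up : ∀ (k : Fin 3) (x y : Half N), Quot.mk r x = Quot.mk r y →
      cls G (update t c k) x = cls G (update t c k) y := by
    intro k x y hxy
    have h0 : ∀ a b, r a b → cls G (update t c k) a = cls G (update t c k) b := by
      rintro a b (rfl | rfl)
      · exact Quot.sound (Or.inl rfl)
      · unfold smoothOff
        split_ifs with h
        · rfl
        · refine Quot.sound (Or.inr ?_)
          unfold smooth
          rw [update_of_ne h]
    exact congrArg (Quot.lift (cls G (update t c k)) h0) hxy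
  have one : ∀ (k : Fin 3) (x : Half N),
      cls G (update t c k) x = cls G (update t c k) (smooth (update t c k) x) :=
    fun k x => Quot.sound (Or.inr rfl)
  -- from the classes of `update t c k` to `r`
  have down : ∀ (k : Fin 3) (x y : Half N),
      (∀ z : Half N, z.1.1 = c → Quot.mk r z = Quot.mk r (smooth (update t c k) z)) →
      cls G (update t c k) x = cls G (update t c k) y → Quot.mk r x = Quot.mk r y := by
    intro k x y hz hxy
    have h0 : ∀ a b, gen (arcFun G) (smooth (update t c k)) a b → Quot.mk r a = Quot.mk r b := by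
      rintro a b (rfl | rfl)
      · exact Quot.sound (Or.inl rfl)
      · by_cases ha : a.1.1 = c
        · exact hz a ha
        · refine Quot.sound (Or.inr ?_)
          unfold smoothOff
          rw [if_neg ha]
          unfold smooth
          rw [update_of_ne ha]
    exact congrArg (Quot.lift (Quot.mk r) h0) hxy
  let α : Equiv.Perm (Half N) := (Function.Involutive.toPerm (arcFun G) (arcFun_inv G))
  let β : Equiv.Perm (Half N) := (Function.Involutive.toPerm (smoothOff t c) (smoothOff_inv t c))
  have path : ∀ a : Half N, a.1.1 = c → ∃ b, b ≠ a ∧ b.1.1 = c ∧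
      Quot.mk r b = Quot.mk r a ∧ ∀ d : Half N, d.1.1 = c → Quot.mk r a = Quot.mk r d →
        d = a ∨ d = b := by
    intro a ha
    obtain ⟨b, hb1, hb2, hb3, hb4⟩ := path_lemma α β (arcFun_inv G) (smoothOff_inv t c)
      (arcFun_ne G) a ((smoothOff_fixed t c a).2 ha)
    exact ⟨b, hb1, (smoothOff_fixed t c b).1 hb2, hb3,
      fun d hd => hb4 d ((smoothOff_fixed t c d).2 hd)⟩
  have path' : ∀ a b d e : Half N, (∀ x : Half N, x.1.1 = c ↔ x = a ∨ x = b ∨ x = d ∨ x = e) →
      d ≠ a → d ≠ b → e ≠ a → e ≠ b →
      Quot.mk r a = Quot.mk r b → (∀ z : Half N, z.1.1 = c → Quot.mk r a = Quot.mk r z →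
        z = a ∨ z = b) →
      Quot.mk r d = Quot.mk r e ∧ Quot.mk r a ≠ Quot.mk r d ∧ Quot.mk r a ≠ Quot.mk r e := by
    intro a b d e hx hda hdb hea heb hab hu
    have hd : d.1.1 = c := (hx d).2 (by tauto)
    have he : e.1.1 = c := (hx e).2 (by tauto)
    have h1 : Quot.mk r a ≠ Quot.mk r d := by
      intro h
      rcases hu d hd h with h | h
      · exact hda h
      · exact hdb h
    have h2 : Quot.mk r a ≠ Quot.mk r e := by
      intro h
      rcases hu e he h with h | h
      · exact hea h
      · exact heb h
    refine ⟨?_, h1, h2⟩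
    obtain ⟨b', hb1, hb2, hb3, hb4⟩ := path d hd
    rcases (hx b').1 hb2 with rfl | rfl | rfl | rfl
    · exact absurd hb3 h1
    · exact absurd (hab.trans hb3) h1
    · exact absurd rfl hb1
    · exact hb3.symm
  have sm1 : ∀ b e, smooth (update t c 1) ((c, b), e) = ((c, !b), !e) := by
    intro b e; simp [smooth]
  have sm2 : ∀ b e, smooth (update t c 2) ((c, b), e) = ((c, !b), e) := by
    intro b e; simp [smooth]
  obtain ⟨b, hb1, hb2, hb3, hb4⟩ := path ((c, false), false) rfl
  rcases (hc b).1 hb2 with rfl | rfl | rfl | rfl
  · exact absurd rfl hb1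
  · obtain ⟨h1, h2, h3⟩ := path' ((c, false), false) ((c, false), true) ((c, true), false)
      ((c, true), true) hc (by simp) (by simp) (by simp) (by simp) hb3.symm hb4
    have e0 := pair_same r _ _ _ _ hb3.symm h1
    have e1 := pair_diff r _ _ _ _ h3 (Or.inr ⟨h1, hb3⟩)
    have e2 := pair_diff r _ _ _ _ h2 (Or.inl ⟨hb3, h1.symm⟩)
    rw [← L0] at e0
    rw [← L1] at e1
    rw [← L2] at e2
    refine ⟨L G (update t c 1), 0, ?_, ?_⟩
    · intro k
      fin_cases k <;> simp <;> omega
    · intro k hk
      refine ⟨fun _ => hk, fun _ => up k _ _ hb3.symm⟩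
  · obtain ⟨h1, h2, h3⟩ := path' ((c, false), false) ((c, true), false) ((c, false), true)
      ((c, true), true) (by intro x; rw [hc]; tauto) (by simp) (by simp) (by simp) (by simp)
      hb3.symm hb4
    have e2 := pair_same r _ _ _ _ hb3.symm h1
    have e0 := pair_diff r _ _ _ _ h2 (Or.inl ⟨hb3, h1.symm⟩)
    have e1 := pair_diff r _ _ _ _ h3 (Or.inl ⟨hb3, h1⟩)
    rw [← L0] at e0
    rw [← L1] at e1
    rw [← L2] at e2
    refine ⟨L G (update t c 1), 2, ?_, ?_⟩
    · intro k
      fin_cases k <;> simp <;> omega
    · intro k hk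
      have hk' : k = 1 ∨ k = 2 := by
        fin_cases k <;> simp at hk ⊢
      rcases hk' with rfl | rfl
      · refine ⟨fun _ => by decide, fun _ => ?_⟩
        have e := one 1 ((c, true), false)
        rw [sm1] at e
        exact (up 1 _ _ hb3.symm).trans e
      · refine ⟨fun h => ?_, fun h => absurd rfl h⟩
        exfalso
        refine h2 (down 2 _ _ ?_ h)
        intro z hz
        rcases (hc z).1 hz with rfl | rfl | rfl | rfl <;> rw [sm2]
        · exact hb3.symm
        · exact h1
        · exact hb3
        · exact h1.symm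
  · obtain ⟨h1, h2, h3⟩ := path' ((c, false), false) ((c, true), true) ((c, true), false)
      ((c, false), true) (by intro x; rw [hc]; tauto) (by simp) (by simp) (by simp) (by simp)
      hb3.symm hb4
    have e1 := pair_same r _ _ _ _ hb3.symm h1
    have e0 := pair_diff r _ _ _ _ h3 (Or.inr ⟨h1, hb3⟩)
    have e2 := pair_diff r _ _ _ _ h2 (Or.inr ⟨h1.symm, hb3⟩)
    rw [← L0] at e0
    rw [← L1] at e1
    rw [← L2] at e2
    refine ⟨L G (update t c 0), 1, ?_, ?_⟩
    · intro k
      fin_cases k <;> simp <;> omega
    · intro k hk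
      have hk' : k = 1 ∨ k = 2 := by
        fin_cases k <;> simp at hk ⊢
      rcases hk' with rfl | rfl
      · refine ⟨fun h => ?_, fun h => absurd rfl h⟩
        exfalso
        refine h3 (down 1 _ _ ?_ h)
        intro z hz
        rcases (hc z).1 hz with rfl | rfl | rfl | rfl <;> rw [sm1]
        · exact hb3.symm
        · exact h1.symm
        · exact h1
        · exact hb3
      · refine ⟨fun _ => by decide, fun _ => ?_⟩
        have e := one 2 ((c, true), true)
        rw [sm2] at e
        exact (up 2 _ _ hb3.symm).trans e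

theorem t_A4 : S_A4 := by
  intro N G t c htc
  obtain ⟨n, k0, h1, h2⟩ := A4_main G t c
  have ht : update t c (t c) = t := update_eq_self c t
  have h3 := h1 (t c)
  have h4 := h2 (t c) htc
  rw [ht] at h3 h4
  constructor
  · intro hne k hk
    have hk0 : t c = k0 := by
      by_contra h
      exact hne (h4.2 h)
    rw [h3, if_pos hk0, h1 k, if_neg (by rw [← hk0]; exact hk)]
  · intro heq k
    have hk0 : t c ≠ k0 := h4.1 heq
    rw [h3, if_neg hk0, h1 k]
    split_ifs <;> omega

end Pool.Agent.H867R3.Kn
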