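import Pool.Agent.H867R3.Kn.Stubs

set_option autoImplicit false

namespace Pool.Agent.H867R3.Kn

open Finset LaurentPolynomial Pool.Agent.H832R2.JR Function

/-- an orientation which is reversed by `α` and by `β` (where `β` moves the point) takes different
values at the two fixed points of `β` in one class -/
theorem A5_path {H : Type} [Finite H] (α β : Equiv.Perm H) (hα : ∀ x, α (α x) = x)
    (hβ : ∀ x, β (β x) = x) (hαf : ∀ x, α x ≠ x) (o : H → Bool) (hoα : ∀ x, o (α x) = !o x)
    (hoβ : ∀ x, β x ≠ x → o (β x) = !o x) (a : H) (ha : β a = a) :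
    ∃ b, b ≠ a ∧ β b = b ∧ Quot.mk (gen α β) b = Quot.mk (gen α β) a ∧
      (∀ c, β c = c → Quot.mk (gen α β) a = Quot.mk (gen α β) c → c = a ∨ c = b) ∧
      o b = !o a := by
  classical
  obtain ⟨b, hb1, hb2, hb3, hb4⟩ := path_lemma α β hα hβ hαf a ha
  refine ⟨b, hb1, hb2, hb3, hb4, ?_⟩
  set g : Equiv.Perm H := α * β with hg
  have hex : ∃ l : ℕ, 1 ≤ l ∧ β ((g ^ l) a) = (g ^ l) a := by
    refine ⟨orderOf g, orderOf_pos g, ?_⟩
    rw [pow_orderOf_eq_one, Equiv.Perm.one_apply, ha]
  set l := Nat.find hex with hl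
  obtain ⟨hl1, hl2⟩ := Nat.find_spec hex
  have hmin : ∀ j : ℕ, 1 ≤ j → j < l → β ((g ^ j) a) ≠ (g ^ j) a := by
    intro j hj1 hj2 h
    exact Nat.find_min hex hj2 ⟨hj1, h⟩
  -- values of `o`
  have hval : ∀ j : ℕ, 1 ≤ j → j ≤ l → o ((g ^ j) a) = !o a := by
    intro j hj
    induction j with
    | zero => omega
    | succ j ih =>
      intro hjl
      have hstep : (g ^ (j + 1)) a = α (β ((g ^ j) a)) := by
        rw [pow_succ', Equiv.Perm.mul_apply, hg, Equiv.Perm.mul_apply]
      rw [hstep, hoα]
      rcases Nat.eq_zero_or_pos j with h0 | h0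
      · rw [h0, pow_zero, Equiv.Perm.one_apply, ha]
      · rw [hoβ _ (hmin j h0 (by omega)), ih h0 (by omega)]
        simp
  -- `g ^ l a = b`
  have hcl : Quot.mk (gen α β) a = Quot.mk (gen α β) ((g ^ l) a) := by
    have := mk_zpow α β a (l : ℤ)
    rw [zpow_natCast] at this
    exact this.symm
  rcases hb4 _ hl2 hcl with h | h
  · exfalso
    obtain ⟨k, hk⟩ := eq_zpow_of_mk α β hα hβ a ha b hb3.symm
    rw [← hg] at hk
    have hlpos : (0 : ℤ) < l := by
      have : 0 < l := hl1
      exact_mod_cast this
    have hper : ∀ q : ℤ, ((g ^ (l : ℤ)) ^ q) a = a := by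
      intro q
      have h1 : (g ^ (l : ℤ)) a = a := by
        rw [zpow_natCast]
        exact h
      exact Equiv.Perm.zpow_apply_eq_self_of_apply_eq_self h1 q
    have hk2 : b = (g ^ (k % (l : ℤ))) a := by
      rw [hk]
      conv_lhs => rw [← Int.emod_add_mul_ediv k (l : ℤ)]
      rw [zpow_add, Equiv.Perm.mul_apply, zpow_mul, hper]
    obtain ⟨j, hj⟩ : ∃ j : ℕ, k % (l : ℤ) = j := ⟨(k % (l : ℤ)).toNat,
      (Int.toNat_of_nonneg (Int.emod_nonneg _ hlpos.ne')).symm⟩
    have hjl : j < l := by
      have := Int.emod_lt_of_pos k hlpos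
      rw [hj] at this
      exact_mod_cast this
    rw [hj, zpow_natCast] at hk2
    rcases Nat.eq_zero_or_pos j with h0 | h0
    · rw [h0, pow_zero, Equiv.Perm.one_apply] at hk2
      exact hb1 hk2
    · apply hmin j h0 hjl
      rw [← hk2]
      exact hb2
  · rw [← h]
    exact hval l hl1 le_rfl

theorem t_A5 : S_A5 := by
  classical
  intro N G t c k k' o hkk hk hk'
  set r := gen (arcFun G) (smoothOff t c) with hr
  have hc : ∀ x : Half N, x.1.1 = c ↔ x = ((c, false), false) ∨ x = ((c, false), true) ∨
      x = ((c, true), false) ∨ x = ((c, true), true) := by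
    rintro ⟨⟨d, b⟩, e⟩
    cases b <;> cases e <;> simp
  have L0 : L G (update t c 0) = Nat.card (Quot (addPair (addPair r ((c, false), false)
      ((c, false), true)) ((c, true), false) ((c, true), true))) := by
    rw [L_eq G (update t c 0) c ((c, false), false) ((c, false), true) ((c, true), false)
      ((c, true), true) (by simp [smooth]) (by simp [smooth]) (by intro x; rw [hc]),
      smoothOff_update]
  have L1 : L G (update t c 1) = Nat.card (Quot (addPair (addPair r ((c, false), false)
      ((c, true), true)) ((c, true), false) ((c, false), true))) := by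
    rw [L_eq G (update t c 1) c ((c, false), false) ((c, true), true) ((c, true), false)
      ((c, false), true) (by simp [smooth]) (by simp [smooth]) (by intro x; rw [hc]; tauto),
      smoothOff_update]
  have L2 : L G (update t c 2) = Nat.card (Quot (addPair (addPair r ((c, false), false)
      ((c, true), false)) ((c, false), true) ((c, true), true))) := by
    rw [L_eq G (update t c 2) c ((c, false), false) ((c, true), false) ((c, false), true)
      ((c, true), true) (by simp [smooth]) (by simp [smooth]) (by intro x; rw [hc]; tauto),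
      smoothOff_update]
  let α : Equiv.Perm (Half N) := (Function.Involutive.toPerm (arcFun G) (arcFun_inv G))
  let β : Equiv.Perm (Half N) := (Function.Involutive.toPerm (smoothOff t c) (smoothOff_inv t c))
  have hoβ : ∀ x, β x ≠ x → o (β x) = !o x := by
    intro x hx
    have hx1 : x.1.1 ≠ c := fun h => hx ((smoothOff_fixed t c x).2 h)
    have h1 : β x = smooth (update t c k) x := by
      show smoothOff t c x = _
      unfold smoothOff
      rw [if_neg hx1]
      unfold smooth
      rw [update_of_ne hx1]
    rw [h1]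
    exact hk.2 x
  have path : ∀ a : Half N, a.1.1 = c → ∃ b, b ≠ a ∧ b.1.1 = c ∧
      Quot.mk r b = Quot.mk r a ∧ (∀ d : Half N, d.1.1 = c → Quot.mk r a = Quot.mk r d →
        d = a ∨ d = b) ∧ o b = !o a := by
    intro a ha
    obtain ⟨b, hb1, hb2, hb3, hb4, hb5⟩ := A5_path α β (arcFun_inv G) (smoothOff_inv t c)
      (arcFun_ne G) o hk.1 hoβ a ((smoothOff_fixed t c a).2 ha)
    exact ⟨b, hb1, (smoothOff_fixed t c b).1 hb2, hb3,
      fun d hd => hb4 d ((smoothOff_fixed t c d).2 hd), hb5⟩
  have path' : ∀ a b d e : Half N, (∀ x : Half N, x.1.1 = c ↔ x = a ∨ x = b ∨ x = d ∨ x = e) →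
      d ≠ a → d ≠ b → e ≠ a → e ≠ b →
      Quot.mk r a = Quot.mk r b → (∀ z : Half N, z.1.1 = c → Quot.mk r a = Quot.mk r z →
        z = a ∨ z = b) →
      Quot.mk r d = Quot.mk r e ∧ Quot.mk r a ≠ Quot.mk r d ∧ Quot.mk r a ≠ Quot.mk r e := by
    intro a b d e hx hda hdb hea heb hab hu
    have hd : d.1.1 = c := (hx d).2 (by tauto)
    have he : e.1.1 = c := (hx e).2 (by tauto)
    have h1 : Quot.mk r a ≠ Quot.mk r d := by
      intro h
      rcases hu d hd h with h | h
      · exact hda h
      · exact hdb h
    have h2 : Quot.mk r a ≠ Quot.mk r e := by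
      intro h
      rcases hu e he h with h | h
      · exact hea h
      · exact heb h
    refine ⟨?_, h1, h2⟩
    obtain ⟨b', hb1, hb2, hb3, hb4, _⟩ := path d hd
    rcases (hx b').1 hb2 with rfl | rfl | rfl | rfl
    · exact absurd hb3 h1
    · exact absurd (hab.trans hb3) h1
    · exact absurd rfl hb1
    · exact hb3.symm
  -- the values of `o` at `c`
  have m0 : ∀ j : Fin 3, Ori G (update t c j) o → j = 0 →
      o ((c, false), true) = (!o ((c, false), false)) ∧
      o ((c, true), true) = (!o ((c, true), false)) := by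
    rintro j hj rfl
    have a1 := hj.2 ((c, false), false)
    have a2 := hj.2 ((c, true), false)
    simp [smooth] at a1 a2
    exact ⟨a1, a2⟩
  have m1 : ∀ j : Fin 3, Ori G (update t c j) o → j = 1 →
      o ((c, true), true) = (!o ((c, false), false)) ∧
      o ((c, false), true) = (!o ((c, true), false)) := by
    rintro j hj rfl
    have a1 := hj.2 ((c, false), false)
    have a2 := hj.2 ((c, true), false)
    simp [smooth] at a1 a2
    exact ⟨a1, a2⟩
  have m2 : ∀ j : Fin 3, Ori G (update t c j) o → j = 2 →
      o ((c, true), false) = (!o ((c, false), false)) ∧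
      o ((c, true), true) = (!o ((c, false), true)) := by
    rintro j hj rfl
    have a1 := hj.2 ((c, false), false)
    have a2 := hj.2 ((c, false), true)
    simp [smooth] at a1 a2
    exact ⟨a1, a2⟩
  obtain ⟨b, hb1, hb2, hb3, hb4, hb5⟩ := path ((c, false), false) rfl
  rcases (hc b).1 hb2 with rfl | rfl | rfl | rfl
  · exact absurd rfl hb1
  · obtain ⟨h1, h2, h3⟩ := path' ((c, false), false) ((c, false), true) ((c, true), false)
      ((c, true), true) hc (by simp) (by simp) (by simp) (by simp) hb3.symm hb4
    have e0 := pair_same r _ _ _ _ hb3.symm h1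
    have e1 := pair_diff r _ _ _ _ h3 (Or.inr ⟨h1, hb3⟩)
    have e2 := pair_diff r _ _ _ _ h2 (Or.inl ⟨hb3, h1.symm⟩)
    rw [← L0] at e0
    rw [← L1] at e1
    rw [← L2] at e2
    fin_cases k <;> fin_cases k'
    · exact absurd rfl hkk
    · show L G (update t c 0) ≠ L G (update t c 1); omega
    · show L G (update t c 0) ≠ L G (update t c 2); omega
    · show L G (update t c 1) ≠ L G (update t c 0); omega
    · exact absurd rfl hkk
    · exfalso
      have q1 := m1 _ hk rfl
      have q2 := m2 _ hk' rfl
      rw [q1.2, q2.1] at hb5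
      simp at hb5
    · show L G (update t c 2) ≠ L G (update t c 0); omega
    · exfalso
      have q1 := m1 _ hk' rfl
      have q2 := m2 _ hk rfl
      rw [q1.2, q2.1] at hb5
      simp at hb5
    · exact absurd rfl hkk
  · obtain ⟨h1, h2, h3⟩ := path' ((c, false), false) ((c, true), false) ((c, false), true)
      ((c, true), true) (by intro x; rw [hc]; tauto) (by simp) (by simp) (by simp) (by simp)
      hb3.symm hb4
    have e2 := pair_same r _ _ _ _ hb3.symm h1
    have e0 := pair_diff r _ _ _ _ h2 (Or.inl ⟨hb3, h1.symm⟩)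
    have e1 := pair_diff r _ _ _ _ h3 (Or.inl ⟨hb3, h1⟩)
    rw [← L0] at e0
    rw [← L1] at e1
    rw [← L2] at e2
    fin_cases k <;> fin_cases k'
    · exact absurd rfl hkk
    · exfalso
      have q1 := m0 _ hk rfl
      have q2 := m1 _ hk' rfl
      have q3 := q2.2
      rw [hb5, q1.1] at q3
      simp at q3
    · show L G (update t c 0) ≠ L G (update t c 2); omega
    · exfalso
      have q1 := m0 _ hk' rfl
      have q2 := m1 _ hk rfl
      have q3 := q2.2
      rw [hb5, q1.1] at q3
      simp at q3
    · exact absurd rfl hkk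
    · show L G (update t c 1) ≠ L G (update t c 2); omega
    · show L G (update t c 2) ≠ L G (update t c 0); omega
    · show L G (update t c 2) ≠ L G (update t c 1); omega
    · exact absurd rfl hkk
  · obtain ⟨h1, h2, h3⟩ := path' ((c, false), false) ((c, true), true) ((c, true), false)
      ((c, false), true) (by intro x; rw [hc]; tauto) (by simp) (by simp) (by simp) (by simp)
      hb3.symm hb4
    have e1 := pair_same r _ _ _ _ hb3.symm h1
    have e0 := pair_diff r _ _ _ _ h3 (Or.inr ⟨h1, hb3⟩)
    have e2 := pair_diff r _ _ _ _ h2 (Or.inr ⟨h1.symm, hb3⟩)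
    rw [← L0] at e0
    rw [← L1] at e1
    rw [← L2] at e2
    fin_cases k <;> fin_cases k'
    · exact absurd rfl hkk
    · show L G (update t c 0) ≠ L G (update t c 1); omega
    · exfalso
      have q1 := m0 _ hk rfl
      have q2 := m2 _ hk' rfl
      rw [q1.2, q2.1] at hb5
      simp at hb5
    · show L G (update t c 1) ≠ L G (update t c 0); omega
    · exact absurd rfl hkk
    · show L G (update t c 1) ≠ L G (update t c 2); omega
    · exfalso
      have q1 := m0 _ hk' rfl
      have q2 := m2 _ hk rfl
      rw [q1.2, q2.1] at hb5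
      simp at hb5
    · show L G (update t c 2) ≠ L G (update t c 1); omega
    · exact absurd rfl hkk

end Pool.Agent.H867R3.Kn
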