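import Pool.Agent.H867R3.Kn.Stubs

set_option autoImplicit false

namespace Pool.Agent.H867R3.Kn

open Finset LaurentPolynomial Pool.Agent.H832R2.JR Function

theorem A6_not_both {H : Type} (α β : Equiv.Perm H) (hα : ∀ x, α (α x) = x)
    (hβ : ∀ x, β (β x) = x) (hαf : ∀ x, α x ≠ x) (hβf : ∀ x, β x ≠ x) (a : H) (k l : ℤ) :
    α (((α * β) ^ k) a) ≠ ((α * β) ^ l) a := by
  intro h
  have dA : ∀ (k : ℤ) (x : H), α (((α * β) ^ k) x) = ((α * β) ^ (-k)) (α x) := by
    intro k x
    have := congrArg (fun f : Equiv.Perm H => f x) (dihedral α β hα hβ k).1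
    simpa only [Equiv.Perm.mul_apply] using this
  have dB : ∀ (k : ℤ) (x : H), β (((α * β) ^ k) x) = ((α * β) ^ (-k)) (β x) := by
    intro k x
    have := congrArg (fun f : Equiv.Perm H => f x) (dihedral α β hα hβ k).2
    simpa only [Equiv.Perm.mul_apply] using this
  have hadd : ∀ (i j : ℤ) (x : H), ((α * β) ^ i) (((α * β) ^ j) x) = ((α * β) ^ (i + j)) x := by
    intro i j x
    rw [zpow_add, Equiv.Perm.mul_apply]
  have h1 : α a = ((α * β) ^ (k + l)) a := by
    rw [dA] at h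
    have h2 := congrArg ((α * β) ^ k) h
    rw [hadd, hadd, add_neg_cancel, zpow_zero, Equiv.Perm.one_apply] at h2
    exact h2
  rcases Int.even_or_odd' (k + l) with ⟨j, hj | hj⟩
  · apply hαf (((α * β) ^ j) a)
    rw [dA, h1, hadd, hj]
    congr 2
    ring
  · apply hβf (((α * β) ^ j) a)
    have h3 : β a = ((α * β) ^ (2 * j)) a := by
      have h4 : β a = α (((α * β) ^ (1 : ℤ)) a) := by
        rw [zpow_one, Equiv.Perm.mul_apply, hα]
      rw [h4, dA, h1, hadd, hj]
      congr 2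
      ring
    rw [dB, h3, hadd]
    congr 2
    ring

theorem A6_gen {H : Type} (α β : Equiv.Perm H) (hα : ∀ x, α (α x) = x)
    (hβ : ∀ x, β (β x) = x) (hαf : ∀ x, α x ≠ x) (hβf : ∀ x, β x ≠ x) :
    ∃ o : H → Bool, (∀ x, o (α x) = !o x) ∧ ∀ x, o (β x) = !o x := by
  classical
  let r : H → H := fun x => (Quot.mk (gen α β) x).out
  have hr : ∀ x, Quot.mk (gen α β) (r x) = Quot.mk (gen α β) x := fun x => Quot.out_eq _
  have hrα : ∀ x, r (α x) = r x := fun x =>
    congrArg Quot.out (Quot.sound (r := gen α β) (Or.inl rfl)).symm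
  have hrβ : ∀ x, r (β x) = r x := fun x =>
    congrArg Quot.out (Quot.sound (r := gen α β) (Or.inr rfl)).symm
  let S : H → Prop := fun x => ∃ k : ℤ, x = ((α * β) ^ k) (r x)
  have hadd : ∀ (i j : ℤ) (x : H), ((α * β) ^ i) (((α * β) ^ j) x) = ((α * β) ^ (i + j)) x := by
    intro i j x
    rw [zpow_add, Equiv.Perm.mul_apply]
  -- `x` or `α x` is in `S`
  have hor : ∀ x, (∃ k : ℤ, x = ((α * β) ^ k) (r x)) ∨ ∃ k : ℤ, α x = ((α * β) ^ k) (r x) := by
    intro x
    set a := r x with ha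
    let P : H → Prop := fun z => (∃ k : ℤ, z = ((α * β) ^ k) a) ∨ ∃ k : ℤ, α z = ((α * β) ^ k) a
    have hPα : ∀ z, P z → P (α z) := by
      rintro z (⟨k, hk⟩ | ⟨k, hk⟩)
      · exact Or.inr ⟨k, by rw [hα]; exact hk⟩
      · exact Or.inl ⟨k, hk⟩
    have hPβ : ∀ z, P z → P (β z) := by
      rintro z (⟨k, hk⟩ | ⟨k, hk⟩)
      · refine Or.inr ⟨1 + k, ?_⟩
        rw [← hadd, ← hk, zpow_one, Equiv.Perm.mul_apply]
      · refine Or.inl ⟨-1 + k, ?_⟩
        rw [← hadd, ← hk, zpow_neg_one, Equiv.Perm.eq_inv_iff_eq, Equiv.Perm.mul_apply, hβ]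
    have hP : ∀ x y, gen α β x y → P x = P y := by
      rintro x y (rfl | rfl)
      · refine propext ⟨hPα x, fun h => ?_⟩
        have := hPα _ h
        rwa [hα] at this
      · refine propext ⟨hPβ x, fun h => ?_⟩
        have := hPβ _ h
        rwa [hβ] at this
    have h1 : P a = P x := congrArg (Quot.lift P hP) (hr x)
    have h2 : P a := Or.inl ⟨0, by simp⟩
    rw [h1] at h2
    exact h2
  have hSα : ∀ x, S (α x) ↔ ¬ S x := by
    intro x
    constructor
    · rintro ⟨k, hk⟩ ⟨l, hl⟩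
      rw [hrα] at hk
      exact A6_not_both α β hα hβ hαf hβf (r x) l k ((congrArg α hl).symm.trans hk)
    · intro h
      rcases hor x with h1 | h1
      · exact absurd h1 h
      · show ∃ k : ℤ, α x = ((α * β) ^ k) (r (α x))
        rw [hrα]
        exact h1
  have hSg : ∀ x, S (α (β x)) ↔ S x := by
    intro x
    have e : r (α (β x)) = r x := by rw [hrα, hrβ]
    constructor
    · rintro ⟨k, hk⟩
      refine ⟨-1 + k, ?_⟩
      rw [e] at hk
      rw [← hadd, ← hk, zpow_neg_one, Equiv.Perm.eq_inv_iff_eq, Equiv.Perm.mul_apply]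
    · rintro ⟨k, hk⟩
      refine ⟨1 + k, ?_⟩
      rw [e, ← hadd, ← hk, zpow_one, Equiv.Perm.mul_apply]
  have hSβ : ∀ x, S (β x) ↔ ¬ S x := by
    intro x
    have h1 := hSα (β x)
    rw [hSg] at h1
    tauto
  refine ⟨fun x => decide (S x), fun x => ?_, fun x => ?_⟩
  · show decide (S (α x)) = !decide (S x)
    rw [← decide_not]
    exact decide_eq_decide.2 (hSα x)
  · show decide (S (β x)) = !decide (S x)
    rw [← decide_not]
    exact decide_eq_decide.2 (hSβ x)

theorem t_A6 : S_A6 := by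
  intro N G t
  obtain ⟨o, h1, h2⟩ := A6_gen (Function.Involutive.toPerm (arcFun G) (arcFun_inv G))
    (Function.Involutive.toPerm (smooth t) (smooth_inv t)) (arcFun_inv G) (smooth_inv t)
    (arcFun_ne G) (smooth_ne t)
  exact ⟨o, h1, h2⟩

end Pool.Agent.H867R3.Kn
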