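import Pool.Agent.H867R3.Kn.Stubs

/-! B1: the two sides of a circle `Z`. -/

set_option autoImplicit false

namespace Pool.Agent.H867R3.Kn

open Finset LaurentPolynomial Pool.Agent.H832R2.JR Function

theorem B1_next {N : ℕ} (G : GaussWord N) (p q : Fin N × Bool) (h : (G q : ℕ) = G p + 1) :
    next G p = q := by
  apply G.injective
  apply Fin.ext
  rw [next_val]
  have := (G q).2
  split_ifs with h1
  · omega
  · exact h.symm

theorem B1_edge {N : ℕ} (G : GaussWord N) (t : Fin N → Fin 3) (p q : Fin N × Bool)
    (h : (G q : ℕ) = G p + 1) : cls G t (q, false) = cls G t (p, true) := by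
  rw [← B1_next G p q h]
  exact (Quot.sound (r := gen (arcFun G) (smooth t)) (a := (p, true))
    (b := (next G p, false)) (Or.inl rfl)).symm

theorem B1_smooth {N : ℕ} (G : GaussWord N) (t : Fin N → Fin 3) (x : Half N) :
    cls G t (smooth t x) = cls G t x :=
  (Quot.sound (r := gen (arcFun G) (smooth t)) (a := x) (b := smooth t x) (Or.inr rfl)).symm

theorem t_B1 (hA2 : S_A2) (hA3 : S_A3) : S_B1 := by
  classical
  intro N G ε s o Z hS hO hT
  obtain ⟨κ, h1, h2⟩ := hS (fun h => decide (cls G (st s) h = Z))
    (by
      intro p q h
      simp only [B1_edge G (st s) p q h])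
    (by
      intro p hp
      simp [hT p hp])
    (by
      intro p hp
      have e1 : cls G (st s) (p, true) = cls G (st s) (next G p, false) :=
        Quot.sound (Or.inl rfl)
      have e2 : (G (next G p) : ℕ) = 0 := by rw [next_val, if_pos hp]
      simp only [e1, hT _ e2, decide_false])
    (by
      intro c
      cases hs : s c
      · have e1 : cls G (st s) ((c, true), false) = cls G (st s) ((c, false), false) := by
          have := B1_smooth G (st s) ((c, false), false)
          simpa [smooth, st, hs] using this
        have e2 : cls G (st s) ((c, true), true) = cls G (st s) ((c, false), true) := by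
          have := B1_smooth G (st s) ((c, false), true)
          simpa [smooth, st, hs] using this
        simp only [e1, e2]
        cases decide (cls G (st s) ((c, false), false) = Z) <;>
          cases decide (cls G (st s) ((c, false), true) = Z) <;> rfl
      · have e1 : cls G (st s) ((c, true), true) = cls G (st s) ((c, false), false) := by
          have := B1_smooth G (st s) ((c, false), false)
          simpa [smooth, st, hs] using this
        have e2 : cls G (st s) ((c, true), false) = cls G (st s) ((c, false), true) := by
          have := B1_smooth G (st s) ((c, false), true)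
          simpa [smooth, st, hs] using this
        simp only [e1, e2]
        cases decide (cls G (st s) ((c, false), false) = Z) <;>
          cases decide (cls G (st s) ((c, false), true) = Z) <;> rfl)
  have g1 : ∀ h, cls G (st s) (rot ε h) = Z → κ (rot ε h) = !κ h := by
    intro h hz
    rw [h1 h]
    simp [hz]
  have g2 : ∀ h, cls G (st s) (rot ε h) ≠ Z → κ (rot ε h) = κ h := by
    intro h hz
    rw [h1 h]
    simp [hz]
  have g3 : ∀ p q, (G q : ℕ) = G p + 1 → cls G (st s) (p, true) ≠ Z →
      κ (q, false) = κ (p, true) := by
    intro p q h hz
    rw [h2 p q h]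
    simp [hz]
  have g3' : ∀ p q, (G q : ℕ) = G p + 1 → cls G (st s) (p, true) = Z →
      κ (q, false) = !κ (p, true) := by
    intro p q h hz
    rw [h2 p q h]
    simp [hz]
  have s1 : ∀ x, cls G (st s) x = Z → κ (smooth (st s) x) = !κ x := by
    intro x hx
    rcases (hA3 N ε s x).1 with h | h
    · have := g1 x (by rw [← h, B1_smooth]; exact hx)
      rw [h]; exact this
    · have := g1 (smooth (st s) x) (by rw [h]; exact hx)
      rw [h] at this
      rw [this]; simp
  have s2 : ∀ x, cls G (st s) x ≠ Z → κ (smooth (st s) x) = κ x := by
    intro x hx
    rcases (hA3 N ε s x).1 with h | h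
    · have := g2 x (by rw [← h, B1_smooth]; exact hx)
      rw [h]; exact this
    · have := g2 (smooth (st s) x) (by rw [h]; exact hx)
      rw [h] at this
      exact this.symm
  obtain ⟨z, hz⟩ := Quot.exists_rep Z
  have hz' : cls G (st s) z = Z := hz
  have A := hA2 N G s (fun h => if cls G (st s) h = Z then xor (κ h) (!o h) else false)
    (by
      intro p q h
      have e1 := B1_edge G (st s) p q h
      by_cases hp : cls G (st s) (p, true) = Z
      · have e2 : cls G (st s) (q, false) = Z := e1.trans hp
        simp only [hp, e2, if_true]
        rw [g3' p q h hp]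
        have e3 : o (q, false) = !o (p, true) := by
          rw [← hO.1 (p, true), ← B1_next G p q h]
          rfl
        rw [e3]
        cases κ (p, true) <;> cases o (p, true) <;> rfl
      · have e2 : cls G (st s) (q, false) ≠ Z := by rw [e1]; exact hp
        simp only [hp, e2, if_false])
    (by
      intro x
      by_cases hx : cls G (st s) x = Z
      · have e2 : cls G (st s) (smooth (st s) x) = Z := by rw [B1_smooth]; exact hx
        simp only [hx, e2, if_true]
        rw [s1 x hx, hO.2 x]
        cases κ x <;> cases o x <;> rfl
      · have e2 : cls G (st s) (smooth (st s) x) ≠ Z := by rw [B1_smooth]; exact hx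
        simp only [hx, e2, if_false])
  have B := hA2 N G s (fun h => if cls G (st s) h = Z then false else κ h)
    (by
      intro p q h
      have e1 := B1_edge G (st s) p q h
      by_cases hp : cls G (st s) (p, true) = Z
      · have e2 : cls G (st s) (q, false) = Z := e1.trans hp
        simp only [hp, e2, if_true]
      · have e2 : cls G (st s) (q, false) ≠ Z := by rw [e1]; exact hp
        simp only [hp, e2, if_false]
        exact g3 p q h hp)
    (by
      intro x
      by_cases hx : cls G (st s) x = Z
      · have e2 : cls G (st s) (smooth (st s) x) = Z := by rw [B1_smooth]; exact hx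
        simp only [hx, e2, if_true]
      · have e2 : cls G (st s) (smooth (st s) x) ≠ Z := by rw [B1_smooth]; exact hx
        simp only [hx, e2, if_false]
        exact s2 x hx)
  refine ⟨κ, xor (κ z) (!o z), g1, g2, g3, ?_, ?_⟩
  · intro h hh
    have := A h z (hh.trans hz'.symm)
    simp only [hh, hz', if_true] at this
    rw [← this]
    cases κ h <;> cases o h <;> rfl
  · intro h h' hh hhh
    have := B h h' hhh
    have h3 : cls G (st s) h' ≠ Z := by rw [← hhh]; exact hh
    simpa only [hh, h3, if_false] using this

end Pool.Agent.H867R3.Kn
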