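import Pool.Agent.H867R3.Kn.Stubs

set_option autoImplicit false

namespace Pool.Agent.H867R3.Kn

open Finset LaurentPolynomial Pool.Agent.H832R2.JR

/-- the finite case check -/
theorem B2_core : ∀ s ε l a zff zft kff ktf ktt kft : Bool,
    ((bif ε then ktt else ktf) = xor kff (bif ε then (bif s then zff else zft) else (bif s then zft else zff))) →
    ((bif ε then ktf else ktt) = xor kft (bif ε then (bif s then zft else zff) else (bif s then zff else zft))) →
    ((bif ε then kff else kft) = xor ktf (bif ε then zff else zft)) →
    ((bif ε then kft else kff) = xor ktt (bif ε then zft else zff)) →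
    (zff = true → kff = xor l (!a)) →
    (zft = true → kft = xor l (!a)) →
    ((bif s then zft else zff) = true → ktf = xor l a) →
    ((bif s then zff else zft) = true → ktt = xor l a) →
    (zff = true ∨ zft = true) →
    ((zff = false → kff = xor l (xor a (xor s ε))) ∧
     (zft = false → kft = xor l (xor a (xor s ε))) ∧
     ((bif s then zft else zff) = false → ktf = xor l (xor a (xor s ε))) ∧
     ((bif s then zff else zft) = false → ktt = xor l (xor a (xor s ε)))) := by
  intro s ε l a zff zft
  cases s <;> cases ε <;> cases l <;> cases a <;> cases zff <;> cases zft <;>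
    intro kff ktf ktt kft <;> cases kff <;> cases ktf <;> cases ktt <;> cases kft <;> simp

theorem t_B2 (hA3 : S_A3) : S_B2 := by
  classical
  intro N G ε s o Z κ l hO hin hout hZ d h h' hd hd' ha hz hz'
  set z : Half N → Bool := fun x => decide (cls G (st s) x = Z) with hzdef
  have hk : ∀ x, κ (rot ε x) = xor (κ x) (z (rot ε x)) := by
    intro x
    by_cases hx : cls G (st s) (rot ε x) = Z
    · rw [hin x hx]; simp [hzdef, hx]
    · rw [hout x hx]; simp [hzdef, hx]
  have hzk : ∀ x, z x = true → κ x = xor l (!o x) := by
    intro x hx
    exact hZ x (by simpa [hzdef] using hx)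
  have hzs : ∀ x, z (smooth (st s) x) = z x := by
    intro x
    have : cls G (st s) (smooth (st s) x) = cls G (st s) x := by
      unfold cls
      exact (Quot.sound (show gen (arcFun G) (smooth (st s)) x (smooth (st s) x) from Or.inr rfl)).symm
    simp only [hzdef, this]
  have hos : ∀ x, o (smooth (st s) x) = !o x := hO.2
  have hsm : ∀ b e, smooth (st s) ((d, b), e) = ((d, !b), bif s d then !e else e) := by
    intro b e
    unfold smooth st
    cases s d <;> simp
  have r1 : ∀ e, rot ε ((d, false), e) = ((d, true), xor e (ε d)) := fun e => rfl
  have r2 : ∀ e, rot ε ((d, true), e) = ((d, false), !(xor e (ε d))) := fun e => rfl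
  have z1 : z ((d, true), false) = bif s d then z ((d, false), true) else z ((d, false), false) := by
    cases hs : s d
    · have := hzs ((d, false), false)
      rw [hsm, hs] at this
      simpa using this
    · have := hzs ((d, false), true)
      rw [hsm, hs] at this
      simpa using this
  have z2 : z ((d, true), true) = bif s d then z ((d, false), false) else z ((d, false), true) := by
    cases hs : s d
    · have := hzs ((d, false), true)
      rw [hsm, hs] at this
      simpa using this
    · have := hzs ((d, false), false)
      rw [hsm, hs] at this
      simpa using this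
  have o1 : o ((d, true), false) = !o ((d, false), false) := by
    cases hs : s d
    · have := hos ((d, false), false)
      rw [hsm, hs] at this
      simpa using this
    · have := hos ((d, false), true)
      rw [hsm, hs] at this
      rw [ha]
      simpa using this
  have o2 : o ((d, true), true) = !o ((d, false), false) := by
    cases hs : s d
    · have := hos ((d, false), true)
      rw [hsm, hs] at this
      rw [ha]
      simpa using this
    · have := hos ((d, false), false)
      rw [hsm, hs] at this
      simpa using this
  have k1 := hk ((d, false), false)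
  have k2 := hk ((d, false), true)
  have k3 := hk ((d, true), false)
  have k4 := hk ((d, true), true)
  rw [r1] at k1 k2
  rw [r2] at k3 k4
  have m1 := hzk ((d, false), false)
  have m2 := hzk ((d, false), true)
  have m3 := hzk ((d, true), false)
  have m4 := hzk ((d, true), true)
  have hor : z ((d, false), false) = true ∨ z ((d, false), true) = true := by
    obtain ⟨⟨c, b⟩, e⟩ := h
    simp only at hd
    subst hd
    have hzz : z ((c, b), e) = true := by simpa [hzdef] using hz
    cases b <;> cases e
    · exact Or.inl hzz
    · exact Or.inr hzz
    · rw [z1] at hzz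
      cases hs : s c
      · rw [hs] at hzz; exact Or.inl hzz
      · rw [hs] at hzz; exact Or.inr hzz
    · rw [z2] at hzz
      cases hs : s c
      · rw [hs] at hzz; exact Or.inr hzz
      · rw [hs] at hzz; exact Or.inl hzz
  have core := B2_core (s d) (ε d) l (o ((d, false), false)) (z ((d, false), false))
    (z ((d, false), true)) (κ ((d, false), false)) (κ ((d, true), false)) (κ ((d, true), true))
    (κ ((d, false), true))
    (by cases hε : ε d <;> rw [hε] at k1 <;> simp only [Bool.xor_false, Bool.xor_true, Bool.not_false, Bool.false_xor, Bool.true_xor] at k1 <;>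
          simpa [z1, z2] using k1)
    (by cases hε : ε d <;> rw [hε] at k2 <;> simp only [Bool.xor_false, Bool.xor_true, Bool.not_false, Bool.not_true, Bool.false_xor, Bool.true_xor] at k2 <;>
          simpa [z1, z2] using k2)
    (by cases hε : ε d <;> rw [hε] at k3 <;> simp only [Bool.xor_false, Bool.xor_true, Bool.not_false, Bool.not_true, Bool.false_xor, Bool.true_xor] at k3 <;>
          simpa using k3)
    (by cases hε : ε d <;> rw [hε] at k4 <;> simp only [Bool.xor_false, Bool.xor_true, Bool.not_false, Bool.not_true, Bool.false_xor, Bool.true_xor] at k4 <;>
          simpa using k4)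
    m1 (by rw [← ha] at m2; exact m2)
    (by rw [z1, o1, Bool.not_not] at m3; exact m3)
    (by rw [z2, o2, Bool.not_not] at m4; exact m4) hor
  obtain ⟨⟨c, b⟩, e⟩ := h'
  simp only at hd'
  subst hd'
  have hzz : z ((c, b), e) = false := by simpa [hzdef] using hz'
  cases b <;> cases e
  · exact core.1 hzz
  · exact core.2.1 hzz
  · exact core.2.2.1 (by rw [← z1]; exact hzz)
  · exact core.2.2.2 (by rw [← z2]; exact hzz)

end Pool.Agent.H867R3.Kn
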