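import Pool.Agent.H867R3.Kn.Stubs

set_option autoImplicit false

namespace Pool.Agent.H867R3.Kn

open Finset LaurentPolynomial Pool.Agent.H832R2.JR Function

variable {N : ℕ}

theorem B3_next {G : GaussWord N} {p q : Fin N × Bool} (h : (G q : ℕ) = G p + 1) :
    next G p = q := by
  apply G.injective
  apply Fin.ext
  have h2 := next_val G p
  have h3 : (G q : ℕ) < 2 * N := (G q).2
  rw [h2, h]
  split_ifs with h4
  · omega
  · rfl

theorem B3_edge {G : GaussWord N} (t : Fin N → Fin 3) {p q : Fin N × Bool}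
    (h : (G q : ℕ) = G p + 1) : cls G t (q, false) = cls G t (p, true) := by
  unfold cls
  refine Eq.symm (Quot.sound (r := gen (arcFun G) (smooth t)) (Or.inl ?_))
  simp [arcFun, B3_next h]

theorem B3_smooth {G : GaussWord N} (t : Fin N → Fin 3) (x : Half N) :
    cls G t (smooth t x) = cls G t x := by
  unfold cls
  exact Eq.symm (Quot.sound (r := gen (arcFun G) (smooth t)) (Or.inr rfl))

theorem B3_avoid {G : GaussWord N} {t : Fin N → Fin 3}
    {A B : Quot (gen (arcFun G) (smooth t))} (h : A ≠ B) :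
    (∀ p, (G p : ℕ) = 0 → cls G t (p, false) ≠ A) ∨
    (∀ p, (G p : ℕ) = 0 → cls G t (p, false) ≠ B) := by
  by_contra hcon
  push Not at hcon
  obtain ⟨⟨p, hp, hp2⟩, q, hq, hq2⟩ := hcon
  have : p = q := G.injective (Fin.ext (by omega))
  subst this
  exact h (hp2.symm.trans hq2)

/-- the pattern of the orientation at the crossings of the class -/
theorem B3_pat {G : GaussWord N} {w : Fin N → Bool} {o : Half N → Bool} (hO : Ori G (st w) o)
    {d : Fin N} (h : o ((d, false), false) = o ((d, false), true)) (b e : Bool) :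
    o ((d, b), e) = xor (o ((d, false), false)) b := by
  have h1 := hO.2 ((d, false), false)
  have h2 := hO.2 ((d, false), true)
  unfold smooth st at h1 h2
  cases hw : w d <;> cases b <;> cases e <;> simp_all

theorem B3_ori {G : GaussWord N} {w : Fin N → Bool} {o : Half N → Bool} (hO : Ori G (st w) o)
    (S : Finset (Fin N)) (h : ∀ d ∈ S, o ((d, false), false) = o ((d, false), true)) :
    Ori G (st (flip w S)) o := by
  refine ⟨hO.1, ?_⟩
  rintro ⟨⟨d, b⟩, e⟩
  by_cases hd : d ∈ S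
  · have hp := B3_pat hO (h d hd)
    have h3 : ∃ e', smooth (st (flip w S)) ((d, b), e) = ((d, !b), e') := by
      unfold smooth st
      cases hw : flip w S d <;> simp [hw]
    obtain ⟨e', he⟩ := h3
    rw [he, hp, hp b e]
    cases b <;> simp
  · have h2 := hO.2 ((d, b), e)
    have h3 : smooth (st (flip w S)) ((d, b), e) = smooth (st w) ((d, b), e) := by
      unfold smooth st flip
      simp [hd]
    rw [h3, h2]

theorem B3_step1 (hB1 : S_B1) (hB2 : S_B2) {G : GaussWord N} {ε w : Fin N → Bool}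
    {o : Half N → Bool} (hs : Spherical G ε) (hO : Ori G (st w) o) (P : Finset (Fin N))
    {Z Z' : Quot (gen (arcFun G) (smooth (st w)))} (hZ : Z' ≠ Z)
    (hav : ∀ p, (G p : ℕ) = 0 → cls G (st w) (p, false) ≠ Z)
    (hP : ∀ d ∈ P, ∃ h h' : Half N, h.1.1 = d ∧ h'.1.1 = d ∧ cls G (st w) h = Z ∧
      cls G (st w) h' = Z')
    (ho : ∀ d ∈ P, o ((d, false), false) = o ((d, false), true)) :
    ∃ ρ : Bool, ∀ d ∈ P, xor (o ((d, false), false)) (xor (w d) (ε d)) = ρ := by
  obtain ⟨κ, l, h1, h2, h3, h4, h5⟩ := hB1 N G ε w o Z hs hO hav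
  have key : ∀ d ∈ P, ∃ h', cls G (st w) h' = Z' ∧
      κ h' = xor l (xor (o ((d, false), false)) (xor (w d) (ε d))) := by
    intro d hd
    obtain ⟨h, h', e1, e2, e3, e4⟩ := hP d hd
    exact ⟨h', e4, hB2 N G ε w o Z κ l hO h1 h2 h4 d h h' e1 e2 (ho d hd) e3 (by rw [e4]; exact hZ)⟩
  rcases P.eq_empty_or_nonempty with rfl | ⟨d0, hd0⟩
  · exact ⟨true, by simp⟩
  · obtain ⟨g, hg, hg2⟩ := key d0 hd0
    refine ⟨xor l (κ g), fun d hd => ?_⟩
    obtain ⟨g', hg', hg2'⟩ := key d hd
    have : κ g' = κ g := h5 g' g (by rw [hg']; exact hZ) (by rw [hg, hg'])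
    rw [← this, hg2']
    cases l <;> simp

theorem B3_step2 (hA2 : S_A2) (hA3 : S_A3) (hB1 : S_B1) (hB2 : S_B2) {G : GaussWord N}
    {ε w : Fin N → Bool}
    {o : Half N → Bool} (hs : Spherical G ε) (hO : Ori G (st w) o) (S : Finset (Fin N))
    (hS : S.Nonempty) (c : Fin N) (hc : c ∉ S) (ρ : Bool)
    (hρ : ∀ d ∈ insert c S, xor (o ((d, false), false)) (xor (w d) (ε d)) = ρ)
    (ho : ∀ d ∈ insert c S, o ((d, false), false) = o ((d, false), true))
    (x y : Half N) (hx : x.1.1 = c) (hy : y.1.1 = c)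
    (hxS : ∀ d ∈ S, ∃ h : Half N, h.1.1 = d ∧ cls G (st w) h = cls G (st w) x)
    (hyS : ∀ d ∈ S, ∃ h : Half N, h.1.1 = d ∧ cls G (st w) h = cls G (st w) y)
    (hav : ∀ p, (G p : ℕ) = 0 → cls G (st (flip w S)) (p, false) ≠ cls G (st (flip w S)) x)
    (hxy : cls G (st (flip w S)) y ≠ cls G (st (flip w S)) x) : False := by
  have hO' : Ori G (st (flip w S)) o :=
    B3_ori hO S (fun d hd => ho d (Finset.mem_insert_of_mem hd))
  set t := st (flip w S) with ht
  set Z := cls G t x with hZ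
  obtain ⟨κ, l, h1, h2, h3, h4, h5⟩ := hB1 N G ε (flip w S) o Z hs hO' hav
  have hκy : κ y = xor l ρ := by
    rw [hB2 N G ε (flip w S) o Z κ l hO' h1 h2 h4 c x y hx hy (ho c (Finset.mem_insert_self _ _))
      rfl hxy]
    have := hρ c (Finset.mem_insert_self _ _)
    rw [show flip w S c = w c by simp [flip, hc], this]
  -- at a crossing of `S` which meets `Z`
  have hd : ∀ d ∈ S, ∀ h h' : Half N, h.1.1 = d → h'.1.1 = d → cls G t h = Z →
      cls G t h' ≠ Z → κ h' = xor l (!ρ) := by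
    intro d hdS h h' e1 e2 e3 e4
    rw [hB2 N G ε (flip w S) o Z κ l hO' h1 h2 h4 d h h' e1 e2
      (ho d (Finset.mem_insert_of_mem hdS)) e3 e4]
    have := hρ d (Finset.mem_insert_of_mem hdS)
    rw [show flip w S d = !(w d) by simp [flip, hdS], ← this]
    cases w d <;> simp
  -- the bad half edges
  classical
  set bad : Half N → Bool := fun h => decide (cls G t h ≠ Z ∧ κ h = xor l ρ) with hbad
  have bad_iff : ∀ h, bad h = true ↔ (cls G t h ≠ Z ∧ κ h = xor l ρ) := by
    intro h; simp [hbad]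
  -- no half edge at the crossing of a bad half edge in `S` belongs to `Z`
  have off : ∀ h : Half N, h.1.1 ∈ S → bad h = true → ∀ g : Half N, g.1.1 = h.1.1 →
      cls G t g ≠ Z := by
    intro h hh hb g hg hgZ
    rw [bad_iff] at hb
    have := hd h.1.1 hh g h hg rfl hgZ hb.1
    rw [hb.2] at this
    cases l <;> cases ρ <;> simp at this
  have sm : ∀ h : Half N, h.1.1 ∉ S → smooth (st w) h = smooth t h := by
    intro h hh
    rw [ht]
    unfold smooth st flip
    simp [hh]
  have inv1 : ∀ h, bad h = true → bad (smooth (st w) h) = true := by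
    intro h hb
    by_cases hh : h.1.1 ∈ S
    · have hoff := off h hh hb
      have hb2 := hb
      rw [bad_iff] at hb2 ⊢
      have e1 : (smooth (st w) h).1.1 = h.1.1 := smooth_fst _ _
      refine ⟨hoff _ e1, ?_⟩
      have hrot : ∀ g : Half N, g.1.1 = h.1.1 → κ (rot ε g) = κ g := by
        intro g hg
        exact h2 g (hoff _ (by rw [(hA3 N ε w g).2.2, hg]))
      rcases (hA3 N ε w h).1 with e | e
      · rw [e, hrot h rfl, hb2.2]
      · rw [← hb2.2, ← hrot _ e1, e]
    · rw [bad_iff] at hb ⊢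
      rw [sm h hh]
      have e1 : cls G t (smooth t h) = cls G t h := B3_smooth t h
      refine ⟨by rw [e1]; exact hb.1, ?_⟩
      rw [← hb.2]
      exact (h5 h _ hb.1 e1.symm).symm
  have inv2 : ∀ h, bad (smooth (st w) h) = bad h := by
    intro h
    rw [Bool.eq_iff_iff]
    refine ⟨fun hb => ?_, inv1 h⟩
    have := inv1 _ hb
    rwa [smooth_inv] at this
  have arc : ∀ p q, (G q : ℕ) = G p + 1 → bad (q, false) = bad (p, true) := by
    intro p q hpq
    have e1 : cls G t (q, false) = cls G t (p, true) := B3_edge t hpq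
    rw [Bool.eq_iff_iff, bad_iff, bad_iff, e1]
    constructor
    · rintro ⟨e2, e3⟩
      exact ⟨e2, by rw [← e3, h3 p q hpq e2]⟩
    · rintro ⟨e2, e3⟩
      exact ⟨e2, by rw [← e3, h3 p q hpq e2]⟩
  have hyb : bad y = true := by rw [bad_iff]; exact ⟨hxy, hκy⟩
  have offS : ∀ g : Half N, g.1.1 ∈ S → cls G t g ≠ Z := by
    intro g hg
    obtain ⟨h, e1, e2⟩ := hyS _ hg
    have : bad h = true := by
      rw [hA2 N G w bad arc inv2 h y e2, hyb]
    exact off h (by rw [e1]; exact hg) this g (by rw [e1])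
  -- `Z` is invariant in the state `w`
  set ψ : Half N → Bool := fun h => decide (cls G t h = Z) with hψ
  have arc2 : ∀ p q, (G q : ℕ) = G p + 1 → ψ (q, false) = ψ (p, true) := by
    intro p q hpq
    have e1 : cls G t (q, false) = cls G t (p, true) := B3_edge t hpq
    simp only [hψ, e1]
  have inv3 : ∀ h, ψ (smooth (st w) h) = ψ h := by
    intro h
    by_cases hh : h.1.1 ∈ S
    · have e1 := offS h hh
      have e2 := offS (smooth (st w) h) (by rw [smooth_fst]; exact hh)
      simp [hψ, e1, e2]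
    · simp only [hψ]
      rw [sm h hh, B3_smooth]
  obtain ⟨d, hdS⟩ := hS
  obtain ⟨h, e1, e2⟩ := hxS d hdS
  have e3 : ψ h = ψ x := hA2 N G w ψ arc2 inv3 h x e2
  have e4 : ψ x = true := by simp [hψ, hZ]
  rw [e4] at e3
  have e5 : cls G t h = Z := by simpa [hψ] using e3
  exact offS h (by rw [e1]; exact hdS) e5

theorem t_B3 (hA2 : S_A2) (hA3 : S_A3) (hB1 : S_B1) (hB2 : S_B2) : S_B3 := by
  intro N G ε w o S c X Y hs hA hO hS hc hXY hkey ho
  by_contra hcon
  -- step 1
  have hpair : ∀ d ∈ insert c S,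
      (cls G (st w) ((d, false), false) = X ∧ cls G (st w) ((d, false), true) = Y) ∨
      (cls G (st w) ((d, false), false) = Y ∧ cls G (st w) ((d, false), true) = X) := by
    intro d hd
    exact Sym2.eq_iff.1 (hkey d hd)
  have hρ : ∃ ρ : Bool, ∀ d ∈ insert c S, xor (o ((d, false), false)) (xor (w d) (ε d)) = ρ := by
    rcases B3_avoid (t := st w) hXY with hav | hav
    · refine B3_step1 hB1 hB2 hs hO (insert c S) (Z := X) (Z' := Y) hXY.symm hav ?_ ho
      intro d hd
      rcases hpair d hd with ⟨e1, e2⟩ | ⟨e1, e2⟩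
      · exact ⟨_, _, rfl, rfl, e1, e2⟩
      · exact ⟨_, _, rfl, rfl, e2, e1⟩
    · refine B3_step1 hB1 hB2 hs hO (insert c S) (Z := Y) (Z' := X) hXY hav ?_ ho
      intro d hd
      rcases hpair d hd with ⟨e1, e2⟩ | ⟨e1, e2⟩
      · exact ⟨_, _, rfl, rfl, e2, e1⟩
      · exact ⟨_, _, rfl, rfl, e1, e2⟩
  obtain ⟨ρ, hρ⟩ := hρ
  have hin : ∀ d ∈ S, ∃ h : Half N, h.1.1 = d ∧
      cls G (st w) h = cls G (st w) ((c, false), false) := by
    intro d hd
    rcases hpair c (Finset.mem_insert_self _ _) with ⟨e1, e2⟩ | ⟨e1, e2⟩ <;>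
    rcases hpair d (Finset.mem_insert_of_mem hd) with ⟨f1, f2⟩ | ⟨f1, f2⟩
    · exact ⟨_, rfl, f1.trans e1.symm⟩
    · exact ⟨_, rfl, f2.trans e1.symm⟩
    · exact ⟨_, rfl, f2.trans e1.symm⟩
    · exact ⟨_, rfl, f1.trans e1.symm⟩
  have hout : ∀ d ∈ S, ∃ h : Half N, h.1.1 = d ∧
      cls G (st w) h = cls G (st w) ((c, false), true) := by
    intro d hd
    rcases hpair c (Finset.mem_insert_self _ _) with ⟨e1, e2⟩ | ⟨e1, e2⟩ <;>
    rcases hpair d (Finset.mem_insert_of_mem hd) with ⟨f1, f2⟩ | ⟨f1, f2⟩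
    · exact ⟨_, rfl, f2.trans e2.symm⟩
    · exact ⟨_, rfl, f1.trans e2.symm⟩
    · exact ⟨_, rfl, f1.trans e2.symm⟩
    · exact ⟨_, rfl, f2.trans e2.symm⟩
  rcases B3_avoid (t := st (flip w S)) hcon with hav | hav
  · exact B3_step2 hA2 hA3 hB1 hB2 hs hO S hS c hc ρ hρ ho ((c, false), false) ((c, false), true)
      rfl rfl hin hout hav (Ne.symm hcon)
  · exact B3_step2 hA2 hA3 hB1 hB2 hs hO S hS c hc ρ hρ ho ((c, false), true) ((c, false), false)
      rfl rfl hout hin hav hcon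

end Pool.Agent.H867R3.Kn
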