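import Pool.Agent.H867R3.Kn.Stubs

set_option autoImplicit false

namespace Pool.Agent.H867R3.Kn

open Finset LaurentPolynomial Pool.Agent.H832R2.JR Function

theorem C1_terms {N : ℕ} (G : GaussWord N) (t : Fin N → Fin 3) (c : Fin N) (k k' : Fin 3) :
    L G (update t c k) ≤ L G (update t c k') + 1 := by
  obtain ⟨n, h⟩ := three_term G t c
  fin_cases k <;> fin_cases k' <;> simp only [Fin.zero_eta, Fin.mk_one, Fin.reduceFinMk] <;> omega

theorem C1_upd {N : ℕ} (w : Fin N → Bool) (S : Finset (Fin N)) (c : Fin N) :
    st (flip w (insert c S)) = update (st (flip w S)) c (st (flip w (insert c S)) c) := by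
  funext d
  by_cases h : d = c
  · subst h
    rw [update_self]
  · rw [update_of_ne h]
    unfold st flip
    simp only [mem_insert, h, false_or]

theorem C1_step {N : ℕ} (G : GaussWord N) (w : Fin N → Bool) (S : Finset (Fin N)) (c : Fin N) :
    ell G w (insert c S) ≤ ell G w S + 1 := by
  unfold ell
  rw [C1_upd w S c]
  have h1 : st (flip w S) = update (st (flip w S)) c (st (flip w S) c) :=
    (update_eq_self c _).symm
  conv_rhs => rw [h1]
  exact C1_terms G _ c _ _

theorem C1_union {N : ℕ} (G : GaussWord N) (w : Fin N → Bool) (S R : Finset (Fin N)) :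
    ell G w (R ∪ S) ≤ ell G w S + R.card := by
  classical
  induction R using Finset.induction_on with
  | empty => simp
  | insert c R hc ih =>
    rw [insert_union, card_insert_of_notMem hc]
    have := C1_step G w (R ∪ S) c
    omega

theorem t_C1 (hA4 : S_A4) : S_C1 := by
  classical
  intro N G w hw
  have h1 : ∀ S T : Finset (Fin N), S ⊆ T → ell G w T + S.card ≤ ell G w S + T.card := by
    intro S T hST
    have h2 := C1_union G w S (T \ S)
    rw [sdiff_union_of_subset hST, card_sdiff_of_subset hST] at h2
    have h3 := card_le_card hST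
    omega
  intro S T hST hS
  refine ⟨h1 S T hST, ?_⟩
  obtain ⟨c, hc⟩ := hS
  have h4 := h1 {c} T (singleton_subset_iff.mpr (hST hc))
  rw [card_singleton] at h4
  have h5 : ell G w {c} + 1 = ell G w ∅ := by
    have e0 : flip w ∅ = w := by
      funext d
      simp [flip]
    have e1 : ell G w ∅ = L G (st w) := by
      unfold ell
      rw [e0]
    have e2 := C1_upd w ∅ c
    rw [e0, insert_empty_eq] at e2
    have ht : st w c ≠ 0 := by
      unfold st
      split_ifs <;> decide
    have e3 : st (flip w {c}) c ≠ st w c := by
      unfold st flip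
      simp only [mem_singleton, if_true]
      cases w c <;> decide
    rw [e1]
    unfold ell
    rw [e2]
    exact (hA4 N G (st w) c ht).1 (hw c) _ e3
  omega

end Pool.Agent.H867R3.Kn
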