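import Pool.Agent.H867R3.Kn.Stubs

/-! Task C2: crossings of one class: each further change adds exactly one curve. -/

set_option autoImplicit false

namespace Pool.Agent.H867R3.Kn

open Finset LaurentPolynomial Pool.Agent.H832R2.JR Function

theorem C2_cls_arc {N : ℕ} (G : GaussWord N) (t : Fin N → Fin 3) (x : Half N) :
    cls G t (arcFun G x) = cls G t x := by
  unfold cls
  exact (Quot.sound (show gen (arcFun G) (smooth t) x (arcFun G x) from Or.inl rfl)).symm

theorem C2_cls_smooth {N : ℕ} (G : GaussWord N) (t : Fin N → Fin 3) (x : Half N) :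
    cls G t (smooth t x) = cls G t x := by
  unfold cls
  exact (Quot.sound (show gen (arcFun G) (smooth t) x (smooth t x) from Or.inr rfl)).symm

/-- flipping the orientation of one curve -/
theorem C2_flip {N : ℕ} (G : GaussWord N) (t : Fin N → Fin 3) (o : Half N → Bool)
    (ho : Ori G t o) (Y : Quot (gen (arcFun G) (smooth t))) :
    ∃ o' : Half N → Bool, Ori G t o' ∧ (∀ h, cls G t h = Y → o' h = !o h) ∧
      ∀ h, cls G t h ≠ Y → o' h = o h := by
  classical
  refine ⟨fun h => if cls G t h = Y then !o h else o h, ⟨?_, ?_⟩, ?_, ?_⟩
  · intro x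
    simp only [C2_cls_arc, ho.1 x]
    split_ifs <;> rfl
  · intro x
    simp only [C2_cls_smooth, ho.2 x]
    split_ifs <;> rfl
  · intro h hh; simp [hh]
  · intro h hh; simp [hh]

/-- the values of the orientation at a crossing -/
theorem C2_vals {N : ℕ} (G : GaussWord N) (w : Fin N → Bool) (o : Half N → Bool)
    (ho : Ori G (st w) o) (c : Fin N) (h : o ((c, false), false) = o ((c, false), true)) :
    ∀ b e, o ((c, !b), e) = !o ((c, b), !e) ∧ o ((c, !b), e) = !o ((c, b), e) := by
  have h1 := ho.2 ((c, false), false)
  have h2 := ho.2 ((c, false), true)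
  have h3 := ho.2 ((c, true), false)
  have h4 := ho.2 ((c, true), true)
  unfold smooth st at h1 h2 h3 h4
  cases hw : w c
  · simp only [hw, Bool.false_eq_true, if_false] at h1 h2 h3 h4
    simp only [Fin.reduceEq, if_false] at h1 h2 h3 h4
    intro b e
    cases b <;> cases e <;> simp_all
  · simp only [hw, if_true] at h1 h2 h3 h4
    simp only [Fin.reduceEq, if_false] at h1 h2 h3 h4
    intro b e
    cases b <;> cases e <;> simp_all

/-- the orientation is compatible with all changes of the crossings in `S` -/
theorem C2_ori {N : ℕ} (G : GaussWord N) (w : Fin N → Bool) (o : Half N → Bool)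
    (ho : Ori G (st w) o) (S T : Finset (Fin N)) (hT : T ⊆ S)
    (h : ∀ c ∈ S, o ((c, false), false) = o ((c, false), true)) : Ori G (st (flip w T)) o := by
  refine ⟨ho.1, ?_⟩
  rintro ⟨⟨c, b⟩, e⟩
  by_cases hc : c ∈ T
  · have h1 := C2_vals G w o ho c (h c (hT hc))
    unfold smooth st
    by_cases hf : flip w T c = true
    · simp only [hf, if_true, Fin.reduceEq, if_false]
      rw [(h1 b (!e)).1, Bool.not_not]
    · rw [Bool.not_eq_true] at hf
      simp only [hf, Bool.false_eq_true, if_false, Fin.reduceEq]
      exact (h1 b e).2
  · have h2 := ho.2 ((c, b), e)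
    have h3 : smooth (st (flip w T)) ((c, b), e) = smooth (st w) ((c, b), e) := by
      have h4 : st (flip w T) c = st w c := by
        unfold st flip
        rw [if_neg hc]
      unfold smooth
      simp only [h4]
    rw [h3]
    exact h2

theorem C2_st_empty {N : ℕ} (w : Fin N → Bool) : flip w ∅ = w := by
  funext c
  simp [flip]

theorem C2_st_insert {N : ℕ} (w : Fin N → Bool) (T : Finset (Fin N)) (c : Fin N) (hc : c ∉ T) :
    st (flip w (insert c T)) = update (st (flip w T)) c (if w c then 2 else 1) := by
  funext d
  by_cases hd : d = c
  · subst hd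
    rw [update_self]
    unfold st flip
    rw [if_pos (Finset.mem_insert_self _ _)]
    cases w d <;> rfl
  · rw [update_of_ne hd]
    have h1 : flip w (insert c T) d = flip w T d := by
      unfold flip
      have h2 : d ∈ insert c T ↔ d ∈ T := by simp [hd]
      by_cases h3 : d ∈ T
      · rw [if_pos h3, if_pos (h2.mpr h3)]
      · rw [if_neg h3, if_neg (fun h => h3 (h2.mp h))]
    unfold st
    rw [h1]

theorem C2_st_ne {N : ℕ} (w : Fin N → Bool) (T : Finset (Fin N)) (c : Fin N) (hc : c ∉ T) :
    st (flip w T) c = if w c then 1 else 2 := by
  unfold st flip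
  rw [if_neg hc]

theorem t_C2 (hA4 : S_A4) (hA5 : S_A5) (hB3 : S_B3) : S_C2 := by
  intro N G ε w o hsph hadq hori S hS hkey
  obtain ⟨c0, hc0⟩ := hS
  set X := cls G (st w) ((c0, false), false) with hX
  set Y := cls G (st w) ((c0, false), true) with hY
  have hXY : X ≠ Y := hadq c0
  have hpair : ∀ d ∈ S,
      s(cls G (st w) ((d, false), false), cls G (st w) ((d, false), true)) = s(X, Y) := by
    intro d hd
    exact congrArg Prod.fst (hkey d hd c0 hc0)
  have hxor : ∀ d ∈ S, xor (o ((d, false), false)) (o ((d, false), true)) =
      xor (o ((c0, false), false)) (o ((c0, false), true)) := by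
    intro d hd
    exact congrArg Prod.snd (hkey d hd c0 hc0)
  -- a good orientation
  obtain ⟨o', ho', hgood⟩ : ∃ o' : Half N → Bool, Ori G (st w) o' ∧
      ∀ d ∈ S, o' ((d, false), false) = o' ((d, false), true) := by
    cases hR : xor (o ((c0, false), false)) (o ((c0, false), true))
    · refine ⟨o, hori, fun d hd => ?_⟩
      have h1 := hxor d hd
      rw [hR] at h1
      cases ha : o ((d, false), false) <;> cases hb : o ((d, false), true) <;>
        rw [ha, hb] at h1 <;> first | rfl | exact absurd h1 (by decide)
    · obtain ⟨o', ho', h1, h2⟩ := C2_flip G (st w) o hori Y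
      refine ⟨o', ho', fun d hd => ?_⟩
      have h3 := hxor d hd
      rw [hR] at h3
      have h4 : o ((d, false), false) = !o ((d, false), true) := by
        cases ha : o ((d, false), false) <;> cases hb : o ((d, false), true) <;>
          rw [ha, hb] at h3 <;> first | rfl | exact absurd h3 (by decide)
      have h5 := hpair d hd
      rw [Sym2.eq_iff] at h5
      rcases h5 with ⟨h6, h7⟩ | ⟨h6, h7⟩
      · rw [h2 _ (by rw [h6]; exact hXY), h1 _ h7, h4]
      · rw [h1 _ h6, h2 _ (by rw [h7]; exact hXY), h4, Bool.not_not]
  have hell0 : ell G w ∅ = L G (st w) := by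
    unfold ell
    rw [C2_st_empty]
  -- induction
  have key : ∀ T : Finset (Fin N), T ⊆ S → T.Nonempty → ell G w T + 2 = ell G w ∅ + T.card := by
    intro T
    induction T using Finset.induction_on with
    | empty => intro _ h; exact absurd h Finset.not_nonempty_empty
    | insert c T hc ih =>
      intro hT _
      have hcS : c ∈ S := hT (Finset.mem_insert_self c T)
      have hTS : T ⊆ S := (Finset.subset_insert c T).trans hT
      rw [Finset.card_insert_of_notMem hc]
      have hk : ell G w (insert c T) = L G (update (st (flip w T)) c (if w c then 2 else 1)) := by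
        unfold ell
        rw [C2_st_insert w T c hc]
      have htc : st (flip w T) c ≠ 0 := by
        rw [C2_st_ne w T c hc]
        cases w c <;> decide
      have hne : (if w c then (2 : Fin 3) else 1) ≠ st (flip w T) c := by
        rw [C2_st_ne w T c hc]
        cases w c <;> decide
      rcases T.eq_empty_or_nonempty with hTe | hTn
      · subst hTe
        rw [hk, hell0, C2_st_empty]
        rw [C2_st_empty] at htc hne
        have h1 := (hA4 N G (st w) c htc).1 (hadq c) _ hne
        rw [Finset.card_empty]
        omega
      · have h1 := ih hTS hTn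
        have h2 : cls G (st (flip w T)) ((c, false), false) =
            cls G (st (flip w T)) ((c, false), true) :=
          hB3 N G ε w o' T c X Y hsph hadq ho' hTn hc hXY
            (fun d hd => hpair d (hT hd)) (fun d hd => hgood d (hT hd))
        have h3 := (hA4 N G (st (flip w T)) c htc).2 h2 (if w c then 2 else 1)
        have hupd : update (st (flip w T)) c (st (flip w T) c) = st (flip w T) :=
          update_eq_self _ _
        have h4 : L G (st (flip w T)) ≠ L G (update (st (flip w T)) c (if w c then 2 else 1)) := by
          have h5 := hA5 N G (st (flip w T)) c (st (flip w T) c) (if w c then 2 else 1) o' hne.symm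
            (by rw [hupd]; exact C2_ori G w o' ho' S T hTS hgood)
            (by rw [← C2_st_insert w T c hc]; exact C2_ori G w o' ho' S (insert c T) hT hgood)
          rwa [hupd] at h5
        have h6 : L G (update (st (flip w T)) c (if w c then 2 else 1)) ≤
            L G (st (flip w T)) + 1 := by
          obtain ⟨n, hn⟩ := three_term G (st (flip w T)) c
          have h7 : L G (st (flip w T)) =
              L G (update (st (flip w T)) c (if w c then 1 else 2)) := by
            rw [← C2_st_ne w T c hc, hupd]
          cases hw : w c
          · simp only [hw, Bool.false_eq_true, if_false] at h7 ⊢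
            omega
          · simp only [hw, if_true] at h7 ⊢
            omega
        have h8 : ell G w T = L G (st (flip w T)) := rfl
        rw [hk]
        omega
  exact key S (Finset.Subset.refl S) ⟨c0, hc0⟩

end Pool.Agent.H867R3.Kn
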