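import Pool.Agent.H867R3.Kn.Stubs

set_option autoImplicit false

namespace Pool.Agent.H867R3.Kn

open Finset LaurentPolynomial Pool.Agent.H832R2.JR Function

theorem C3_smooth1 {N : ℕ} (t : Fin N → Fin 3) (c : Fin N) (h : t c = 1) (b e : Bool) :
    smooth t ((c, b), e) = ((c, !b), !e) := by
  simp [smooth, h]

theorem C3_smooth2 {N : ℕ} (t : Fin N → Fin 3) (c : Fin N) (h : t c = 2) (b e : Bool) :
    smooth t ((c, b), e) = ((c, !b), e) := by
  simp [smooth, h]

theorem C3_smooth0 {N : ℕ} (t : Fin N → Fin 3) (c : Fin N) (h : t c = 0) (b e : Bool) :
    smooth t ((c, b), e) = ((c, b), !e) := by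
  simp [smooth, h]

theorem C3_smooth_congr {N : ℕ} (t t' : Fin N → Fin 3) (x : Half N) (h : t x.1.1 = t' x.1.1) :
    smooth t x = smooth t' x := by
  simp [smooth, h]

/-- switching a crossing merges only the two curves at this crossing -/
theorem C3_merge {N : ℕ} (G : GaussWord N) (t t' : Fin N → Fin 3) (c : Fin N)
    (htt : ∀ x, x ≠ c → t' x = t x) (ht : t c ≠ 0) (x y : Half N)
    (hxy : cls G t' x = cls G t' y) (ht' : t' c ≠ 0) :
    cls G t x = cls G t y ∨
      ((cls G t x = cls G t ((c, false), false) ∨ cls G t x = cls G t ((c, false), true)) ∧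
      (cls G t y = cls G t ((c, false), false) ∨ cls G t y = cls G t ((c, false), true))) := by
  classical
  let q : Half N → Quot (gen (arcFun G) (smooth t)) := fun x =>
    if cls G t x = cls G t ((c, false), false) ∨ cls G t x = cls G t ((c, false), true) then
      cls G t ((c, false), false) else cls G t x
  have hA : ∀ x, cls G t (arcFun G x) = cls G t x := fun x =>
    (Quot.sound (r := gen (arcFun G) (smooth t)) (Or.inl rfl)).symm
  have hS : ∀ x, cls G t (smooth t x) = cls G t x := fun x =>
    (Quot.sound (r := gen (arcFun G) (smooth t)) (Or.inr rfl)).symm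
  have hat : ∀ x : Half N, x.1.1 = c →
      (cls G t x = cls G t ((c, false), false) ∨ cls G t x = cls G t ((c, false), true)) := by
    rintro ⟨⟨c', b⟩, e⟩ hx
    simp only at hx
    subst hx
    have h12 : t c' = 1 ∨ t c' = 2 := by
      have := ht
      generalize t c' = z at this
      fin_cases z <;> simp at this ⊢
    rcases h12 with h | h
    · have h0 := hS ((c', false), false)
      have h1 := hS ((c', false), true)
      rw [C3_smooth1 t c' h] at h0 h1
      cases b <;> cases e
      · exact Or.inl rfl
      · exact Or.inr rfl
      · exact Or.inr h1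
      · exact Or.inl h0
    · have h0 := hS ((c', false), false)
      have h1 := hS ((c', false), true)
      rw [C3_smooth2 t c' h] at h0 h1
      cases b <;> cases e
      · exact Or.inl rfl
      · exact Or.inr rfl
      · exact Or.inl h0
      · exact Or.inr h1
  have hq : ∀ a b, gen (arcFun G) (smooth t') a b → q a = q b := by
    rintro a b (rfl | rfl)
    · simp only [q, hA]
    · by_cases ha : a.1.1 = c
      · have h1 := hat a ha
        have h2 := hat (smooth t' a) (by rw [smooth_fst]; exact ha)
        simp only [q]
        rw [if_pos h1, if_pos h2]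
      · have : smooth t' a = smooth t a := C3_smooth_congr _ _ _ (htt _ ha)
        rw [this]
        simp only [q, hS]
  have h := congrArg (Quot.lift q hq) hxy
  change q x = q y at h
  simp only [q] at h
  by_cases h1 : cls G t x = cls G t ((c, false), false) ∨ cls G t x = cls G t ((c, false), true)
  · by_cases h2 : cls G t y = cls G t ((c, false), false) ∨ cls G t y = cls G t ((c, false), true)
    · exact Or.inr ⟨h1, h2⟩
    · rw [if_pos h1, if_neg h2] at h
      exact absurd (Or.inl h.symm) h2
  · by_cases h2 : cls G t y = cls G t ((c, false), false) ∨ cls G t y = cls G t ((c, false), true)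
    · rw [if_neg h1, if_pos h2] at h
      exact absurd (Or.inl h) h1
    · rw [if_neg h1, if_neg h2] at h
      exact Or.inl h

theorem C3_st_ne {N : ℕ} (s : Fin N → Bool) (c : Fin N) : st s c ≠ 0 := by
  unfold st; split_ifs <;> decide

/-- an orientation at a crossing with `t c ≠ 0` -/
theorem C3_ori {N : ℕ} (G : GaussWord N) (t : Fin N → Fin 3) (o : Half N → Bool)
    (ho : Ori G t o) (c : Fin N) (ht : t c ≠ 0) (k : Fin 3)
    (hk : (k = t c) ∨ (k ≠ 0 ∧ k ≠ t c ∧ o ((c, false), false) = o ((c, false), true)) ∨
      (k = 0 ∧ o ((c, false), false) ≠ o ((c, false), true))) :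
    Ori G (update t c k) o := by
  refine ⟨ho.1, ?_⟩
  rintro ⟨⟨c', b⟩, e⟩
  by_cases hc : c' = c
  swap
  · rw [C3_smooth_congr (update t c k) t _ (by simp only; rw [update_of_ne hc])]
    exact ho.2 _
  subst hc
  rcases hk with rfl | hk
  · rw [update_eq_self]; exact ho.2 _
  have h12 : t c' = 1 ∨ t c' = 2 := by
    have := ht
    generalize t c' = z at this
    fin_cases z <;> simp at this ⊢
  have hup : update t c' k c' = k := update_self _ _ _
  have h00 := ho.2 ((c', false), false)
  have h01 := ho.2 ((c', false), true)
  rcases hk with ⟨hk0, hk1, hk2⟩ | ⟨rfl, hk2⟩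
  · rcases h12 with h | h
    · have hk : k = 2 := by
        rw [h] at hk1
        revert hk0 hk1
        fin_cases k <;> simp
      subst hk
      rw [C3_smooth1 t c' h] at h00 h01
      rw [C3_smooth2 _ c' hup]
      revert h00 h01 hk2
      cases b <;> cases e <;> simp only [Bool.not_true, Bool.not_false] <;>
      generalize o ((c', false), false) = A <;> generalize o ((c', false), true) = B <;>
      generalize o ((c', true), false) = C <;> generalize o ((c', true), true) = D <;>
      cases A <;> cases B <;> cases C <;> cases D <;> simp
    · have hk : k = 1 := by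
        rw [h] at hk1
        revert hk0 hk1
        fin_cases k <;> simp
      subst hk
      rw [C3_smooth2 t c' h] at h00 h01
      rw [C3_smooth1 _ c' hup]
      revert h00 h01 hk2
      cases b <;> cases e <;> simp only [Bool.not_true, Bool.not_false] <;>
      generalize o ((c', false), false) = A <;> generalize o ((c', false), true) = B <;>
      generalize o ((c', true), false) = C <;> generalize o ((c', true), true) = D <;>
      cases A <;> cases B <;> cases C <;> cases D <;> simp
  · rw [C3_smooth0 _ c' hup]
    rcases h12 with h | h
    · rw [C3_smooth1 t c' h] at h00 h01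
      revert h00 h01 hk2
      cases b <;> cases e <;> simp only [Bool.not_true, Bool.not_false] <;>
      generalize o ((c', false), false) = A <;> generalize o ((c', false), true) = B <;>
      generalize o ((c', true), false) = C <;> generalize o ((c', true), true) = D <;>
      cases A <;> cases B <;> cases C <;> cases D <;> simp
    · rw [C3_smooth2 t c' h] at h00 h01
      revert h00 h01 hk2
      cases b <;> cases e <;> simp only [Bool.not_true, Bool.not_false] <;>
      generalize o ((c', false), false) = A <;> generalize o ((c', false), true) = B <;>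
      generalize o ((c', true), false) = C <;> generalize o ((c', true), true) = D <;>
      cases A <;> cases B <;> cases C <;> cases D <;> simp

/-- changing the orientation of one curve -/
theorem C3_flipori {N : ℕ} (G : GaussWord N) (t : Fin N → Fin 3) (o : Half N → Bool)
    (ho : Ori G t o) (g : Quot (gen (arcFun G) (smooth t)) → Bool) :
    Ori G t (fun x => xor (g (cls G t x)) (o x)) := by
  have hA : ∀ x, cls G t (arcFun G x) = cls G t x := fun x =>
    (Quot.sound (r := gen (arcFun G) (smooth t)) (Or.inl rfl)).symm
  have hS : ∀ x, cls G t (smooth t x) = cls G t x := fun x =>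
    (Quot.sound (r := gen (arcFun G) (smooth t)) (Or.inr rfl)).symm
  constructor
  · intro x
    simp only [hA, ho.1]
    cases g (cls G t x) <;> cases o x <;> rfl
  · intro x
    simp only [hS, ho.2]
    cases g (cls G t x) <;> cases o x <;> rfl

theorem t_C3 (hA4 : S_A4) (hA5 : S_A5) : S_C3 := by
  classical
  intro N G w o hadq hori c d hkey
  have hcd : c ≠ d := by
    rintro rfl
    exact hkey rfl
  -- the number of curves after switching `c`
  have hell0 : ell G w ∅ = L G (st w) := by
    unfold ell
    have : flip w ∅ = w := by funext x; simp [flip]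
    rw [this]
  set t := st (flip w {c}) with ht
  have hell1 : ell G w {c} = L G t := rfl
  have hto : ∀ x, x ≠ c → t x = st w x := by
    intro x hx
    simp [ht, st, flip, hx]
  have htc : t c ≠ st w c := by
    simp only [ht, st, flip, mem_singleton, if_true]
    cases w c <;> decide
  have htup : t = update (st w) c (t c) := by
    funext x
    by_cases hx : x = c
    · subst hx; rw [update_self]
    · rw [update_of_ne hx]; exact hto x hx
  have h1 : L G t + 1 = L G (st w) := by
    have := (hA4 N G (st w) c (C3_st_ne w c)).1 (hadq c) (t c) htc
    rwa [← htup] at this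
  -- switching `d`
  set t2 := st (flip w {c, d}) with ht2
  have hell2 : ell G w {c, d} = L G t2 := rfl
  have htd : t2 d ≠ t d := by
    simp only [ht, ht2, st, flip, mem_singleton, mem_insert, hcd.symm, or_true, if_true, if_false]
    cases w d <;> decide
  have ht2up : t2 = update t d (t2 d) := by
    funext x
    by_cases hx : x = d
    · subst hx; rw [update_self]
    · rw [update_of_ne hx]
      simp [ht, ht2, st, flip, hx]
  have htd0 : t d ≠ 0 := C3_st_ne _ d
  have ht2d0 : t2 d ≠ 0 := C3_st_ne _ d
  have htc0 : t c ≠ 0 := C3_st_ne _ c
  rw [hell0, hell2, ← h1]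
  have key2 : L G t2 ≤ L G t := by
    by_cases hcls : cls G t ((d, false), false) = cls G t ((d, false), true)
    swap
    · have := (hA4 N G t d htd0).1 hcls (t2 d) htd
      rw [← ht2up] at this
      omega
    -- the two curves at `d` are the two curves at `c`
    have hdd := hadq d
    have hcc := hadq c
    rcases C3_merge G (st w) t c hto (C3_st_ne w c) _ _ hcls htc0 with hm | ⟨hm1, hm2⟩
    · exact absurd hm hdd
    set X := cls G (st w) ((c, false), false) with hX
    set Y := cls G (st w) ((c, false), true) with hY
    have hpair : (cls G (st w) ((d, false), false) = X ∧ cls G (st w) ((d, false), true) = Y) ∨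
        (cls G (st w) ((d, false), false) = Y ∧ cls G (st w) ((d, false), true) = X) := by
      rcases hm1 with h | h <;> rcases hm2 with h' | h'
      · exact absurd (h.trans h'.symm) hdd
      · exact Or.inl ⟨h, h'⟩
      · exact Or.inr ⟨h, h'⟩
      · exact absurd (h.trans h'.symm) hdd
    have hxor : xor (o ((c, false), false)) (o ((c, false), true)) ≠
        xor (o ((d, false), false)) (o ((d, false), true)) := by
      intro hx
      apply hkey
      unfold key
      rw [← hX, ← hY, hx]
      rcases hpair with ⟨h, h'⟩ | ⟨h, h'⟩
      · rw [h, h']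
      · rw [h, h', Sym2.eq_swap]
    -- a suitable orientation
    obtain ⟨o', ho', hoc, hod⟩ : ∃ o' : Half N → Bool, Ori G (st w) o' ∧
        o' ((c, false), false) = o' ((c, false), true) ∧
        o' ((d, false), false) ≠ o' ((d, false), true) := by
      by_cases hc0 : o ((c, false), false) = o ((c, false), true)
      · refine ⟨o, hori, hc0, ?_⟩
        intro hd0
        apply hxor
        rw [hc0, hd0]
        simp
      · refine ⟨_, C3_flipori G (st w) o hori (fun z => decide (z = Y)), ?_, ?_⟩
        · simp only [← hX, ← hY, hcc]
          revert hc0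
          cases o ((c, false), false) <;> cases o ((c, false), true) <;> simp
        · rcases hpair with ⟨h, h'⟩ | ⟨h, h'⟩
          · simp only [h, h', hcc]
            revert hc0 hxor
            cases o ((c, false), false) <;> cases o ((c, false), true) <;>
              cases o ((d, false), false) <;> cases o ((d, false), true) <;> simp
          · simp only [h, h', hcc]
            revert hc0 hxor
            cases o ((c, false), false) <;> cases o ((c, false), true) <;>
              cases o ((d, false), false) <;> cases o ((d, false), true) <;> simp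
    have hot : Ori G t o' := by
      rw [htup]
      exact C3_ori G (st w) o' ho' c (C3_st_ne w c) (t c) (Or.inr (Or.inl ⟨htc0, htc, hoc⟩))
    have h0 : Ori G (update t d 0) o' :=
      C3_ori G t o' hot d htd0 0 (Or.inr (Or.inr ⟨rfl, hod⟩))
    have h2 : Ori G (update t d (t d)) o' := by
      rw [update_eq_self]; exact hot
    have h3 := hA5 N G t d (t d) 0 o' htd0 h2 h0
    have e1 : L G (update t d (t d)) = L G t := by rw [update_eq_self]
    have e2 : L G (update t d (t2 d)) = L G t2 := by rw [← ht2up]
    have h12 : (t d = 1 ∧ t2 d = 2) ∨ (t d = 2 ∧ t2 d = 1) := by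
      revert htd0 ht2d0 htd
      generalize t d = z
      generalize t2 d = z'
      revert z z'
      decide
    obtain ⟨n, hn⟩ := three_term G t d
    rw [e1] at h3
    rcases h12 with ⟨ha, hb⟩ | ⟨ha, hb⟩ <;> rw [ha] at e1 <;> rw [hb] at e2 <;>
      rw [e1, e2] at hn <;> omega
  omega

end Pool.Agent.H867R3.Kn
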