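import Pool.Agent.H867R3.Kn.Stubs

set_option autoImplicit false

namespace Pool.Agent.H867R3.Kn

open Finset LaurentPolynomial Pool.Agent.H832R2.JR Function

lemma C4_valid (hC1 : S_C1) (hC2 : S_C2) (hC3 : S_C3) {N : ℕ} (G : GaussWord N)
    (ε w : Fin N → Bool) (o : Half N → Bool) (hsph : Spherical G ε) (hadq : Adq G w)
    (hori : Ori G (st w) o) (S : Finset (Fin N)) :
    (S.Nonempty ∧ ell G w S + 2 = ell G w ∅ + S.card) ↔
      (S.Nonempty ∧ ∀ c ∈ S, ∀ d ∈ S, key G w o c = key G w o d) := by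
  constructor
  · rintro ⟨hne, heq⟩
    refine ⟨hne, fun c hc d hd => ?_⟩
    by_contra hkey
    have hcd : c ≠ d := by
      rintro rfl
      exact hkey rfl
    have h3 := hC3 N G w o hadq hori c d hkey
    have hsub : ({c, d} : Finset (Fin N)) ⊆ S := by
      intro x hx
      rw [mem_insert, mem_singleton] at hx
      rcases hx with rfl | rfl
      · exact hc
      · exact hd
    have h1 := (hC1 N G w hadq {c, d} S hsub ⟨c, by simp⟩).1
    rw [card_pair hcd] at h1
    omega
  · rintro ⟨hne, hkey⟩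
    exact ⟨hne, hC2 N G ε w o hsph hadq hori S hne hkey⟩

theorem t_C4 (hC1 : S_C1) (hC2 : S_C2) (hC3 : S_C3) : S_C4 := by
  classical
  intro N G ε w o hsph hadq hori
  set R : Finset (Sym2 (Quot (gen (arcFun G) (smooth (st w)))) × Bool) :=
    univ.image (key G w o) with hR
  have hcard : ((Set.range (key G w o)).ncard : ℤ) = R.card := by
    have : (Set.range (key G w o)) = (R : Set _) := by
      rw [hR, coe_image, coe_univ, Set.image_univ]
    rw [this, Set.ncard_coe_finset]
  have hset : univ.filter (fun S : Finset (Fin N) => S.Nonempty ∧ ell G w S + 2 = ell G w ∅ + S.card) =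
      R.biUnion (fun κ => (univ.filter (fun c => key G w o c = κ)).powerset.erase ∅) := by
    ext S
    rw [mem_filter, mem_biUnion, C4_valid hC1 hC2 hC3 G ε w o hsph hadq hori S]
    constructor
    · rintro ⟨_, hne, hkey⟩
      obtain ⟨c, hc⟩ := hne
      refine ⟨key G w o c, mem_image_of_mem _ (mem_univ _), ?_⟩
      rw [mem_erase, mem_powerset]
      refine ⟨Nonempty.ne_empty ⟨c, hc⟩, fun d hd => ?_⟩
      rw [mem_filter]
      exact ⟨mem_univ _, hkey d hd c hc⟩
    · rintro ⟨κ, _, hS⟩
      rw [mem_erase, mem_powerset] at hS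
      refine ⟨mem_univ _, nonempty_iff_ne_empty.2 hS.1, fun c hc d hd => ?_⟩
      rw [(mem_filter.1 (hS.2 hc)).2, (mem_filter.1 (hS.2 hd)).2]
  rw [hset, hcard, sum_biUnion]
  · have hone : ∀ κ ∈ R, ∑ S ∈ (univ.filter (fun c => key G w o c = κ)).powerset.erase ∅,
        (-1 : ℤ) ^ S.card = -1 := by
      intro κ hκ
      obtain ⟨c, _, hc⟩ := mem_image.1 hκ
      have hne : (univ.filter (fun c => key G w o c = κ)).Nonempty :=
        ⟨c, mem_filter.2 ⟨mem_univ _, hc⟩⟩
      have h0 := sum_powerset_neg_one_pow_card_of_nonempty hne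
      rw [← add_sum_erase _ _ (empty_mem_powerset _)] at h0
      simp only [card_empty, pow_zero] at h0
      linarith
    rw [sum_congr rfl hone, sum_const]
    simp
  · intro κ _ κ' _ hne
    rw [Function.onFun, disjoint_left]
    intro S hS hS'
    rw [mem_erase, mem_powerset] at hS hS'
    obtain ⟨c, hc⟩ := nonempty_iff_ne_empty.2 hS.1
    exact hne ((mem_filter.1 (hS.2 hc)).2.symm.trans (mem_filter.1 (hS'.2 hc)).2)

end Pool.Agent.H867R3.Kn
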