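import Pool.Agent.H867R3.Kn.Stubs

set_option autoImplicit false

namespace Pool.Agent.H867R3.Kn

open Finset LaurentPolynomial Pool.Agent.H832R2.JR Function

lemma D1_coeff (j : ℕ) : ((1 + Polynomial.X ^ 4 : Polynomial ℤ) ^ j).coeff 0 = 1 ∧
    ((1 + Polynomial.X ^ 4 : Polynomial ℤ) ^ j).coeff 4 = j := by
  induction j with
  | zero => simp [Polynomial.coeff_one]
  | succ j ih =>
    rw [pow_succ, mul_add, mul_one]
    constructor
    · rw [Polynomial.coeff_add, ih.1, Polynomial.coeff_mul_X_pow']
      simp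
    · rw [Polynomial.coeff_add, ih.2, Polynomial.coeff_mul_X_pow']
      simp only [le_refl, if_true, Nat.sub_self]
      rw [ih.1]
      push_cast
      ring

theorem t_D1 : S_D1 := by
  classical
  intro N f m a hf0 hf hfS ha hsum
  -- exponents
  set e : Finset (Fin N) → ℕ := fun S => 2 * (f ∅ + S.card - f S) with he
  have hle : ∀ S, f S ≤ f ∅ + S.card := by
    intro S
    rcases S.eq_empty_or_nonempty with h | h
    · rw [h]; simp
    · have := hfS S h
      omega
  have he0 : e ∅ = 0 := by
    rw [he]; simp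
  have he4 : ∀ S : Finset (Fin N), S.Nonempty → 4 ≤ e S := by
    intro S hS
    have := hfS S hS
    rw [he]
    simp only
    omega
  set P : Polynomial ℤ := ∑ S : Finset (Fin N), Polynomial.C ((-1 : ℤ) ^ (f S - 1)) *
    (Polynomial.X ^ (e S) * (1 + Polynomial.X ^ 4) ^ (f S - 1)) with hP
  set M : ℤ := (N : ℤ) + 2 * ((f ∅ : ℤ) - 1) with hM
  -- the identity
  have hterm : ∀ S : Finset (Fin N), Polynomial.toLaurent (Polynomial.C ((-1 : ℤ) ^ (f S - 1)) *
      (Polynomial.X ^ (e S) * (1 + Polynomial.X ^ 4) ^ (f S - 1))) =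
      T M * invert (T ((N : ℤ) - 2 * S.card) * (-T 2 - T (-2)) ^ (f S - 1) : ℤ[T;T⁻¹]) := by
    intro S
    have h1 : (invert (-T 2 - T (-2) : ℤ[T;T⁻¹])) = -1 * (T (-2) * (1 + T 4)) := by
      rw [map_sub, map_neg, invert_T, invert_T]
      rw [mul_add, ← T_add]
      norm_num
      ring
    have hR : invert (T ((N : ℤ) - 2 * S.card) * (-T 2 - T (-2)) ^ (f S - 1) : ℤ[T;T⁻¹]) =
        T (-((N : ℤ) - 2 * S.card)) * (-1 * (T (-2) * (1 + T 4))) ^ (f S - 1) := by
      rw [map_mul, map_pow, h1, invert_T]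
    have hLL : Polynomial.toLaurent (Polynomial.C ((-1 : ℤ) ^ (f S - 1)) *
        (Polynomial.X ^ (e S) * (1 + Polynomial.X ^ 4) ^ (f S - 1))) =
        (-1) ^ (f S - 1) * (T ((e S : ℕ) : ℤ) * (1 + T 4) ^ (f S - 1)) := by
      simp only [map_mul, map_pow, map_add, map_one, map_neg, Polynomial.toLaurent_X, T_pow]
      norm_num
    have h2 : (e S : ℤ) = M + (-((N : ℤ) - 2 * S.card)) + ((f S - 1 : ℕ) : ℤ) * (-2) := by
      have := hle S
      have := hf S
      rw [he, hM]
      simp only
      push_cast [Nat.cast_sub (hle S), Nat.cast_sub (hf S)]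
      ring
    have h3 : (T (e S : ℤ) : ℤ[T;T⁻¹]) = T M * T (-((N : ℤ) - 2 * S.card)) *
        T (((f S - 1 : ℕ) : ℤ) * (-2)) := by
      rw [← T_add, ← T_add, h2]
    rw [hR, hLL, h3, mul_pow, mul_pow, T_pow]
    ring
  have hid : Polynomial.toLaurent P = C a * T (M - m) := by
    have h1 : T M * invert (∑ S : Finset (Fin N), T ((N : ℤ) - 2 * S.card) *
        (-T 2 - T (-2)) ^ (f S - 1) : ℤ[T;T⁻¹]) = T M * invert (C a * T m : ℤ[T;T⁻¹]) := by
      rw [hsum]
    rw [map_sum, Finset.mul_sum] at h1
    rw [hP, map_sum]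
    rw [Finset.sum_congr rfl fun S _ => hterm S, h1, map_mul, invert_T, invert_C]
    rw [mul_left_comm, ← T_add]
    rfl
  -- coefficients of `P`
  have hc0 : P.coeff 0 = (-1 : ℤ) ^ (f ∅ - 1) := by
    rw [hP, Polynomial.finsetSum_coeff, Finset.sum_eq_single ∅]
    · rw [Polynomial.coeff_C_mul, he0, pow_zero, one_mul, (D1_coeff _).1, mul_one]
    · intro S _ hS
      rw [Polynomial.coeff_C_mul, Polynomial.coeff_X_pow_mul']
      have := he4 S (nonempty_iff_ne_empty.2 hS)
      rw [if_neg (by omega), mul_zero]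
    · intro h
      exact absurd (mem_univ _) h
  have ha0 : a ≠ 0 := by
    rcases ha with h | h <;> rw [h] <;> norm_num
  have hc0' : P.coeff 0 ≠ 0 := by
    rw [hc0]
    exact pow_ne_zero _ (by norm_num)
  have hMm : M = m := by
    rcases lt_trichotomy M m with h | h | h
    · exfalso
      obtain ⟨k, hk⟩ : ∃ k : ℕ, m - M = (k : ℤ) + 1 := ⟨(m - M - 1).toNat, by omega⟩
      have h1 : Polynomial.toLaurent (P * Polynomial.X ^ (k + 1)) =
          Polynomial.toLaurent (Polynomial.C a) := by
        rw [map_mul, hid, map_pow, Polynomial.toLaurent_X, T_pow, Polynomial.toLaurent_C,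
          mul_assoc, ← T_add]
        have : M - m + ((k + 1 : ℕ) : ℤ) * 1 = 0 := by push_cast; omega
        rw [this, T_zero, mul_one]
      have h2 := Polynomial.toLaurent_injective h1
      have h3 := congrArg (fun p => Polynomial.coeff p 0) h2
      beta_reduce at h3
      rw [Polynomial.coeff_mul_X_pow', if_neg (by omega), Polynomial.coeff_C_zero] at h3
      exact ha0 h3.symm
    · exact h
    · exfalso
      obtain ⟨k, hk⟩ : ∃ k : ℕ, M - m = (k : ℤ) + 1 := ⟨(M - m - 1).toNat, by omega⟩
      have h1 : Polynomial.toLaurent P =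
          Polynomial.toLaurent (Polynomial.C a * Polynomial.X ^ (k + 1)) := by
        rw [hid, map_mul, map_pow, Polynomial.toLaurent_X, T_pow, Polynomial.toLaurent_C]
        have : M - m = ((k + 1 : ℕ) : ℤ) * 1 := by push_cast; omega
        rw [this]
      have h2 := Polynomial.toLaurent_injective h1
      have h3 := congrArg (fun p => Polynomial.coeff p 0) h2
      beta_reduce at h3
      rw [Polynomial.coeff_C_mul, Polynomial.coeff_X_pow, if_neg (by omega), mul_zero] at h3
      exact hc0' h3
  refine ⟨hMm, ?_⟩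
  have hPa : P = Polynomial.C a := by
    apply Polynomial.toLaurent_injective
    rw [hid, hMm, sub_self, T_zero, mul_one, Polynomial.toLaurent_C]
  have hc4 : P.coeff 4 = 0 := by
    rw [hPa, Polynomial.coeff_C, if_neg (by norm_num)]
  -- the fourth coefficient
  have hc4' : P.coeff 4 = (-1 : ℤ) ^ (f ∅ - 1) * ((f ∅ : ℤ) - 1) +
      ∑ S ∈ univ.filter (fun S : Finset (Fin N) => S.Nonempty ∧ f S + 2 = f ∅ + S.card),
        (-1 : ℤ) ^ (f ∅ - 1) * (-1 : ℤ) ^ S.card := by
    have hsplit : ∀ S : Finset (Fin N), (Polynomial.C ((-1 : ℤ) ^ (f S - 1)) *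
        (Polynomial.X ^ (e S) * (1 + Polynomial.X ^ 4) ^ (f S - 1))).coeff 4 =
        (if S = ∅ then (-1 : ℤ) ^ (f ∅ - 1) * ((f ∅ : ℤ) - 1) else 0) +
        (if S.Nonempty ∧ f S + 2 = f ∅ + S.card then
          (-1 : ℤ) ^ (f ∅ - 1) * (-1 : ℤ) ^ S.card else 0) := by
      intro S
      rw [Polynomial.coeff_C_mul, Polynomial.coeff_X_pow_mul']
      rcases S.eq_empty_or_nonempty with h | h
      · subst h
        rw [he0]
        simp only [Nat.zero_le, if_true, Nat.sub_zero, Finset.not_nonempty_empty, false_and,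
          if_false, add_zero]
        rw [(D1_coeff _).2, Nat.cast_sub hf0]
        push_cast
        rfl
      · rw [if_neg (nonempty_iff_ne_empty.1 h), zero_add]
        have h4 := he4 S h
        by_cases hv : f S + 2 = f ∅ + S.card
        · have hif : (if S.Nonempty ∧ f S + 2 = f ∅ + S.card then
              (-1 : ℤ) ^ (f ∅ - 1) * (-1 : ℤ) ^ S.card else 0) =
              (-1 : ℤ) ^ (f ∅ - 1) * (-1 : ℤ) ^ S.card := if_pos ⟨h, hv⟩
          rw [hif]
          have : e S = 4 := by rw [he]; simp only; omega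
          rw [this]
          simp only [le_refl, if_true, Nat.sub_self]
          rw [(D1_coeff _).1, mul_one, ← pow_add]
          have : f ∅ - 1 + S.card = (f S - 1) + 2 := by
            have := hf S
            omega
          rw [this, pow_add]
          norm_num
        · have hif : (if S.Nonempty ∧ f S + 2 = f ∅ + S.card then
              (-1 : ℤ) ^ (f ∅ - 1) * (-1 : ℤ) ^ S.card else 0) = 0 := if_neg (fun h' => hv h'.2)
          rw [hif]
          have h5 : ¬ e S ≤ 4 := by
            have := hfS S h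
            rw [he]
            simp only
            omega
          rw [if_neg h5, mul_zero]
    rw [hP, Polynomial.finsetSum_coeff, Finset.sum_congr rfl fun S _ => hsplit S,
      Finset.sum_add_distrib, Finset.sum_filter]
    simp
  rw [hc4', ← Finset.mul_sum, ← mul_add] at hc4
  rcases mul_eq_zero.1 hc4 with h | h
  · exact absurd h (pow_ne_zero _ (by norm_num))
  · exact h

end Pool.Agent.H867R3.Kn
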