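import Pool.Agent.H867R3.Kn.Stubs2

/-! D1b: the highest coefficients of a state sum (weaker bound). -/

set_option autoImplicit false

namespace Pool.Agent.H867R3.Kn

open Finset LaurentPolynomial Pool.Agent.H832R2.JR Function

theorem D1b_T (k n : ℤ) (p : ℤ[T;T⁻¹]) : (T k * p).coeff n = p.coeff (n - k) := by
  have h := AddMonoidAlgebra.coeff_single_mul_apply p (1 : ℤ) k n
  rw [one_mul] at h
  have e : (T k : ℤ[T;T⁻¹]) = AddMonoidAlgebra.single k 1 := rfl
  rw [e, h]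
  congr 1
  ring

theorem D1b_delta (j : ℕ) : ∀ n : ℤ,
    (2 * (j : ℤ) < n → ((-T 2 - T (-2)) ^ j : ℤ[T;T⁻¹]).coeff n = 0) ∧
    (n = 2 * (j : ℤ) → ((-T 2 - T (-2)) ^ j : ℤ[T;T⁻¹]).coeff n = (-1) ^ j) ∧
    (n = 2 * (j : ℤ) - 2 → ((-T 2 - T (-2)) ^ j : ℤ[T;T⁻¹]).coeff n = 0) := by
  induction j with
  | zero =>
    intro n
    have h1 : ((-T 2 - T (-2)) ^ 0 : ℤ[T;T⁻¹]) = T 0 := by rw [pow_zero, T_zero]
    rw [h1, T_apply]
    refine ⟨fun h => if_neg (by push_cast at h; omega), fun h => ?_, fun h => if_neg (by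
      push_cast at h; omega)⟩
    rw [if_pos (by push_cast at h; omega), pow_zero]
  | succ j ih =>
    intro n
    have h1 : ((-T 2 - T (-2)) ^ (j + 1) : ℤ[T;T⁻¹]) =
        -(T 2 * (-T 2 - T (-2)) ^ j) - T (-2) * (-T 2 - T (-2)) ^ j := by
      rw [pow_succ]; ring
    have h2 : ((-T 2 - T (-2)) ^ (j + 1) : ℤ[T;T⁻¹]).coeff n =
        -((-T 2 - T (-2)) ^ j : ℤ[T;T⁻¹]).coeff (n - 2) -
          ((-T 2 - T (-2)) ^ j : ℤ[T;T⁻¹]).coeff (n - (-2)) := by
      rw [h1, ← D1b_T 2 n, ← D1b_T (-2) n]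
      rfl
    rw [h2]
    push_cast
    refine ⟨fun h => ?_, fun h => ?_, fun h => ?_⟩
    · rw [(ih (n - 2)).1 (by omega), (ih (n - (-2))).1 (by omega)]; simp
    · rw [(ih (n - 2)).2.1 (by omega), (ih (n - (-2))).1 (by omega), pow_succ]; ring
    · rw [(ih (n - 2)).2.2 (by omega), (ih (n - (-2))).1 (by omega)]; simp

theorem D1b_sum {ι : Type} (s : Finset ι) (F : ι → ℤ[T;T⁻¹]) (n : ℤ) :
    (∑ i ∈ s, F i).coeff n = ∑ i ∈ s, (F i).coeff n := by
  rw [AddMonoidAlgebra.coeff_sum, Finsupp.finsetSum_apply]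

theorem D1b_C (a m n : ℤ) : (C a * T m : ℤ[T;T⁻¹]).coeff n = if n = m then a else 0 := by
  have e : (C a * T m : ℤ[T;T⁻¹]) = AddMonoidAlgebra.single m a := (single_eq_C_mul_T a m).symm
  rw [e, AddMonoidAlgebra.coeff_single, Finsupp.single_apply]
  by_cases h : n = m
  · rw [if_pos h, if_pos h.symm]
  · rw [if_neg h, if_neg (Ne.symm h)]

theorem t_D1b : S_D1b := by
  classical
  intro N f m a hf0 hf1 hfS ha hsum
  set F : Finset (Fin N) → ℤ[T;T⁻¹] := fun S =>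
    T ((N : ℤ) - 2 * S.card) * (-T 2 - T (-2)) ^ (f S - 1) with hF
  set M : ℤ := (N : ℤ) + 2 * ((f ∅ : ℤ) - 1) with hM
  have hco : ∀ n : ℤ, ∑ S : Finset (Fin N), (F S).coeff n = if n = m then a else 0 := by
    intro n
    rw [← D1b_C a m n, ← hsum, D1b_sum]
  have hFc : ∀ (S : Finset (Fin N)) (n : ℤ), (F S).coeff n =
      ((-T 2 - T (-2)) ^ (f S - 1) : ℤ[T;T⁻¹]).coeff (n - ((N : ℤ) - 2 * S.card)) := by
    intro S n
    exact D1b_T _ _ _
  have hcast : ∀ S : Finset (Fin N), ((f S - 1 : ℕ) : ℤ) = (f S : ℤ) - 1 := by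
    intro S
    have := hf1 S
    omega
  have hne : ∀ S : Finset (Fin N), S ≠ ∅ → (f S : ℤ) + 1 ≤ (f ∅ : ℤ) + S.card := by
    intro S hS
    exact_mod_cast hfS S (Finset.nonempty_iff_ne_empty.2 hS)
  -- coefficient at M
  have hM0 : (F ∅).coeff M = (-1) ^ (f ∅ - 1) := by
    rw [hFc]
    refine (D1b_delta (f ∅ - 1) _).2.1 ?_
    rw [hcast, hM]
    simp
  have hM1 : ∀ S : Finset (Fin N), S ≠ ∅ → (F S).coeff M = 0 := by
    intro S hS
    rw [hFc]
    refine (D1b_delta (f S - 1) _).1 ?_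
    have := hne S hS
    rw [hcast, hM]
    omega
  have hmM : M = m := by
    by_contra hne'
    have h1 := hco M
    rw [if_neg hne', Finset.sum_eq_single_of_mem ∅ (Finset.mem_univ _) (fun S _ hS => hM1 S hS),
      hM0] at h1
    exact pow_ne_zero _ (by norm_num : (-1 : ℤ) ≠ 0) h1
  refine ⟨hmM, ?_⟩
  -- coefficient at M - 2
  have h2 := hco (M - 2)
  rw [if_neg (by omega)] at h2
  have h3 : ∀ S : Finset (Fin N), (F S).coeff (M - 2) =
      if (S.Nonempty ∧ f S + 1 = f ∅ + S.card) then (-1) ^ f ∅ * (-1 : ℤ) ^ S.card else 0 := by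
    intro S
    by_cases hS : S = ∅
    · subst hS
      rw [if_neg (by simp), hFc]
      refine (D1b_delta (f ∅ - 1) _).2.2 ?_
      rw [hcast, hM, Finset.card_empty]
      push_cast
      ring
    · have h4 := hne S hS
      by_cases h5 : f S + 1 = f ∅ + S.card
      · rw [if_pos ⟨Finset.nonempty_iff_ne_empty.2 hS, h5⟩, hFc]
        have h6 : f S - 1 + 2 = f ∅ + S.card := by
          have := hf1 S
          omega
        rw [(D1b_delta (f S - 1) _).2.1 (by rw [hcast, hM]; omega), ← pow_add, ← h6, pow_add]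
        norm_num
      · rw [if_neg (fun h => h5 h.2), hFc]
        refine (D1b_delta (f S - 1) _).1 ?_
        rw [hcast, hM]
        have h7 : (f S : ℤ) + 1 ≠ (f ∅ : ℤ) + S.card := by exact_mod_cast h5
        omega
  rw [Finset.sum_congr rfl (fun S _ => h3 S), ← Finset.sum_filter, ← Finset.mul_sum] at h2
  rcases mul_eq_zero.1 h2 with h8 | h8
  · exact absurd h8 (pow_ne_zero _ (by norm_num))
  · exact h8

end Pool.Agent.H867R3.Kn
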