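import Pool.Agent.H867R3.Kn.Stubs

set_option autoImplicit false

namespace Pool.Agent.H867R3.Kn

open Finset LaurentPolynomial Pool.Agent.H832R2.JR

theorem D2_flip_bij {N : ℕ} (w : Fin N → Bool) :
    Function.Bijective (fun S : Finset (Fin N) => flip w S) := by
  classical
  constructor
  · intro S S' h
    ext c
    have hc := congrFun h c
    simp only [flip] at hc
    by_cases h1 : c ∈ S <;> by_cases h2 : c ∈ S'
    · exact iff_of_true h1 h2
    · rw [if_pos h1, if_neg h2] at hc
      exact absurd hc (by cases w c <;> decide)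
    · rw [if_neg h1, if_pos h2] at hc
      exact absurd hc (by cases w c <;> decide)
    · exact iff_of_false h1 h2
  · intro s
    refine ⟨univ.filter (fun c => s c ≠ w c), ?_⟩
    funext c
    simp only [flip, Finset.mem_filter, Finset.mem_univ, true_and]
    by_cases h : s c = w c
    · rw [if_neg (by simp [h]), h]
    · rw [if_pos h]
      revert h
      cases s c <;> cases w c <;> decide

theorem D2_weight {N : ℕ} (w : Fin N → Bool) (S : Finset (Fin N)) :
    weight w (flip w S) = (N : ℤ) - 2 * S.card := by
  classical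
  have h : ∀ c, sgn (w c) * sgn (flip w S c) = 1 - 2 * (if c ∈ S then (1 : ℤ) else 0) := by
    intro c
    by_cases hc : c ∈ S
    · simp only [flip, if_pos hc]
      cases w c <;> decide
    · simp only [flip, if_neg hc]
      cases w c <;> decide
  unfold weight
  rw [Finset.sum_congr rfl (fun c _ => h c), Finset.sum_sub_distrib, ← Finset.mul_sum,
    Finset.sum_ite_mem]
  simp

theorem t_D2 (hA1 : S_A1) : S_D2 := by
  classical
  intro N G w hk
  refine ⟨if Even (writhe w) then 1 else -1, by split_ifs <;> simp, ?_⟩
  have hsum : (∑ S : Finset (Fin N), T ((N : ℤ) - 2 * S.card) *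
      (-T 2 - T (-2)) ^ (ell G w S - 1) : ℤ[T;T⁻¹]) = kBracket G w := by
    unfold kBracket
    rw [← (D2_flip_bij w).sum_comp (fun s : Fin N → Bool =>
      (T (weight w s) * (-T 2 - T (-2)) ^ (comps G s - 1) : ℤ[T;T⁻¹]))]
    refine Finset.sum_congr rfl (fun S _ => ?_)
    rw [D2_weight, (hA1 N G (flip w S)).2]
    rfl
  rw [hsum]
  unfold kPoly at hk
  have hTT : (T (3 * writhe w) * T (-3 * writhe w) : ℤ[T;T⁻¹]) = 1 := by
    rw [← T_add, show 3 * writhe w + -3 * writhe w = 0 by ring, T_zero]
  by_cases he : Even (writhe w)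
  · rw [if_pos he] at hk ⊢
    calc kBracket G w = (T (3 * writhe w) * T (-3 * writhe w)) * kBracket G w := by
          rw [hTT, one_mul]
      _ = T (3 * writhe w) * (1 * T (-3 * writhe w) * kBracket G w) := by ring
      _ = C 1 * T (3 * writhe w) := by rw [hk, map_one]; ring
  · rw [if_neg he] at hk ⊢
    calc kBracket G w = (T (3 * writhe w) * T (-3 * writhe w)) * kBracket G w := by
          rw [hTT, one_mul]
      _ = -T (3 * writhe w) * (-1 * T (-3 * writhe w) * kBracket G w) := by ring
      _ = C (-1) * T (3 * writhe w) := by rw [hk, map_neg, map_one]; ring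

end Pool.Agent.H867R3.Kn
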