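import Pool.Agent.H832R2.JR.Values

/-!
# Knotoid diagrams in the sphere and their normalised bracket polynomial

A knotoid diagram with `N` crossings is described in the following way.  Number the crossings and
travel once along the diagram from the tail to the head.  Every crossing is passed twice;
`(c, false)` and `(c, true)` denote the two passages of the crossing `c` (numbered in an arbitrary
way).  The *Gauss word* `G : Fin N × Bool ≃ Fin (2 * N)` gives for every passage its place in the
sequence of all `2 N` passages.  The half edge `((c, b), false)` enters the crossing `c` at its
passage `(c, b)`, and `((c, b), true)` leaves it.  The *flat sign* `ε c` tells on which side the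
passage `(c, true)` crosses the passage `(c, false)`: from left to right (`true`) or from right to
left (`false`).  `G` and `ε` determine the shadow of the diagram together with the surface which
is obtained by gluing discs (the regions) to a ribbon neighbourhood of the shadow.  The signs of
the crossings are given by `w : Fin N → Bool` (`true`: positive); for a given shadow the two
choices of the overstrand at a crossing have different signs, so that the `2 ^ N` functions `w`
describe all choices of the crossings.
-/

set_option autoImplicit false

namespace Pool.Agent.H867R3.Kn

open Finset LaurentPolynomial Pool.Agent.H832R2.JR

variable {N : ℕ}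

/-- The half edge following `h` counterclockwise around its crossing.  The cyclic order is: the
entering half edge of the passage `false`, then the half edge of the passage `true` on its right,
the leaving half edge of the passage `false`, and the half edge of the passage `true` on its
left. -/
def rot (ε : Fin N → Bool) : Half N → Half N
  | ((c, false), e) => ((c, true), xor e (ε c))
  | ((c, true), e) => ((c, false), !(xor e (ε c)))

/-- **The diagram lies on the sphere.**  `u` is a set of edges of the shadow which has an even
number of half edges at every crossing (the two end edges, which contain the tail and the head, do
not belong to it); then there is a colouring of the regions in two colours such that the colour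
changes exactly across the edges of `u`.  Here `κ h` is the colour of the region which is adjacent
to the corner between `h` and `rot ε h`; the corners of `(p, true)` and of `(q, false)` lie on the
two sides of the edge from the passage `p` to the following passage `q`.  (That is: the first
homology with coefficients modulo 2 of the closed surface given by the shadow vanishes.) -/
def Spherical (G : GaussWord N) (ε : Fin N → Bool) : Prop :=
  ∀ u : Half N → Bool,
    (∀ p q, (G q : ℕ) = G p + 1 → u (p, true) = u (q, false)) →
    (∀ p, (G p : ℕ) = 0 → u (p, false) = false) →
    (∀ p, (G p : ℕ) + 1 = 2 * N → u (p, true) = false) →
    (∀ c, xor (xor (u ((c, false), false)) (u ((c, false), true)))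
      (xor (u ((c, true), false)) (u ((c, true), true))) = false) →
    ∃ κ : Half N → Bool,
      (∀ h, κ (rot ε h) = xor (κ h) (u (rot ε h))) ∧
      (∀ p q, (G q : ℕ) = G p + 1 → κ (q, false) = xor (κ (p, true)) (u (p, true)))

/-- Two half edges are joined in the state `s` (`s c = true`: the crossing `c` is smoothed in the
oriented way, `s c = false`: it is smoothed in the unoriented way): the beginning of an edge is
joined with its end; an oriented smoothing joins the strand entering at one passage with the strand
leaving at the other one; an unoriented smoothing joins the two entering strands and the two
leaving strands. -/
def KJoined (G : GaussWord N) (s : Fin N → Bool) (x y : Half N) : Prop :=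
  (∃ p q, (G q : ℕ) = G p + 1 ∧ x = (p, true) ∧ y = (q, false)) ∨
  (∃ c b, s c = true ∧ x = ((c, b), false) ∧ y = ((c, !b), true)) ∨
  (∃ c e, s c = false ∧ x = ((c, false), e) ∧ y = ((c, true), e))

/-- the number of components (the interval and the circles) of the state `s` of a diagram with
at least one crossing -/
noncomputable def comps (G : GaussWord N) (s : Fin N → Bool) : ℕ := Nat.card (Quot (KJoined G s))

/-- the bracket polynomial (a Laurent polynomial in `A = T 1`).  The oriented smoothing is of type
`A` exactly at the positive crossings; `weight w s` is the number of smoothings of type `A` minus
the number of smoothings of type `B` in the state `s`. -/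
noncomputable def kBracket (G : GaussWord N) (w : Fin N → Bool) : ℤ[T;T⁻¹] :=
  ∑ s : Fin N → Bool, T (weight w s) * (-T 2 - T (-2)) ^ (comps G s - 1)

/-- the normalised bracket polynomial `f = (-A^3)^(-writhe) ⟨K⟩` -/
noncomputable def kPoly (G : GaussWord N) (w : Fin N → Bool) : ℤ[T;T⁻¹] :=
  (if Even (writhe w) then 1 else -1) * T (-3 * writhe w) * kBracket G w

/-- In the state `s` no component meets itself at a crossing: the two arcs which replace a crossing
(one of them contains the half edge `((c, false), false)`, the other one contains
`((c, false), true)`) belong to different components. -/
def Adequate (G : GaussWord N) (s : Fin N → Bool) : Prop :=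
  ∀ c, Quot.mk (KJoined G s) ((c, false), false) ≠ Quot.mk (KJoined G s) ((c, false), true)

/-- The diagram is reduced to the diagram without crossings by removing kinks (Reidemeister moves
of type I), in the order given by `σ`: after the removal of the crossings before `i`, the two
passages of `i` follow each other immediately, as every other passage between them has already been
removed. -/
def UntiedByKinks (G : GaussWord N) : Prop :=
  ∃ σ : Fin N ≃ Fin N, ∀ i j, σ i < σ j → ∀ b, ¬ Btw (G (i, false)) (G (i, true)) (G (j, b))

/-! ## Auxiliary notions: the closed diagram -/

/-- the class of a half edge in the state `t` of the closed (virtual) diagram; `t c = 0`: pass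
through, `1`: oriented smoothing, `2`: unoriented smoothing -/
def cls (G : GaussWord N) (t : Fin N → Fin 3) (x : Half N) :
    Quot (gen (arcFun G) (smooth t)) := Quot.mk _ x

/-- the state `s` in the notation of `smooth` -/
def st (s : Fin N → Bool) : Fin N → Fin 3 := fun c => if s c then 1 else 2

/-- the state `s` changed at the crossings in `S` -/
def flip (s : Fin N → Bool) (S : Finset (Fin N)) : Fin N → Bool :=
  fun c => if c ∈ S then !s c else s c

/-- number of closed curves of the state `w` changed at `S` -/
noncomputable def ell (G : GaussWord N) (w : Fin N → Bool) (S : Finset (Fin N)) : ℕ :=
  L G (st (flip w S))

/-- `o` is an orientation of the closed curves of the state `t` (`true`: leaving the crossing) -/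
def Ori (G : GaussWord N) (t : Fin N → Fin 3) (o : Half N → Bool) : Prop :=
  (∀ x, o (arcFun G x) = !o x) ∧ ∀ x, o (smooth t x) = !o x

/-- the two arcs at every crossing belong to different curves of the state `w` -/
def Adq (G : GaussWord N) (w : Fin N → Bool) : Prop :=
  ∀ c, cls G (st w) ((c, false), false) ≠ cls G (st w) ((c, false), true)

/-- the unordered pair of curves at a crossing and the relation of their orientations -/
def key (G : GaussWord N) (w : Fin N → Bool) (o : Half N → Bool) (c : Fin N) :
    Sym2 (Quot (gen (arcFun G) (smooth (st w)))) × Bool :=
  (s(cls G (st w) ((c, false), false), cls G (st w) ((c, false), true)),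
    xor (o ((c, false), false)) (o ((c, false), true)))

end Pool.Agent.H867R3.Kn
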