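import Pool.Agent.H867R3.Kn.Stubs

set_option autoImplicit false

namespace Pool.Agent.H867R3.Kn

open Finset LaurentPolynomial Pool.Agent.H832R2.JR Function

theorem t_E1 : S_E1 := by
  intro N G w σ hσ X Y
  set f : Half N → Bool := fun x => σ (cls G (st w) x) with hf
  have harc : ∀ x, f (arcFun G x) = f x := by
    intro x
    have : cls G (st w) x = cls G (st w) (arcFun G x) := Quot.sound (Or.inl rfl)
    simp only [hf, this]
  have hsm : ∀ x, f (smooth (st w) x) = f x := by
    intro x
    have : cls G (st w) x = cls G (st w) (smooth (st w) x) := Quot.sound (Or.inr rfl)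
    simp only [hf, this]
  have h0 : ∀ c, f ((c, false), false) = f ((c, false), true) := hσ
  have h1 : ∀ c b e, f ((c, b), e) = f ((c, false), false) := by
    intro c b e
    have a1 := hsm ((c, false), false)
    have a2 := hsm ((c, false), true)
    cases hw : w c
    · have hst : st w c = 2 := by simp [st, hw]
      simp only [smooth, hst] at a1 a2
      simp at a1 a2
      cases b <;> cases e <;> simp [a1, a2, h0]
    · have hst : st w c = 1 := by simp [st, hw]
      simp only [smooth, hst] at a1 a2
      simp at a1 a2
      cases b <;> cases e <;> simp [a1, a2, h0]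
  have hn : ∀ p, f (next G p, false) = f (p, true) := fun p => harc (p, true)
  have hp : ∀ p : Fin N × Bool, f (p, true) = f (p, false) := by
    rintro ⟨c, b⟩
    rw [h1 c b true, h1 c b false]
  have key : ∀ (k : ℕ) (p q : Fin N × Bool), (G p : ℕ) = k → (G q : ℕ) = 0 →
      f (p, false) = f (q, false) := by
    intro k
    induction k with
    | zero =>
      intro p q h1 h2
      have : p = q := G.injective (Fin.ext (h1.trans h2.symm))
      rw [this]
    | succ k ih =>
      intro p q h1 h2
      have hk : k < 2 * N := by have := (G p).2; omega
      set p' := G.symm ⟨k, hk⟩ with hp'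
      have hGp' : (G p' : ℕ) = k := by rw [hp', Equiv.apply_symm_apply]
      have hnext : next G p' = p := by
        apply G.injective
        apply Fin.ext
        rw [next_val, hGp', h1, if_neg]
        have := (G p).2; omega
      rw [← hnext, hn, hp]
      exact ih p' q hGp' h2
  have hall : ∀ x y : Half N, f x = f y := by
    have hfalse : ∀ p q : Fin N × Bool, f (p, false) = f (q, false) := by
      intro p q
      have hN : 0 < 2 * N := by have := (G p).2; omega
      have h0' : (G (G.symm ⟨0, hN⟩) : ℕ) = 0 := by rw [Equiv.apply_symm_apply]
      rw [key _ p _ rfl h0', key _ q _ rfl h0']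
    have hx : ∀ x : Half N, f x = f (x.1, false) := by
      rintro ⟨p, _ | _⟩
      · rfl
      · exact hp p
    intro x y
    rw [hx x, hx y]
    exact hfalse _ _
  induction X using Quot.ind with
  | mk x =>
    induction Y using Quot.ind with
    | mk y => exact hall x y

end Pool.Agent.H867R3.Kn
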