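import Pool.Agent.H867R3.Kn.Stubs

/-!
# E2: if there are as few classes as possible, there is a coherent orientation
-/

set_option autoImplicit false

namespace Pool.Agent.H867R3.Kn

open Finset Pool.Agent.H832R2.JR

/-- the relation of the values of `σ` on the two elements of `z` -/
def E2_rel {Q : Type} (σ : Q → Bool) : Sym2 Q → Bool :=
  Sym2.lift ⟨fun X Y => xor (σ X) (σ Y), fun _ _ => Bool.xor_comm _ _⟩

theorem E2_rel_mk {Q : Type} (σ : Q → Bool) (X Y : Q) :
    E2_rel σ s(X, Y) = xor (σ X) (σ Y) := by
  unfold E2_rel
  rw [Sym2.lift_mk]

/-- a map with fibres of at most two elements from a set with `2 ^ (k + 1)` elements to a set with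
`2 ^ k` elements is surjective -/
theorem E2_surj {A B : Type} [Fintype A] [Fintype B] [DecidableEq A] [DecidableEq B]
    (f : A → B) (g : A → A) (h : ∀ a b, f a = f b → b = a ∨ b = g a)
    (hc : Fintype.card A = 2 * Fintype.card B) : Function.Surjective f := by
  have h1 : (univ : Finset A).card ≤ 2 * ((univ : Finset A).image f).card := by
    apply Finset.card_le_mul_card_image
    intro b hb
    rw [Finset.mem_image] at hb
    obtain ⟨a, -, rfl⟩ := hb
    calc (univ.filter fun x => f x = f a).card ≤ ({a, g a} : Finset A).card := by
          apply Finset.card_le_card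
          intro x hx
          rw [Finset.mem_filter] at hx
          rw [Finset.mem_insert, Finset.mem_singleton]
          exact h a x hx.2.symm
      _ ≤ 2 := Finset.card_le_two
  rw [Finset.card_univ, hc] at h1
  have h2 : (univ : Finset A).image f = univ := by
    apply Finset.eq_univ_of_card
    apply le_antisymm (Finset.card_le_univ _)
    omega
  intro b
  have := Finset.mem_univ b
  rw [← h2, Finset.mem_image] at this
  obtain ⟨a, -, ha⟩ := this
  exact ⟨a, ha⟩

theorem t_E2 (hE1 : S_E1) : S_E2 := by
  classical
  intro N G w o hN ho hcard
  have hfl : flip w ∅ = w := by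
    funext c
    simp [flip]
  have hE := hE1 N G w
  unfold ell L at hcard
  rw [hfl] at hcard
  have hQfin : Finite (Quot (gen (arcFun G) (smooth (st w)))) := Quot.finite _
  have hQ : Fintype (Quot (gen (arcFun G) (smooth (st w)))) := Fintype.ofFinite _
  have hKfin : (Set.range (key G w o)).Finite := Set.finite_range _
  have hK : Fintype (Set.range (key G w o)) := hKfin.fintype
  rw [Set.ncard_eq_toFinset_card', Set.toFinset_card, Nat.card_eq_fintype_card] at hcard
  let Φ : (Quot (gen (arcFun G) (smooth (st w))) → Bool) → (Set.range (key G w o) → Bool) := fun σ k => E2_rel σ k.1.1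
  have hsurj : Function.Surjective Φ := by
    apply E2_surj Φ (fun σ q => !σ q)
    · intro σ σ' hΦ
      have hτ := hE (fun q => xor (σ q) (σ' q)) (by
        intro c
        have h1 := congrFun hΦ ⟨key G w o c, c, rfl⟩
        simp only [Φ, key] at h1
        rw [E2_rel_mk, E2_rel_mk] at h1
        revert h1
        generalize σ (cls G (st w) ((c, false), false)) = a
        generalize σ' (cls G (st w) ((c, false), false)) = b
        generalize σ (cls G (st w) ((c, false), true)) = a'
        generalize σ' (cls G (st w) ((c, false), true)) = b'
        revert a b a' b'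
        decide)
      by_cases hq : ∃ q, xor (σ q) (σ' q) = true
      · right
        obtain ⟨q, hq⟩ := hq
        funext q'
        have h2 := hτ q' q
        beta_reduce at h2
        rw [hq] at h2
        revert h2
        generalize σ q' = a
        generalize σ' q' = b
        revert a b
        decide
      · left
        funext q'
        have h2 : ¬ (xor (σ q') (σ' q') = true) := fun h => hq ⟨q', h⟩
        revert h2
        generalize σ q' = a
        generalize σ' q' = b
        revert a b
        decide
    · rw [Fintype.card_fun, Fintype.card_fun, Fintype.card_bool, ← hcard, pow_succ]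
      ring
  obtain ⟨σ, hσ⟩ := hsurj (fun k => !k.1.2)
  refine ⟨fun h => xor (o h) (σ (cls G (st w) h)), ⟨?_, ?_⟩, ?_⟩
  · intro x
    have h1 : cls G (st w) (arcFun G x) = cls G (st w) x := by
      symm
      unfold cls
      exact Quot.sound (show gen (arcFun G) (smooth (st w)) x (arcFun G x) from Or.inl rfl)
    simp only [h1, ho.1 x]
    generalize o x = a
    generalize σ (cls G (st w) x) = b
    revert a b
    decide
  · intro x
    have h1 : cls G (st w) (smooth (st w) x) = cls G (st w) x := by
      symm
      unfold cls
      exact Quot.sound (show gen (arcFun G) (smooth (st w)) x (smooth (st w) x) from Or.inr rfl)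
    simp only [h1, ho.2 x]
    generalize o x = a
    generalize σ (cls G (st w) x) = b
    revert a b
    decide
  · intro c
    have h1 := congrFun hσ ⟨key G w o c, c, rfl⟩
    simp only [Φ, key] at h1
    rw [E2_rel_mk] at h1
    revert h1
    simp only
    generalize σ (cls G (st w) ((c, false), false)) = a
    generalize σ (cls G (st w) ((c, false), true)) = b
    generalize o ((c, false), false) = a'
    generalize o ((c, false), true) = b'
    revert a b a' b'
    decide

end Pool.Agent.H867R3.Kn
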