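import Pool.Agent.H867R3.Kn.Stubs

/-! E3: a coherent orientation is the orientation of the diagram. -/

set_option autoImplicit false

namespace Pool.Agent.H867R3.Kn

open Finset LaurentPolynomial Pool.Agent.H832R2.JR Function

theorem E3_const {N : ℕ} (G : GaussWord N) (φ : Fin N × Bool → Bool)
    (h : ∀ p, φ (next G p) = φ p) (p q : Fin N × Bool) : φ p = φ q := by
  have key : ∀ (n : ℕ) (hn : n < 2 * N) (h0 : 0 < 2 * N),
      φ (G.symm ⟨n, hn⟩) = φ (G.symm ⟨0, h0⟩) := by
    intro n
    induction n with
    | zero => intro _ _; rfl
    | succ n ih =>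
      intro hn h0
      rw [← ih (by omega) h0, ← h (G.symm ⟨n, by omega⟩)]
      congr 1
      apply G.injective
      apply Fin.ext
      rw [next_val]
      simp only [Equiv.apply_symm_apply]
      rw [if_neg (by omega)]
  have hp : G.symm (G p) = p := Equiv.symm_apply_apply _ _
  have hq : G.symm (G q) = q := Equiv.symm_apply_apply _ _
  have h0 : 0 < 2 * N := lt_of_le_of_lt (Nat.zero_le _) (G p).2
  rw [← hp, ← hq]
  exact (key _ (G p).2 h0).trans (key _ (G q).2 h0).symm

/-- E3 -/
theorem t_E3 : S_E3 := by
  intro N G w o ho hc c
  obtain ⟨h1, h2⟩ := ho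
  -- at every passage the orientation passes through
  have hpass : ∀ p : Fin N × Bool, o (p, false) = !o (p, true) := by
    rintro ⟨d, b⟩
    have e1 := h2 ((d, false), false)
    have e2 := h2 ((d, false), true)
    have e3 := hc d
    cases b with
    | false => exact e3
    | true =>
      by_cases hw : w d = true
      · simp only [smooth, st, hw, if_true, Bool.not_false, Bool.not_true] at e1 e2
        rw [if_neg (by decide)] at e1 e2
        rw [e1, e2, e3]
        simp
      · simp only [smooth, st, hw, Bool.not_false] at e1 e2
        simp at e1 e2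
        rw [e1, e2, e3]
  have hnext : ∀ p, o (next G p, true) = o (p, true) := by
    intro p
    have e := h1 (p, true)
    simp only [arcFun] at e
    have e' := hpass (next G p)
    rw [e] at e'
    cases hx : o (next G p, true) <;> cases hy : o (p, true) <;> simp_all
  have hconst := E3_const G (fun p => o (p, true)) hnext (c, false) (c, true)
  by_contra hw
  have e1 := h2 ((c, false), false)
  simp only [smooth, st, hw, Bool.not_false] at e1
  simp at e1
  rw [hpass (c, true), hpass (c, false), hconst] at e1
  simp at e1

end Pool.Agent.H867R3.Kn
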