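import Pool.Agent.H867R3.Kn.Stubs

/-!
# F1: if the oriented smoothing of all crossings gives `N + 1` curves, no two chords cross
-/

set_option autoImplicit false

namespace Pool.Agent.H867R3.Kn

open Finset Function Pool.Agent.H832R2.JR

variable {N : ℕ}

theorem F1_step (G : GaussWord N) (t : Fin N → Fin 3) (c : Fin N) :
    L G (update t c 1) ≤ L G (update t c 0) + 1 := by
  obtain ⟨n, h⟩ := three_term G t c
  omega

/-- one oriented smoothing gives two curves -/
theorem F1_one (G : GaussWord N) (i : Fin N) : L G (update (fun _ => 0) i 1) = 2 := by
  have h0 : L G (update (fun _ => 0) i 0) = 1 := by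
    rw [update_eq_self_iff.2 rfl]
    exact L_zero G i
  have h2 : L G (update (fun _ => 0) i 2) = 1 := L_one G i
  obtain ⟨n, h⟩ := three_term G (fun _ => 0) i
  have p1 := one_le_L G (update (fun _ => 0) i 1) i
  have h1 : 2 ≤ L G (update (fun _ => 0) i 1) := by
    refine two_le_L G _ (chi G i) (chi_arc G i) ?_ ((i, false), false) ((i, false), true) ?_
    · rintro ⟨⟨c, b⟩, e⟩
      by_cases hc : c = i
      · subst hc
        simp only [smooth, update_self]
        simpa using chi_self_or G c b e
      · simp only [smooth, update_of_ne hc]
        simpa using chi_pass G i c hc b e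
    · have := chi_self_pass G i false true
      simp only [Bool.not_true] at this
      rw [this]
      simp
  omega

/-- the oriented smoothing of two crossing chords gives one curve -/
theorem F1_two (G : GaussWord N) (i j : Fin N) (hij : i ≠ j) (hc : Crosses G i j) :
    L G (update (update (fun _ => 0) j 1) i 1) = 1 := by
  have h22 := (L_two G i j hij).1 hc
  -- the value at `(2, 1)`
  have h21 : L G (update (update (fun _ => 0) i 2) j 1) = 1 := by
    have h20 : L G (update (update (fun _ => 0) i 2) j 0) = 1 := by
      rw [update_eq_self_iff.2]
      · exact L_one G i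
      · rw [update_of_ne hij.symm]
    obtain ⟨n, h⟩ := three_term G (update (fun _ => 0) i 2) j
    omega
  rw [update_comm hij] at h21
  have h01 : L G (update (update (fun _ => 0) j 1) i 0) = 2 := by
    rw [update_eq_self_iff.2]
    · exact F1_one G j
    · rw [update_of_ne hij]
  obtain ⟨n, h⟩ := three_term G (update (fun _ => 0) j 1) i
  omega

theorem F1_ind (G : GaussWord N) (i j : Fin N) (hij : i ≠ j) (hc : Crosses G i j)
    (S : Finset (Fin N)) :
    L G (fun c => if c = i ∨ c = j ∨ c ∈ S then 1 else 0) ≤ 1 + S.card := by
  classical
  induction S using Finset.induction_on with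
  | empty =>
    have e : (fun c : Fin N => if c = i ∨ c = j ∨ c ∈ (∅ : Finset (Fin N)) then (1 : Fin 3)
        else 0) = update (update (fun _ => 0) j 1) i 1 := by
      funext c
      by_cases h1 : c = i
      · subst h1; simp
      · by_cases h2 : c = j
        · subst h2; simp [update_of_ne h1]
        · simp [update_of_ne h1, update_of_ne h2, h1, h2]
    rw [e, F1_two G i j hij hc]
    omega
  | insert a S ha ih =>
    rw [card_insert_of_notMem ha]
    by_cases h : a = i ∨ a = j
    · have e : (fun c : Fin N => if c = i ∨ c = j ∨ c ∈ insert a S then (1 : Fin 3) else 0) =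
          fun c => if c = i ∨ c = j ∨ c ∈ S then 1 else 0 := by
        funext c
        have : (c = i ∨ c = j ∨ c ∈ insert a S) ↔ (c = i ∨ c = j ∨ c ∈ S) := by
          rw [mem_insert]
          constructor
          · rintro (h1 | h1 | h1 | h1)
            · exact Or.inl h1
            · exact Or.inr (Or.inl h1)
            · subst h1; tauto
            · exact Or.inr (Or.inr h1)
          · tauto
        simp only [this]
      rw [e]
      omega
    · push Not at h
      set f : Fin N → Fin 3 := fun c => if c = i ∨ c = j ∨ c ∈ S then 1 else 0 with hf
      have e1 : (fun c : Fin N => if c = i ∨ c = j ∨ c ∈ insert a S then (1 : Fin 3) else 0) =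
          update f a 1 := by
        funext c
        by_cases hca : c = a
        · subst hca; simp
        · rw [update_of_ne hca, hf]
          simp [mem_insert, hca]
      have e0 : update f a 0 = f := by
        rw [update_eq_self_iff, hf]
        simp [h.1, h.2, ha]
      have := F1_step G f a
      rw [e0] at this
      rw [e1]
      omega

theorem t_F1 : S_F1 := by
  classical
  intro N G hL i j hc
  have hij : i ≠ j := by
    rintro rfl
    exact not_crosses_self G i hc
  have h1 := F1_ind G i j hij hc ((univ.erase i).erase j)
  have e : (fun c : Fin N => if c = i ∨ c = j ∨ c ∈ (univ.erase i).erase j then (1 : Fin 3)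
      else 0) = fun _ => 1 := by
    funext c
    rw [if_pos]
    by_cases h1 : c = i
    · exact Or.inl h1
    · by_cases h2 : c = j
      · exact Or.inr (Or.inl h2)
      · exact Or.inr (Or.inr (by simp [h1, h2]))
  rw [e, hL, card_erase_of_mem (by simp [hij.symm]), card_erase_of_mem (mem_univ _), card_univ,
    Fintype.card_fin] at h1
  have : 0 < N := by have := i.2; omega
  omega

end Pool.Agent.H867R3.Kn
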