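import Pool.Agent.H867R3.Kn.Stubs

/-!
# F2: a Gauss word without crossing chords is untied by removing kinks
-/

set_option autoImplicit false

namespace Pool.Agent.H867R3.Kn

open Pool.Agent.H832R2.JR

/-- the (natural) distance of the two passages of the crossing `i` -/
def F2_len {N : ℕ} (G : GaussWord N) (i : Fin N) : ℕ :=
  ((G (i, false) : ℕ) - G (i, true)) + ((G (i, true) : ℕ) - G (i, false))

theorem F2_len_lt {N : ℕ} (G : GaussWord N) (hG : ∀ i j, ¬ Crosses G i j) {i j : Fin N} {b : Bool}
    (h : Btw (G (i, false)) (G (i, true)) (G (j, b))) : F2_len G j < F2_len G i := by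
  have hc := hG i j
  unfold Crosses at hc
  rw [not_not] at hc
  have h1 : Btw (G (i, false)) (G (i, true)) (G (j, false)) := by
    cases b
    · exact h
    · exact hc.mpr h
  have h2 := hc.mp h1
  unfold Pool.Agent.H832R2.JR.Btw at h1 h2
  unfold F2_len
  omega

theorem t_F2 : S_F2 := by
  intro N G hG
  refine ⟨(Tuple.sort (F2_len G)).symm, ?_⟩
  intro i j hij b hb
  have hlt := F2_len_lt G hG hb
  have hm := Tuple.monotone_sort (F2_len G)
  have h := hm hij.le
  simp only [Function.comp_apply, Equiv.apply_symm_apply] at h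
  omega

end Pool.Agent.H867R3.Kn
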