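import Pool.Agent.H867R3.Kn.Stubs2

/-! Task G0: in the oriented state no change increases the number of curves (helper819). -/

set_option autoImplicit false

namespace Pool.Agent.H867R3.Kn

open Finset LaurentPolynomial Pool.Agent.H832R2.JR Function

/-- states without unoriented smoothings are oriented by the orientation of the diagram -/
theorem G0_ori {N : ℕ} (G : GaussWord N) (t : Fin N → Fin 3) (h : ∀ c, t c ≠ 2) :
    Ori G t (fun x => x.2) := by
  constructor
  · rintro ⟨p, _ | _⟩ <;> rfl
  · intro x
    have hx := h x.1.1
    unfold smooth
    by_cases h0 : t x.1.1 = 0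
    · rw [if_pos h0]
    · rw [if_neg h0]
      have h1 : t x.1.1 = 1 := by
        generalize t x.1.1 = a at hx h0
        fin_cases a
        · exact absurd rfl h0
        · rfl
        · exact absurd rfl hx
      rw [if_pos h1]

theorem t_G0 (_hA4 : S_A4) (hA5 : S_A5) : S_G0 := by
  intro N G c
  have e0 : st (flip (fun _ : Fin N => true) ∅) = update (fun _ => (1 : Fin 3)) c 1 := by
    funext d
    unfold st flip
    by_cases hd : d = c
    · subst hd; simp
    · simp [hd]
  have e1 : st (flip (fun _ : Fin N => true) {c}) = update (fun _ => (1 : Fin 3)) c 2 := by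
    funext d
    unfold st flip
    by_cases hd : d = c
    · subst hd; simp
    · simp [hd]
  unfold ell
  rw [e0, e1]
  have h5 := hA5 N G (fun _ => 1) c 1 0 (fun x => x.2) (by decide)
    (G0_ori G _ (by
      intro d
      by_cases hd : d = c
      · subst hd; simp
      · simp [hd]))
    (G0_ori G _ (by
      intro d
      by_cases hd : d = c
      · subst hd; simp
      · simp [hd]))
  obtain ⟨n, h | h | h⟩ := three_term G (fun _ => 1) c <;> omega

end Pool.Agent.H867R3.Kn
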