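import Pool.Agent.H867R3.Kn.Stubs2

/-! Task G1 of project KN (helper819). -/

set_option autoImplicit false

namespace Pool.Agent.H867R3.Kn

open Finset LaurentPolynomial Pool.Agent.H832R2.JR Function

theorem G1_self {N : ℕ} (w : Fin N → Bool) (c : Fin N) :
    st w = update (st w) c (if w c then 1 else 2) := by
  funext d
  by_cases hd : d = c
  · subst hd; simp [st]
  · simp [hd]

theorem G1_flip {N : ℕ} (w : Fin N → Bool) (c : Fin N) :
    st (flip w {c}) = update (st w) c (if w c then 2 else 1) := by
  funext d
  by_cases hd : d = c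
  · subst hd
    unfold st flip
    cases w d <;> simp
  · simp [hd, st, flip]

theorem G1_empty {N : ℕ} (w : Fin N → Bool) : flip w ∅ = w := by
  funext d
  simp [flip]

theorem G1_st_ne {N : ℕ} (w : Fin N → Bool) (c : Fin N) : st w c ≠ 0 := by
  unfold st
  cases w c <;> simp

/-- changing the smoothing at `c` -/
theorem G1_upd {N : ℕ} {G : GaussWord N} {t : Fin N → Fin 3} {c : Fin N} {o : Half N → Bool}
    (k : Fin 3) (h : Ori G t o)
    (h1 : ∀ b e, o (smooth (update t c k) ((c, b), e)) = !o ((c, b), e)) :
    Ori G (update t c k) o := by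
  refine ⟨h.1, ?_⟩
  rintro ⟨⟨d, b⟩, e⟩
  by_cases hd : d = c
  · subst hd
    exact h1 b e
  · have e1 : smooth (update t c k) ((d, b), e) = smooth t ((d, b), e) := by
      unfold smooth
      simp only [update_of_ne hd]
    rw [e1]
    exact h.2 _

/-- the orientations at the four half edges -/
theorem G1_four {N : ℕ} {G : GaussWord N} {t : Fin N → Fin 3} {c : Fin N} {o : Half N → Bool}
    (h : Ori G t o) (h0 : t c ≠ 0) :
    (t c = 1 → o ((c, true), true) = (!o ((c, false), false)) ∧
      o ((c, true), false) = !o ((c, false), true)) ∧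
    (t c ≠ 1 → o ((c, true), false) = (!o ((c, false), false)) ∧
      o ((c, true), true) = !o ((c, false), true)) := by
  have a := h.2 ((c, false), false)
  have b := h.2 ((c, false), true)
  unfold smooth at a b
  constructor
  · intro h1
    rw [if_neg h0, if_pos h1] at a b
    exact ⟨a, b⟩
  · intro h1
    rw [if_neg h0, if_neg h1] at a b
    exact ⟨a, b⟩

theorem t_G1 (hA4 : S_A4) (hA5 : S_A5) : S_G1 := by
  intro N G w o c hle hO hcls
  have h1 := (hA4 N G (st w) c (G1_st_ne w c)).2 hcls (if w c then 2 else 1)
  rw [← G1_flip] at h1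
  have hE : ell G w ∅ = L G (st w) := by unfold ell; rw [G1_empty]
  have heq : ell G w {c} = ell G w ∅ := le_antisymm hle (by rw [hE]; exact h1)
  refine ⟨?_, heq⟩
  by_contra hne
  have hoo : o ((c, false), false) = o ((c, false), true) := by
    cases h2 : o ((c, false), false) <;> cases h3 : o ((c, false), true) <;> simp_all
  obtain ⟨f1, f2⟩ := G1_four hO (G1_st_ne w c)
  have hT : ∀ e, o ((c, true), e) = !o ((c, false), false) := by
    by_cases h2 : st w c = 1
    · obtain ⟨a, b⟩ := f1 h2
      intro e
      cases e
      · rw [b, hoo]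
      · exact a
    · obtain ⟨a, b⟩ := f2 h2
      intro e
      cases e
      · exact a
      · rw [b, hoo]
  have hF : ∀ e, o ((c, false), e) = o ((c, false), false) := by
    intro e
    cases e
    · rfl
    · exact hoo.symm
  have hO1 : Ori G (update (st w) c 1) o := by
    apply G1_upd 1 hO
    intro b e
    have e1 : smooth (update (st w) c 1) ((c, b), e) = ((c, !b), !e) := by
      unfold smooth
      simp
    rw [e1]
    cases b
    · rw [Bool.not_false, hT, hF e]
    · rw [Bool.not_true, hT, hF, Bool.not_not]
  have hO2 : Ori G (update (st w) c 2) o := by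
    apply G1_upd 2 hO
    intro b e
    have e1 : smooth (update (st w) c 2) ((c, b), e) = ((c, !b), e) := by
      unfold smooth
      simp
    rw [e1]
    cases b
    · rw [Bool.not_false, hT, hF e]
    · rw [Bool.not_true, hT, hF, Bool.not_not]
  have h5 := hA5 N G (st w) c 1 2 o (by decide) hO1 hO2
  apply h5
  have e1 := G1_self w c
  have e2 := G1_flip w c
  have heq' : L G (st (flip w {c})) = L G (st w) := by rw [← hE]; exact heq
  cases hw : w c
  · rw [hw] at e1 e2
    simp only [Bool.false_eq_true, if_false] at e1 e2
    rw [← e1, ← e2, heq']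
  · rw [hw] at e1 e2
    simp only [if_true] at e1 e2
    rw [← e1, ← e2, heq']

end Pool.Agent.H867R3.Kn
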