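import Pool.Agent.H867R3.Kn.Stubs2
import Pool.Agent.H867R3.Kn.C1

set_option autoImplicit false

namespace Pool.Agent.H867R3.Kn

open Finset LaurentPolynomial Pool.Agent.H832R2.JR Function

theorem G2_mono {N : ℕ} (G : GaussWord N) (w : Fin N → Bool) (S T : Finset (Fin N)) (hST : S ⊆ T) :
    ell G w T + S.card ≤ ell G w S + T.card := by
  classical
  have h2 := C1_union G w S (T \ S)
  rw [sdiff_union_of_subset hST, card_sdiff_of_subset hST] at h2
  have h3 := card_le_card hST
  omega

theorem G2_single (hA4 : S_A4) {N : ℕ} (G : GaussWord N) (w : Fin N → Bool) (c : Fin N)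
    (hw : cls G (st w) ((c, false), false) ≠ cls G (st w) ((c, false), true)) :
    ell G w {c} + 1 = ell G w ∅ := by
  have e0 : flip w ∅ = w := by
    funext d
    simp [flip]
  have e1 : ell G w ∅ = L G (st w) := by
    unfold ell
    rw [e0]
  have e2 := C1_upd w ∅ c
  rw [e0, insert_empty_eq] at e2
  have ht : st w c ≠ 0 := by
    unfold st
    split_ifs <;> decide
  have e3 : st (flip w {c}) c ≠ st w c := by
    unfold st flip
    simp only [mem_singleton, if_true]
    cases w c <;> decide
  rw [e1]
  unfold ell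
  rw [e2]
  exact (hA4 N G (st w) c ht).1 hw _ e3

theorem t_G2 (hA4 : S_A4) : S_G2 := by
  intro N G w
  refine ⟨G2_mono G w, ?_⟩
  intro S hS c hc
  by_contra hw
  have h1 := G2_single hA4 G w c hw
  have h2 := G2_mono G w {c} S (singleton_subset_iff.mpr hc)
  rw [card_singleton] at h2
  omega

end Pool.Agent.H867R3.Kn
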