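import Pool.Agent.H867R3.Kn.Stubs2
import Pool.Agent.H867R3.Kn.B3
import Pool.Agent.H867R3.Kn.C1
import Pool.Agent.H867R3.Kn.C2

/-! H1: crossings where one curve meets itself with parallel arcs, all on the same side. -/

set_option autoImplicit false

namespace Pool.Agent.H867R3.Kn

open Finset LaurentPolynomial Pool.Agent.H832R2.JR Function

variable {N : ℕ}

theorem H1_step (hA2 : S_A2) (hA3 : S_A3) (hB1 : S_B1) (hB2 : S_B2) {G : GaussWord N}
    {ε w : Fin N → Bool}
    {o : Half N → Bool} (hs : Spherical G ε) (hO : Ori G (st w) o) (S : Finset (Fin N))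
    (c : Fin N) (hc : c ∉ S) (ρ : Bool)
    (hρ : ∀ d ∈ insert c S, xor (o ((d, false), false)) (xor (w d) (ε d)) = ρ)
    (ho : ∀ d ∈ insert c S, o ((d, false), false) = o ((d, false), true))
    (x y : Half N) (hx : x.1.1 = c) (hy : y.1.1 = c)
    (hxyw : cls G (st w) x = cls G (st w) y)
    (hav : ∀ p, (G p : ℕ) = 0 → cls G (st (flip w S)) (p, false) ≠ cls G (st (flip w S)) x)
    (hxy : cls G (st (flip w S)) y ≠ cls G (st (flip w S)) x) : False := by
  have hO' : Ori G (st (flip w S)) o :=
    B3_ori hO S (fun d hd => ho d (Finset.mem_insert_of_mem hd))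
  set t := st (flip w S) with ht
  set Z := cls G t x with hZ
  obtain ⟨κ, l, h1, h2, h3, h4, h5⟩ := hB1 N G ε (flip w S) o Z hs hO' hav
  have hκy : κ y = xor l ρ := by
    rw [hB2 N G ε (flip w S) o Z κ l hO' h1 h2 h4 c x y hx hy (ho c (Finset.mem_insert_self _ _))
      rfl hxy]
    have := hρ c (Finset.mem_insert_self _ _)
    rw [show flip w S c = w c by simp [flip, hc], this]
  -- at a crossing of `S` which meets `Z`
  have hd : ∀ d ∈ S, ∀ h h' : Half N, h.1.1 = d → h'.1.1 = d → cls G t h = Z →
      cls G t h' ≠ Z → κ h' = xor l (!ρ) := by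
    intro d hdS h h' e1 e2 e3 e4
    rw [hB2 N G ε (flip w S) o Z κ l hO' h1 h2 h4 d h h' e1 e2
      (ho d (Finset.mem_insert_of_mem hdS)) e3 e4]
    have := hρ d (Finset.mem_insert_of_mem hdS)
    rw [show flip w S d = !(w d) by simp [flip, hdS], ← this]
    cases w d <;> simp
  -- the bad half edges
  classical
  set bad : Half N → Bool := fun h => decide (cls G t h ≠ Z ∧ κ h = xor l ρ) with hbad
  have bad_iff : ∀ h, bad h = true ↔ (cls G t h ≠ Z ∧ κ h = xor l ρ) := by
    intro h; simp [hbad]
  -- no half edge at the crossing of a bad half edge in `S` belongs to `Z`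
  have off : ∀ h : Half N, h.1.1 ∈ S → bad h = true → ∀ g : Half N, g.1.1 = h.1.1 →
      cls G t g ≠ Z := by
    intro h hh hb g hg hgZ
    rw [bad_iff] at hb
    have := hd h.1.1 hh g h hg rfl hgZ hb.1
    rw [hb.2] at this
    cases l <;> cases ρ <;> simp at this
  have sm : ∀ h : Half N, h.1.1 ∉ S → smooth (st w) h = smooth t h := by
    intro h hh
    rw [ht]
    unfold smooth st flip
    simp [hh]
  have inv1 : ∀ h, bad h = true → bad (smooth (st w) h) = true := by
    intro h hb
    by_cases hh : h.1.1 ∈ S
    · have hoff := off h hh hb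
      have hb2 := hb
      rw [bad_iff] at hb2 ⊢
      have e1 : (smooth (st w) h).1.1 = h.1.1 := smooth_fst _ _
      refine ⟨hoff _ e1, ?_⟩
      have hrot : ∀ g : Half N, g.1.1 = h.1.1 → κ (rot ε g) = κ g := by
        intro g hg
        exact h2 g (hoff _ (by rw [(hA3 N ε w g).2.2, hg]))
      rcases (hA3 N ε w h).1 with e | e
      · rw [e, hrot h rfl, hb2.2]
      · rw [← hb2.2, ← hrot _ e1, e]
    · rw [bad_iff] at hb ⊢
      rw [sm h hh]
      have e1 : cls G t (smooth t h) = cls G t h := B3_smooth t h
      refine ⟨by rw [e1]; exact hb.1, ?_⟩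
      rw [← hb.2]
      exact (h5 h _ hb.1 e1.symm).symm
  have inv2 : ∀ h, bad (smooth (st w) h) = bad h := by
    intro h
    rw [Bool.eq_iff_iff]
    refine ⟨fun hb => ?_, inv1 h⟩
    have := inv1 _ hb
    rwa [smooth_inv] at this
  have arc : ∀ p q, (G q : ℕ) = G p + 1 → bad (q, false) = bad (p, true) := by
    intro p q hpq
    have e1 : cls G t (q, false) = cls G t (p, true) := B3_edge t hpq
    rw [Bool.eq_iff_iff, bad_iff, bad_iff, e1]
    constructor
    · rintro ⟨e2, e3⟩
      exact ⟨e2, by rw [← e3, h3 p q hpq e2]⟩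
    · rintro ⟨e2, e3⟩
      exact ⟨e2, by rw [← e3, h3 p q hpq e2]⟩
  have hyb : bad y = true := by rw [bad_iff]; exact ⟨hxy, hκy⟩
  have hxb : bad x = true := by rw [hA2 N G w bad arc inv2 x y hxyw, hyb]
  rw [bad_iff] at hxb
  exact hxb.1 rfl

theorem t_H1 (hA2 : S_A2) (hA3 : S_A3) (hA4 : S_A4) (hA5 : S_A5) (hB1 : S_B1) (hB2 : S_B2) :
    S_H1 := by
  intro N G ε w o K X ρ hsph hori hX ho hρ
  have hell0 : ell G w ∅ = L G (st w) := by
    unfold ell
    rw [C2_st_empty]
  have key : ∀ T : Finset (Fin N), T ⊆ K → ell G w T = ell G w ∅ + T.card := by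
    intro T
    induction T using Finset.induction_on with
    | empty => intro _; simp
    | insert c T hc ih =>
      intro hT
      have hcK : c ∈ K := hT (Finset.mem_insert_self c T)
      have hTK : T ⊆ K := (Finset.subset_insert c T).trans hT
      rw [Finset.card_insert_of_notMem hc]
      have h1 := ih hTK
      have hk : ell G w (insert c T) = L G (update (st (flip w T)) c (if w c then 2 else 1)) := by
        unfold ell
        rw [C2_st_insert w T c hc]
      have htc : st (flip w T) c ≠ 0 := by
        rw [C2_st_ne w T c hc]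
        cases w c <;> decide
      have hne : (if w c then (2 : Fin 3) else 1) ≠ st (flip w T) c := by
        rw [C2_st_ne w T c hc]
        cases w c <;> decide
      have h2 : cls G (st (flip w T)) ((c, false), false) =
          cls G (st (flip w T)) ((c, false), true) := by
        by_contra hcon
        have hxyw : cls G (st w) ((c, false), false) = cls G (st w) ((c, false), true) :=
          (hX c hcK).1.trans (hX c hcK).2.symm
        have hρ' : ∀ d ∈ insert c T, xor (o ((d, false), false)) (xor (w d) (ε d)) = ρ :=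
          fun d hd => hρ d (hT hd)
        have ho' : ∀ d ∈ insert c T, o ((d, false), false) = o ((d, false), true) :=
          fun d hd => ho d (hT hd)
        rcases B3_avoid (t := st (flip w T)) hcon with hav | hav
        · exact H1_step hA2 hA3 hB1 hB2 hsph hori T c hc ρ hρ' ho' ((c, false), false)
            ((c, false), true) rfl rfl hxyw hav (Ne.symm hcon)
        · exact H1_step hA2 hA3 hB1 hB2 hsph hori T c hc ρ hρ' ho' ((c, false), true)
            ((c, false), false) rfl rfl hxyw.symm hav hcon
      have h3 := (hA4 N G (st (flip w T)) c htc).2 h2 (if w c then 2 else 1)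
      have hupd : update (st (flip w T)) c (st (flip w T) c) = st (flip w T) :=
        update_eq_self _ _
      have h4 : L G (st (flip w T)) ≠ L G (update (st (flip w T)) c (if w c then 2 else 1)) := by
        have h5 := hA5 N G (st (flip w T)) c (st (flip w T) c) (if w c then 2 else 1) o hne.symm
          (by rw [hupd]; exact C2_ori G w o hori K T hTK ho)
          (by rw [← C2_st_insert w T c hc]; exact C2_ori G w o hori K (insert c T) hT ho)
        rwa [hupd] at h5
      have h6 := C1_step G w T c
      have h8 : ell G w T = L G (st (flip w T)) := rfl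
      omega
  exact key K (Finset.Subset.refl K)

end Pool.Agent.H867R3.Kn
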