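import Pool.Agent.H867R3.Kn.Stubs2
import Pool.Agent.H867R3.Kn.G1

/-! Task H2 of project KN (helper819). -/

set_option autoImplicit false

namespace Pool.Agent.H867R3.Kn

open Finset LaurentPolynomial Pool.Agent.H832R2.JR Function

theorem H2_cls_smooth {N : ℕ} (G : GaussWord N) (t : Fin N → Fin 3) (x : Half N) :
    cls G t (smooth t x) = cls G t x := by
  have h : gen (arcFun G) (smooth t) x (smooth t x) := Or.inr rfl
  exact (Quot.sound h).symm

theorem H2_cls_arc {N : ℕ} (G : GaussWord N) (t : Fin N → Fin 3) (x : Half N) :
    cls G t (arcFun G x) = cls G t x := by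
  have h : gen (arcFun G) (smooth t) x (arcFun G x) := Or.inl rfl
  exact (Quot.sound h).symm

theorem t_H2 (hA4 : S_A4) : S_H2 := by
  intro N G w c hell _ x y hxy
  have e1 := G1_self w c
  have e2 := G1_flip w c
  have hE : ell G w ∅ = L G (st w) := by unfold ell; rw [G1_empty]
  have hne : st w c ≠ st (flip w {c}) c := by
    rw [e2, update_self]
    unfold st
    cases w c <;> simp
  have hback : update (st (flip w {c})) c (st w c) = st w := by
    rw [e2, update_idem, update_eq_self]
  -- the two arcs at `c` are in the same curve
  have h0 : cls G (st (flip w {c})) ((c, false), false) =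
      cls G (st (flip w {c})) ((c, false), true) := by
    by_contra h
    have h4 := (hA4 N G (st (flip w {c})) c (G1_st_ne _ c)).1 h (st w c) hne
    rw [hback] at h4
    have : ell G w {c} = L G (st (flip w {c})) := rfl
    omega
  have hF : ∀ e, cls G (st (flip w {c})) ((c, false), e) =
      cls G (st (flip w {c})) ((c, false), false) := by
    intro e
    cases e
    · rfl
    · exact h0.symm
  have hT : ∀ e, cls G (st (flip w {c})) ((c, true), e) =
      cls G (st (flip w {c})) ((c, false), false) := by
    intro e
    rw [← H2_cls_smooth G (st (flip w {c})) ((c, true), e)]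
    have : ∃ e', smooth (st (flip w {c})) ((c, true), e) = ((c, false), e') := by
      unfold smooth
      rw [if_neg (G1_st_ne _ c)]
      split_ifs
      · exact ⟨!e, rfl⟩
      · exact ⟨e, rfl⟩
    obtain ⟨e', he'⟩ := this
    rw [he']
    exact hF e'
  have hall : ∀ b e, cls G (st (flip w {c})) ((c, b), e) =
      cls G (st (flip w {c})) ((c, false), false) := by
    intro b e
    cases b
    · exact hF e
    · exact hT e
  have hgen : ∀ x y : Half N, gen (arcFun G) (smooth (st w)) x y →
      cls G (st (flip w {c})) x = cls G (st (flip w {c})) y := by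
    intro x y h
    rcases h with rfl | rfl
    · exact (H2_cls_arc G _ x).symm
    · obtain ⟨⟨d, b⟩, e⟩ := x
      by_cases hd : d = c
      · subst hd
        have h1 : (smooth (st w) ((d, b), e)).1.1 = d := smooth_fst _ _
        generalize smooth (st w) ((d, b), e) = z at h1 ⊢
        obtain ⟨⟨d', b'⟩, e'⟩ := z
        change d' = d at h1
        subst h1
        exact (hall b e).trans (hall b' e').symm
      · have h1 : smooth (st w) ((d, b), e) = smooth (st (flip w {c})) ((d, b), e) := by
          rw [e2]
          unfold smooth
          simp only [update_of_ne hd]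
        rw [h1]
        exact (H2_cls_smooth G _ _).symm
  have h3 := Quot.eqvGen_exact hxy
  clear hxy
  induction h3 with
  | rel x y h => exact hgen x y h
  | refl x => rfl
  | symm x y _ ih => exact ih.symm
  | trans x y z _ _ ih1 ih2 => exact ih1.trans ih2

end Pool.Agent.H867R3.Kn
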