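import Pool.Agent.H867R3.Kn.Stubs2

/-!
# H3: the self-touchings of the circles are not of the second kind
-/

set_option autoImplicit false

namespace Pool.Agent.H867R3.Kn

open Finset Function Pool.Agent.H832R2.JR

variable {N : ℕ}

theorem H3_smooth (G : GaussWord N) (t : Fin N → Fin 3) (x : Half N) :
    cls G t (smooth t x) = cls G t x :=
  (Quot.sound (r := gen (arcFun G) (smooth t)) (Or.inr rfl) :
    Quot.mk (gen (arcFun G) (smooth t)) x = Quot.mk _ (smooth t x)).symm

/-- if two half edges of the passage `false` are in `Z`, all the half edges at `c` are in `Z` -/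
theorem H3_all (G : GaussWord N) (w : Fin N → Bool) (c : Fin N)
    (Z : Quot (gen (arcFun G) (smooth (st w))))
    (h0 : cls G (st w) ((c, false), false) = Z) (h1 : cls G (st w) ((c, false), true) = Z)
    (b e : Bool) : cls G (st w) ((c, b), e) = Z := by
  cases b
  · cases e
    · exact h0
    · exact h1
  · have k0 := H3_smooth G (st w) ((c, false), false)
    have k1 := H3_smooth G (st w) ((c, false), true)
    cases hw : w c <;> cases e <;> simp [smooth, st, hw] at k0 k1
    · rw [k0, h0]
    · rw [k1, h1]
    · rw [k1, h1]
    · rw [k0, h0]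

theorem t_H3 (_hA3 : S_A3) (hB1 : S_B1) : S_H3 := by
  intro N G ε w o t0 c hS hO ht0 hcc hoo
  by_contra hZ
  obtain ⟨κ, l, k1, -, -, k4, -⟩ := hB1 N G ε w o (cls G (st w) ((c, false), false)) hS hO (by
    intro p hp
    have : p = t0 := G.injective (Fin.ext (by rw [hp, ht0]))
    subst this
    exact fun h => hZ h.symm)
  have hall : ∀ b e, cls G (st w) ((c, b), e) = cls G (st w) ((c, false), false) :=
    H3_all G w c _ rfl hcc.symm
  have hrot : ∀ b e, o (rot ε ((c, b), e)) = !o ((c, b), e) := by
    intro b e
    have hr : cls G (st w) (rot ε ((c, b), e)) = cls G (st w) ((c, false), false) := by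
      cases b
      · exact hall _ _
      · exact hall _ _
    have e1 := k1 ((c, b), e) hr
    rw [k4 _ hr, k4 _ (hall b e)] at e1
    revert e1
    cases l <;> cases o (rot ε ((c, b), e)) <;> cases o ((c, b), e) <;> simp
  have r1 : rot ε ((c, false), false) = ((c, true), ε c) := by simp [rot]
  have r2 : rot ε ((c, true), ε c) = ((c, false), true) := by simp [rot]
  have e1 := hrot false false
  rw [r1] at e1
  have e2 := hrot true (ε c)
  rw [r2, e1] at e2
  rw [e2] at hoo
  revert hoo
  cases o ((c, false), false) <;> simp

end Pool.Agent.H867R3.Kn
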