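import Pool.Agent.H867R3.Kn.Stubs

/-!
# M1: mirror images
-/

set_option autoImplicit false

namespace Pool.Agent.H867R3.Kn

open Finset LaurentPolynomial Pool.Agent.H832R2.JR

theorem M1_sgn (b : Bool) : sgn (!b) = -sgn b := by cases b <;> rfl

theorem M1_weight {N : ℕ} (w s : Fin N → Bool) : weight (fun c => !w c) s = -weight w s := by
  unfold weight
  rw [← Finset.sum_neg_distrib]
  exact Finset.sum_congr rfl fun c _ => by rw [M1_sgn, neg_mul]

theorem M1_writhe {N : ℕ} (w : Fin N → Bool) : writhe (fun c => !w c) = -writhe w := by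
  unfold writhe
  rw [← Finset.sum_neg_distrib]
  exact Finset.sum_congr rfl fun c _ => M1_sgn _

theorem M1_delta : invert (-T 2 - T (-2) : ℤ[T;T⁻¹]) = -T 2 - T (-2) := by
  rw [map_sub, map_neg, invert_T, invert_T, neg_neg]
  ring

theorem M1_bracket {N : ℕ} (G : GaussWord N) (w : Fin N → Bool) :
    kBracket G (fun c => !w c) = invert (kBracket G w) := by
  unfold kBracket
  rw [map_sum]
  refine Finset.sum_congr rfl fun s _ => ?_
  rw [map_mul, map_pow, M1_delta, invert_T, M1_weight]

theorem M1_poly {N : ℕ} (G : GaussWord N) (w : Fin N → Bool) :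
    kPoly G (fun c => !w c) = invert (kPoly G w) := by
  unfold kPoly
  rw [map_mul, map_mul, M1_bracket, M1_writhe, invert_T]
  congr 2
  · by_cases h : Even (writhe w)
    · rw [if_pos h, if_pos h.neg, map_one]
    · rw [if_neg h, if_neg (fun h' => h (by simpa using h'.neg)), map_neg, map_one]
  · congr 1
    ring

/-- M1: mirror images -/
theorem t_M1 : S_M1 := by
  intro N G w h
  rw [M1_poly, h, map_one]

end Pool.Agent.H867R3.Kn
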