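import Pool.Agent.H867R3.Kn.Stubs

set_option autoImplicit false

namespace Pool.Agent.H867R3.Kn

open Finset LaurentPolynomial Pool.Agent.H832R2.JR Function

theorem main_core (hA1 : S_A1) (hA6 : S_A6) (hC1 : S_C1) (hC4 : S_C4) (hD1 : S_D1) (hD2 : S_D2)
    (hE2 : S_E2) (hE3 : S_E3) (hF1 : S_F1) (hF2 : S_F2)
    (N : ℕ) (G : GaussWord N) (ε w : Fin N → Bool) (hs : Spherical G ε) (hA : Adequate G w)
    (h1 : kPoly G w = 1) : UntiedByKinks G := by
  rcases Nat.eq_zero_or_pos N with rfl | hN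
  · exact ⟨Equiv.refl _, fun i => i.elim0⟩
  have hAdq : Adq G w := fun c hc => hA c (((hA1 N G w).1 _ _).2 hc)
  obtain ⟨o, hO⟩ := hA6 N G (st w)
  obtain ⟨a, ha, hsum⟩ := hD2 N G w h1
  have hpos : ∀ S, 1 ≤ ell G w S := fun S => one_le_L G _ ⟨0, hN⟩
  obtain ⟨e1, e2⟩ := hD1 N (ell G w) (3 * writhe w) a (hpos ∅) hpos
    (fun S hS => (hC1 N G w hAdq S S (Finset.Subset.refl S) hS).2) ha hsum
  have e3 := hC4 N G ε w o hs hAdq hO
  rw [e3] at e2
  have hp0 := hpos ∅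
  have e4 : (Set.range (key G w o)).ncard + 1 = ell G w ∅ := by omega
  obtain ⟨o', hO', ho'⟩ := hE2 N G w o hN hO e4
  have hw := hE3 N G w o' hO' ho'
  have e5 : writhe w = N := by
    unfold writhe
    rw [Finset.sum_congr rfl (fun c _ => show sgn (w c) = 1 by rw [hw c]; rfl)]
    simp
  have e6 : L G (fun _ => 1) = N + 1 := by
    have : st (flip w ∅) = fun _ => (1 : Fin 3) := by
      funext c
      simp [st, flip, hw c]
    rw [← this]
    show ell G w ∅ = N + 1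
    omega
  exact hF2 N G (hF1 N G e6)

theorem main_semi (hA1 : S_A1) (hA6 : S_A6) (hC1 : S_C1) (hC4 : S_C4) (hD1 : S_D1) (hD2 : S_D2)
    (hE2 : S_E2) (hE3 : S_E3) (hF1 : S_F1) (hF2 : S_F2) (hM1 : S_M1)
    (N : ℕ) (G : GaussWord N) (ε w : Fin N → Bool) (hs : Spherical G ε)
    (hA : Adequate G w ∨ Adequate G (fun c => !w c))
    (h1 : kPoly G w = 1) : UntiedByKinks G := by
  rcases hA with hA | hA
  · exact main_core hA1 hA6 hC1 hC4 hD1 hD2 hE2 hE3 hF1 hF2 N G ε w hs hA h1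
  · exact main_core hA1 hA6 hC1 hC4 hD1 hD2 hE2 hE3 hF1 hF2 N G ε _ hs hA (hM1 N G w h1)

end Pool.Agent.H867R3.Kn
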