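import Pool.Agent.H867R3.Kn.Stubs

/-! Second part: simply adequate diagrams (no change of a single crossing of the all-A state
increases the number of components).  `S_XX : Prop` is the statement of task `XX`. -/

set_option autoImplicit false

namespace Pool.Agent.H867R3.Kn

open Finset LaurentPolynomial Pool.Agent.H832R2.JR Function

variable {N₀ : ℕ}

/-- D1b: the highest coefficients of a state sum (as D1, with a weaker bound) -/
def S_D1b : Prop := ∀ (N : ℕ) (f : Finset (Fin N) → ℕ) (m a : ℤ), 1 ≤ f ∅ → (∀ S, 1 ≤ f S) →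
  (∀ S : Finset (Fin N), S.Nonempty → f S + 1 ≤ f ∅ + S.card) → (a = 1 ∨ a = -1) →
  (∑ S : Finset (Fin N), T ((N : ℤ) - 2 * S.card) * (-T 2 - T (-2)) ^ (f S - 1) : ℤ[T;T⁻¹])
    = C a * T m →
  (N : ℤ) + 2 * ((f ∅ : ℤ) - 1) = m ∧
  ∑ S ∈ univ.filter (fun S : Finset (Fin N) =>
    S.Nonempty ∧ f S + 1 = f ∅ + S.card), (-1 : ℤ) ^ S.card = 0

/-- G0 (uses A4, A5): in the oriented state no change increases the number of curves -/
def S_G0 : Prop := ∀ (N : ℕ) (G : GaussWord N) (c : Fin N),
  ell G (fun _ => true) {c} ≤ ell G (fun _ => true) ∅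

/-- G1 (uses A4, A5): a crossing where a curve meets itself and whose change does not increase the
number of curves -/
def S_G1 : Prop := ∀ (N : ℕ) (G : GaussWord N) (w : Fin N → Bool) (o : Half N → Bool) (c : Fin N),
  ell G w {c} ≤ ell G w ∅ → Ori G (st w) o →
  cls G (st w) ((c, false), false) = cls G (st w) ((c, false), true) →
  o ((c, false), false) = !o ((c, false), true) ∧ ell G w {c} = ell G w ∅

/-- G2: bounds (see C1_union in C1.lean), and sets with the largest possible number of curves
(the second statement uses A4) -/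
def S_G2 : Prop := ∀ (N : ℕ) (G : GaussWord N) (w : Fin N → Bool),
  (∀ S T : Finset (Fin N), S ⊆ T → ell G w T + S.card ≤ ell G w S + T.card) ∧
  ∀ S : Finset (Fin N), ell G w S + 1 = ell G w ∅ + S.card → ∀ c ∈ S,
    cls G (st w) ((c, false), false) = cls G (st w) ((c, false), true)

/-- H1 (uses A2, A3, A4, A5, B1, B2; copy the proof of B3 and C2): crossings where one curve meets
itself with parallel arcs, all on the same side -/
def S_H1 : Prop := ∀ (N : ℕ) (G : GaussWord N) (ε w : Fin N → Bool) (o : Half N → Bool)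
  (K : Finset (Fin N)) (X : Quot (gen (arcFun G) (smooth (st w)))) (ρ : Bool),
  Spherical G ε → Ori G (st w) o →
  (∀ d ∈ K, cls G (st w) ((d, false), false) = X ∧ cls G (st w) ((d, false), true) = X) →
  (∀ d ∈ K, o ((d, false), false) = o ((d, false), true)) →
  (∀ d ∈ K, xor (o ((d, false), false)) (xor (w d) (ε d)) = ρ) →
  ell G w K = ell G w ∅ + K.card

/-- H2 (uses A4): if switching `c` does not change the number of curves, then the curves remain the
same sets -/
def S_H2 : Prop := ∀ (N : ℕ) (G : GaussWord N) (w : Fin N → Bool) (c : Fin N),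
  ell G w {c} = ell G w ∅ →
  cls G (st w) ((c, false), false) = cls G (st w) ((c, false), true) →
  ∀ x y, cls G (st w) x = cls G (st w) y → cls G (st (flip w {c})) x = cls G (st (flip w {c})) y

/-- H3 (uses A3, B1): the self-touchings of the circles are not of the second kind -/
def S_H3 : Prop := ∀ (N : ℕ) (G : GaussWord N) (ε w : Fin N → Bool) (o : Half N → Bool)
  (t0 : Fin N × Bool) (c : Fin N), Spherical G ε → Ori G (st w) o → (G t0 : ℕ) = 0 →
  cls G (st w) ((c, false), false) = cls G (st w) ((c, false), true) →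
  o ((c, false), false) = !o ((c, false), true) →
  cls G (st w) ((c, false), false) = cls G (st w) (t0, false)

/-- positions on the interval component -/
def Pos (G : GaussWord N₀) (w : Fin N₀ → Bool) (o : Half N₀ → Bool) (t0 : Fin N₀ × Bool)
    (pos : Half N₀ → ℕ) : Prop :=
  pos (t0, false) = 0 ∧
  (∀ h, cls G (st w) h = cls G (st w) (t0, false) → pos (smooth (st w) h) = pos h) ∧
  (∀ p q, (G q : ℕ) = G p + 1 → cls G (st w) (p, true) = cls G (st w) (t0, false) →
    if o (q, false) = o (t0, false) then pos (q, false) = pos (p, true) + 1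
    else pos (p, true) = pos (q, false) + 1) ∧
  (∀ h h', cls G (st w) h = cls G (st w) (t0, false) → cls G (st w) h' = cls G (st w) (t0, false) →
    pos h = pos h' → h' = h ∨ h' = smooth (st w) h) ∧
  (∀ p, (G p : ℕ) + 1 = 2 * N₀ → ∀ h, cls G (st w) h = cls G (st w) (t0, false) →
    pos h ≤ pos (p, true))

/-- P1: positions exist -/
def S_P1 : Prop := ∀ (N : ℕ) (G : GaussWord N) (w : Fin N → Bool) (o : Half N → Bool)
  (t0 : Fin N × Bool), (G t0 : ℕ) = 0 → Ori G (st w) o → ∃ pos, Pos G w o t0 pos

/-- P2 (uses A2, A3): the closed part `z` of the interval component at a crossing `c` of the second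
kind, and the sides of the later crossings -/
def S_P2 : Prop := ∀ (N : ℕ) (G : GaussWord N) (ε w : Fin N → Bool) (o : Half N → Bool)
  (t0 : Fin N × Bool) (pos : Half N → ℕ) (c : Fin N), Spherical G ε → Ori G (st w) o →
  (G t0 : ℕ) = 0 → Pos G w o t0 pos →
  cls G (st w) ((c, false), false) = cls G (st w) (t0, false) →
  cls G (st w) ((c, false), true) = cls G (st w) (t0, false) →
  o ((c, false), false) = !o ((c, false), true) →
  ∃ (z : Half N → Bool) (r : Bool), Ori G (st (flip w {c})) (fun h => xor (o h) (z h)) ∧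
    ∀ d, d ≠ c → cls G (st w) ((d, false), false) = cls G (st w) (t0, false) →
    cls G (st w) ((d, false), true) = cls G (st w) (t0, false) →
    o ((d, false), false) = !o ((d, false), true) →
    min (pos ((c, false), false)) (pos ((c, false), true)) <
      min (pos ((d, false), false)) (pos ((d, false), true)) →
    z ((d, false), false) = (!z ((d, false), true)) →
    xor (xor (o ((d, false), false)) (z ((d, false), false))) (xor (w d) (ε d)) = r

/-- P3 (uses A4, A5, G2): a crossing `d` where the orientation after the change of `c` is of the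
second kind -/
def S_P3 : Prop := ∀ (N : ℕ) (G : GaussWord N) (w : Fin N → Bool) (o : Half N → Bool)
  (c d : Fin N), c ≠ d → Ori G (st (flip w {c})) o →
  o ((d, false), false) = !o ((d, false), true) → ell G w {c, d} ≤ ell G w {c}

/-- P4: the signed number of the valid sets (pure combinatorics; remove the first element) -/
def S_P4 : Prop := ∀ (N : ℕ) (B : Finset (Fin N)) (first : Fin N → ℕ) (V : Finset (Fin N) → Prop)
  (adj : Fin N → Fin N → Prop), (∀ c ∈ B, ∀ d ∈ B, first c = first d → c = d) →
  (∀ c ∈ B, ∀ K ⊆ B, (∀ d ∈ K, first c < first d) → (V (insert c K) ↔ ∀ d ∈ K, adj c d)) →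
  B.Nonempty → ∀ W : Finset (Finset (Fin N)), (∀ S, S ∈ W ↔ S ⊆ B ∧ S.Nonempty ∧ V S) →
  ∑ S ∈ W, (-1 : ℤ) ^ S.card < 0

end Pool.Agent.H867R3.Kn
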