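import Pool.Agent.H867R3.Kn.Main
import Pool.Agent.H867R3.Kn.Stubs2
import Pool.Agent.H867R3.Kn.B3

set_option autoImplicit false

namespace Pool.Agent.H867R3.Kn

open Finset LaurentPolynomial Pool.Agent.H832R2.JR Function

variable {N : ℕ}

theorem flip_flip (w : Fin N → Bool) (c : Fin N) (K : Finset (Fin N)) (hc : c ∉ K) :
    flip (flip w {c}) K = flip w (insert c K) := by
  funext d
  unfold flip
  by_cases h1 : d = c
  · subst h1; simp [hc]
  · by_cases h2 : d ∈ K <;> simp [h1, h2]

theorem main2_odd (hG1 : S_G1) (hG2 : S_G2) (hH1 : S_H1) (hH2 : S_H2) (hH3 : S_H3) (hP1 : S_P1) (hP2 : S_P2)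
    (hP3 : S_P3) (hP4 : S_P4)
    (G : GaussWord N) (ε w : Fin N → Bool) (o : Half N → Bool) (hs : Spherical G ε)
    (hw : ∀ c, ell G w {c} ≤ ell G w ∅) (hO : Ori G (st w) o)
    (hsum : ∑ S ∈ univ.filter (fun S : Finset (Fin N) =>
      S.Nonempty ∧ ell G w S + 1 = ell G w ∅ + S.card), (-1 : ℤ) ^ S.card = 0) :
    Adq G w := by
  classical
  rcases Nat.eq_zero_or_pos N with rfl | hN
  · exact fun c => c.elim0
  intro c0 hc0
  have hle : 1 ≤ 2 * N := by omega
  set t0 : Fin N × Bool := G.symm ⟨0, by omega⟩ with ht0
  have hGt0 : (G t0 : ℕ) = 0 := by rw [ht0, Equiv.apply_symm_apply]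
  obtain ⟨pos, hpos⟩ := hP1 N G w o t0 hGt0 hO
  set B : Finset (Fin N) := univ.filter (fun c =>
    cls G (st w) ((c, false), false) = cls G (st w) ((c, false), true)) with hB
  have hBodd : ∀ c ∈ B, o ((c, false), false) = !o ((c, false), true) := fun c hc =>
    (hG1 N G w o c (hw c) hO (by simpa [hB] using hc)).1
  have hBell : ∀ c ∈ B, ell G w {c} = ell G w ∅ := fun c hc =>
    (hG1 N G w o c (hw c) hO (by simpa [hB] using hc)).2
  have hBself : ∀ c ∈ B, cls G (st w) ((c, false), false) = cls G (st w) ((c, false), true) :=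
    fun c hc => by simpa [hB] using hc
  have hBt : ∀ c ∈ B, cls G (st w) ((c, false), false) = cls G (st w) (t0, false) := fun c hc =>
    hH3 N G ε w o t0 c hs hO hGt0 (hBself c hc) (hBodd c hc)
  have hBt' : ∀ c ∈ B, cls G (st w) ((c, false), true) = cls G (st w) (t0, false) := fun c hc => by
    rw [← hBself c hc]; exact hBt c hc
  set first : Fin N → ℕ := fun c => min (pos ((c, false), false)) (pos ((c, false), true))
    with hfirst
  set V : Finset (Fin N) → Prop := fun S => ell G w S + 1 = ell G w ∅ + S.card with hV
  set adj : Fin N → Fin N → Prop := fun c d => V (insert c {d}) with hadj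
  have hneg : ∑ S ∈ univ.filter (fun S : Finset (Fin N) =>
      S.Nonempty ∧ ell G w S + 1 = ell G w ∅ + S.card), (-1 : ℤ) ^ S.card < 0 := by
    refine hP4 N B first V adj ?_ ?_ ⟨c0, by simpa [hB] using hc0⟩ _ ?_
    · -- injectivity
      intro c hc d hd h
      have key : ∀ g g' : Half N, g.1.1 = c → g'.1.1 = d →
          cls G (st w) g = cls G (st w) (t0, false) → cls G (st w) g' = cls G (st w) (t0, false) →
          pos g = pos g' → c = d := by
        intro g g' e1 e2 e3 e4 e5
        rcases hpos.2.2.2.1 g g' e3 e4 e5 with e | e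
        · rw [← e1, ← e2, e]
        · rw [← e1, ← e2, e, smooth_fst]
      simp only [hfirst] at h
      rcases min_choice (pos ((c, false), false)) (pos ((c, false), true)) with e | e <;>
      rcases min_choice (pos ((d, false), false)) (pos ((d, false), true)) with f | f <;>
      rw [e, f] at h
      · exact key _ _ rfl rfl (hBt c hc) (hBt d hd) h
      · exact key _ _ rfl rfl (hBt c hc) (hBt' d hd) h
      · exact key _ _ rfl rfl (hBt' c hc) (hBt d hd) h
      · exact key _ _ rfl rfl (hBt' c hc) (hBt' d hd) h
    · -- the valid sets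
      intro c hc K hK hlt
      have hcK : c ∉ K := fun h => lt_irrefl _ (hlt c h)
      have hne : ∀ d ∈ K, d ≠ c := fun d hd e => hcK (e ▸ hd)
      constructor
      · intro hval d hd
        have e1 := (hG2 N G w).1 (insert c {d}) (insert c K)
          (insert_subset_insert c (singleton_subset_iff.2 hd))
        have e2 := (hG2 N G w).1 {c} (insert c {d}) (by simp)
        have e3 := hBell c hc
        simp only [hadj, hV] at hval ⊢
        rw [card_singleton] at e2
        have e4 : (insert c {d} : Finset (Fin N)).card = 2 := by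
          rw [card_insert_of_notMem (by simpa using (hne d hd).symm), card_singleton]
        rw [e4] at e1 e2 ⊢
        omega
      · intro hval
        obtain ⟨z, r, hz1, hz2⟩ := hP2 N G ε w o t0 pos c hs hO hGt0 hpos (hBt c hc) (hBt' c hc)
          (hBodd c hc)
        have hH2' := hH2 N G w c (hBell c hc) (hBself c hc)
        have hinter : ∀ d ∈ K, z ((d, false), false) = !z ((d, false), true) := by
          intro d hd
          by_contra hcon
          have hzz : z ((d, false), false) = z ((d, false), true) := by
            revert hcon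
            cases z ((d, false), false) <;> cases z ((d, false), true) <;> simp
          have e1 := hP3 N G w (fun h => xor (o h) (z h)) c d (hne d hd).symm hz1 (by
            rw [hzz, hBodd d (hK hd)]
            cases o ((d, false), true) <;> cases z ((d, false), true) <;> rfl)
          have e2 := hval d hd
          simp only [hadj, hV] at e2
          have e3 := hBell c hc
          have e4 : (insert c {d} : Finset (Fin N)).card = 2 := by
            rw [card_insert_of_notMem (by simpa using (hne d hd).symm), card_singleton]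
          rw [e4] at e2
          omega
        have e1 := hH1 N G ε (flip w {c}) (fun h => xor (o h) (z h)) K
          (cls G (st (flip w {c})) (t0, false)) r hs hz1
          (fun d hd => ⟨hH2' _ _ (hBt d (hK hd)), hH2' _ _ (hBt' d (hK hd))⟩)
          (fun d hd => by
            rw [hinter d hd, hBodd d (hK hd)]
            cases o ((d, false), true) <;> cases z ((d, false), true) <;> rfl)
          (fun d hd => by
            have e2 := hz2 d (hne d hd) (hBt d (hK hd)) (hBt' d (hK hd)) (hBodd d (hK hd))
              (hlt d hd) (hinter d hd)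
            have e3 : flip w {c} d = w d := by simp [flip, hne d hd]
            simp only [e3]
            exact e2)
        have e2 : ell G (flip w {c}) K = ell G w (insert c K) := by
          unfold ell; rw [flip_flip w c K hcK]
        have e3 : ell G (flip w {c}) ∅ = ell G w {c} := by
          unfold ell
          congr 2
        rw [e2, e3, hBell c hc] at e1
        simp only [hV]
        rw [card_insert_of_notMem hcK]
        omega
    · intro S
      simp only [mem_filter, mem_univ, true_and, hV]
      constructor
      · rintro ⟨h1, h2⟩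
        refine ⟨fun c hc => ?_, h1, h2⟩
        simp only [hB, mem_filter, mem_univ, true_and]
        exact (hG2 N G w).2 S h2 c hc
      · rintro ⟨_, h1, h2⟩
        exact ⟨h1, h2⟩
  rw [hsum] at hneg
  exact lt_irrefl _ hneg

/-- **simply adequate state**: switching the smoothing of a single crossing never increases the
number of components -/
def SimplyAdequate (G : GaussWord N) (s : Fin N → Bool) : Prop :=
  ∀ c, comps G (update s c (!s c)) ≤ comps G s

theorem flip_single (w : Fin N → Bool) (c : Fin N) : flip w {c} = update w c (!w c) := by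
  classical
  funext d
  unfold flip
  by_cases h : d = c
  · subst h; simp
  · simp [h]

theorem flip_empty (w : Fin N → Bool) : flip w ∅ = w := by
  funext d; simp [flip]

theorem simply_ell (hA1 : S_A1) {G : GaussWord N} {w : Fin N → Bool} (h : SimplyAdequate G w)
    (c : Fin N) : ell G w {c} ≤ ell G w ∅ := by
  have h1 := h c
  rw [(hA1 N G _).2, (hA1 N G _).2] at h1
  unfold ell
  rw [flip_single, flip_empty]
  exact h1

/-- a simply adequate diagram with trivial bracket polynomial is adequate -/
theorem simply_adequate (hA1 : S_A1) (hA6 : S_A6) (hD1b : S_D1b) (hD2 : S_D2)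
    (hG1 : S_G1) (hG2 : S_G2) (hH1 : S_H1) (hH2 : S_H2) (hH3 : S_H3) (hP1 : S_P1) (hP2 : S_P2)
    (hP3 : S_P3) (hP4 : S_P4)
    (G : GaussWord N) (ε w : Fin N → Bool) (hs : Spherical G ε)
    (hA : SimplyAdequate G w) (h1 : kPoly G w = 1) : Adequate G w := by
  rcases Nat.eq_zero_or_pos N with rfl | hN
  · exact fun c => c.elim0
  obtain ⟨o, hO⟩ := hA6 N G (st w)
  obtain ⟨a, ha, hsum⟩ := hD2 N G w h1
  have hpos : ∀ S, 1 ≤ ell G w S := fun S => one_le_L G _ ⟨0, hN⟩
  have hw := simply_ell hA1 hA
  have hbd : ∀ S : Finset (Fin N), S.Nonempty → ell G w S + 1 ≤ ell G w ∅ + S.card := by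
    classical
    rintro S ⟨c, hc⟩
    have h1 := (hG2 N G w).1 {c} S (singleton_subset_iff.2 hc)
    have h2 := hw c
    rw [card_singleton] at h1
    omega
  obtain ⟨_, e2⟩ := hD1b N (ell G w) (3 * writhe w) a (hpos ∅) hpos hbd ha hsum
  have hAdq := main2_odd hG1 hG2 hH1 hH2 hH3 hP1 hP2 hP3 hP4 G ε w o hs hw hO e2
  exact fun c hc => hAdq c (((hA1 N G w).1 _ _).1 hc)

/-- positive diagrams, on any surface -/
theorem main_positive (hD1b : S_D1b) (hD2 : S_D2) (hG0 : S_G0) (hG2 : S_G2) (hF1 : S_F1)
    (hF2 : S_F2) (G : GaussWord N) (w : Fin N → Bool) (hw : ∀ c, w c = true)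
    (h1 : kPoly G w = 1) : UntiedByKinks G := by
  classical
  rcases Nat.eq_zero_or_pos N with rfl | hN
  · exact ⟨Equiv.refl _, fun i => i.elim0⟩
  obtain rfl : w = fun _ => true := funext hw
  obtain ⟨a, ha, hsum⟩ := hD2 N G _ h1
  have hpos : ∀ S, 1 ≤ ell G (fun _ => true) S := fun S => one_le_L G _ ⟨0, hN⟩
  have hbd : ∀ S : Finset (Fin N), S.Nonempty →
      ell G (fun _ => true) S + 1 ≤ ell G (fun _ => true) ∅ + S.card := by
    rintro S ⟨c, hc⟩
    have h1 := (hG2 N G (fun _ => true)).1 {c} S (singleton_subset_iff.2 hc)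
    have h2 := hG0 N G c
    rw [card_singleton] at h1
    omega
  obtain ⟨e1, _⟩ := hD1b N (ell G (fun _ => true)) (3 * writhe (fun _ : Fin N => true)) a
    (hpos ∅) hpos hbd ha hsum
  have e5 : writhe (fun _ : Fin N => true) = N := by
    unfold writhe sgn
    simp
  have e6 : L G (fun _ => 1) = N + 1 := by
    have : st (flip (fun _ : Fin N => true) ∅) = fun _ => (1 : Fin 3) := by
      funext c
      simp [st, flip]
    rw [← this]
    show ell G (fun _ => true) ∅ = N + 1
    have := hpos ∅
    omega
  exact hF2 N G (hF1 N G e6)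

end Pool.Agent.H867R3.Kn
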