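import Pool.Agent.H867R3.Kn.Stubs2

/-! P1: positions on the interval component. -/

set_option autoImplicit false

namespace Pool.Agent.H867R3.Kn

open Finset LaurentPolynomial Pool.Agent.H832R2.JR Function

theorem P1_succ {H : Type} (α β : H → H) (a : H) (k : ℕ) :
    (fun x => α (β x))^[k + 1] a = α (β ((fun x => α (β x))^[k] a)) := by
  rw [iterate_succ_apply']

theorem P1_ori {H : Type} (α β : H → H) (o : H → Bool) (hoα : ∀ x, o (α x) = !o x)
    (hoβ : ∀ x, o (β x) = !o x) (a : H) (k : ℕ) :
    o ((fun x => α (β x))^[k] a) = o a := by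
  induction k with
  | zero => rfl
  | succ k ih => rw [P1_succ, hoα, hoβ, ih, Bool.not_not]

theorem P1_reach {H : Type} [Finite H] (α β : H → H) (hα : ∀ x, α (α x) = x)
    (hβ : ∀ x, β (β x) = x) (a h : H) (hh : Quot.mk (gen α β) h = Quot.mk (gen α β) a) :
    ∃ k : ℕ, h = (fun x => α (β x))^[k] a ∨ h = β ((fun x => α (β x))^[k] a) := by
  let P : H → Prop := fun z =>
    ∃ k : ℕ, z = (fun x => α (β x))^[k] a ∨ z = β ((fun x => α (β x))^[k] a)
  have hPβ : ∀ z, P z → P (β z) := by
    rintro z ⟨k, rfl | rfl⟩
    · exact ⟨k, Or.inr rfl⟩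
    · exact ⟨k, Or.inl (hβ _)⟩
  have hinj : Function.Injective (fun x => α (β x)) := by
    intro x y hxy
    have h1 : α (β x) = α (β y) := hxy
    have h2 : β x = β y := by rw [← hα (β x), h1, hα]
    rw [← hβ x, h2, hβ]
  have hper : ∃ n : ℕ, 0 < n ∧ (fun x => α (β x))^[n] a = a := hinj.mem_periodicPts a
  have hPα : ∀ z, P z → P (α z) := by
    rintro z ⟨k, rfl | rfl⟩
    · rcases k with _ | k
      · obtain ⟨n, hn, hn2⟩ := hper
        obtain ⟨m, rfl⟩ : ∃ m, n = m + 1 := ⟨n - 1, by omega⟩
        refine ⟨m, Or.inr ?_⟩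
        rw [P1_succ] at hn2
        show α a = _
        rw [← hn2]
        rw [hα, hn2]
      · refine ⟨k, Or.inr ?_⟩
        rw [P1_succ, hα]
    · exact ⟨k + 1, Or.inl (P1_succ α β a k).symm⟩
  have hP : ∀ x y, gen α β x y → P x = P y := by
    rintro x y (rfl | rfl)
    · refine propext ⟨hPα x, fun h => ?_⟩
      have := hPα _ h
      rwa [hα] at this
    · refine propext ⟨hPβ x, fun h => ?_⟩
      have := hPβ _ h
      rwa [hβ] at this
  have h1 : P h = P a := congrArg (Quot.lift P hP) hh
  have h2 : P a := ⟨0, Or.inl rfl⟩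
  rw [← h1] at h2
  exact h2

/-- positions on an oriented cycle which starts at `a` -/
theorem P1_gen {H : Type} [Finite H] (α β : H → H) (hα : ∀ x, α (α x) = x)
    (hβ : ∀ x, β (β x) = x) (o : H → Bool) (hoα : ∀ x, o (α x) = !o x)
    (hoβ : ∀ x, o (β x) = !o x) (a : H) :
    ∃ pos : H → ℕ, pos a = 0 ∧ (∀ h, pos (β h) = pos h) ∧
      (∀ y, Quot.mk (gen α β) y = Quot.mk (gen α β) a → o y = o a → y ≠ a →
        pos y = pos (α y) + 1) ∧
      (∀ h h', Quot.mk (gen α β) h = Quot.mk (gen α β) a →
        Quot.mk (gen α β) h' = Quot.mk (gen α β) a → pos h = pos h' → h' = h ∨ h' = β h) ∧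
      (∀ h, Quot.mk (gen α β) h = Quot.mk (gen α β) a → pos h ≤ pos (α a)) := by
  set s : ℕ → H := fun k => (fun x => α (β x))^[k] a with hs
  have s0 : s 0 = a := rfl
  have ssucc : ∀ k, s (k + 1) = α (β (s k)) := fun k => P1_succ α β a k
  have sori : ∀ k, o (s k) = o a := fun k => P1_ori α β o hoα hoβ a k
  have sori' : ∀ k, o (β (s k)) = !o a := fun k => by rw [hoβ, sori]
  let pos : H → ℕ := fun h => sInf {k : ℕ | h = s k ∨ h = β (s k)}
  have pmem : ∀ h, Quot.mk (gen α β) h = Quot.mk (gen α β) a →
      (h = s (pos h) ∨ h = β (s (pos h))) := by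
    intro h hh
    have hne : {k : ℕ | h = s k ∨ h = β (s k)}.Nonempty := P1_reach α β hα hβ a h hh
    exact Nat.sInf_mem hne
  have ple : ∀ h k, (h = s k ∨ h = β (s k)) → pos h ≤ k := fun h k hk => Nat.sInf_le hk
  have mkα : ∀ x, Quot.mk (gen α β) (α x) = Quot.mk (gen α β) x :=
    fun x => (Quot.sound (r := gen α β) (Or.inl rfl)).symm
  refine ⟨pos, ?_, ?_, ?_, ?_, ?_⟩
  · exact Nat.le_zero.1 (ple a 0 (Or.inl rfl))
  · intro h
    show sInf {k : ℕ | β h = s k ∨ β h = β (s k)} = sInf {k : ℕ | h = s k ∨ h = β (s k)}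
    congr 1
    ext k
    simp only [Set.mem_ofPred_eq]
    constructor
    · rintro (e | e)
      · right; rw [← e, hβ]
      · left; rw [← hβ h, e, hβ]
    · rintro (e | e)
      · right; rw [e]
      · left; rw [e, hβ]
  · intro y hy hoy hya
    have hx : Quot.mk (gen α β) (α y) = Quot.mk (gen α β) a := (mkα y).trans hy
    have e1 : α y = β (s (pos (α y))) := by
      rcases pmem (α y) hx with e | e
      · exfalso
        have h1 := sori (pos (α y))
        rw [← e, hoα, hoy] at h1
        cases ha : o a <;> rw [ha] at h1 <;> simp at h1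
      · exact e
    have e2 : y = s (pos (α y) + 1) := by rw [ssucc, ← e1, hα]
    have e3 : pos y ≤ pos (α y) + 1 := ple _ _ (Or.inl e2)
    have e4 : y = s (pos y) := by
      rcases pmem y hy with e | e
      · exact e
      · exfalso
        have h1 := sori' (pos y)
        rw [← e, hoy] at h1
        cases ha : o a <;> rw [ha] at h1 <;> simp at h1
    by_contra hne
    have e5 : pos y ≤ pos (α y) := by omega
    rcases Nat.eq_zero_or_pos (pos y) with h0 | h0
    · rw [h0, s0] at e4
      exact hya e4
    · obtain ⟨m, hm⟩ : ∃ m, pos y = m + 1 := ⟨pos y - 1, by omega⟩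
      rw [hm, ssucc] at e4
      have e6 : α y = β (s m) := by rw [e4, hα]
      have e7 := ple (α y) m (Or.inr e6)
      omega
  · intro h h' hh hh' he
    have e1 := pmem h hh
    have e2 := pmem h' hh'
    rw [← he] at e2
    rcases e1 with e1 | e1 <;> rcases e2 with e2 | e2
    · left; rw [e2, ← e1]
    · right; rw [e2, ← e1]
    · right; rw [e1, hβ]; exact e2
    · left; rw [e2, ← e1]
  · have e1 : α a = β (s (pos (α a))) := by
      rcases pmem (α a) (mkα a) with e | e
      · exfalso
        have h1 := sori (pos (α a))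
        rw [← e, hoα] at h1
        cases ha : o a <;> rw [ha] at h1 <;> simp at h1
      · exact e
    set K := pos (α a) with hK
    have e2 : s (K + 1) = a := by rw [ssucc, ← e1, hα]
    have e3 : ∀ m, s (m + (K + 1)) = s m := by
      intro m
      show (fun x => α (β x))^[m + (K + 1)] a = (fun x => α (β x))^[m] a
      rw [iterate_add_apply]
      congr 1
    intro h hh
    by_contra hcon
    obtain ⟨m, hm⟩ : ∃ m, pos h = m + (K + 1) := ⟨pos h - (K + 1), by omega⟩
    have e4 := pmem h hh
    rw [hm, e3] at e4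
    have e5 := ple h m e4
    omega

/-- P1 -/
theorem t_P1 : S_P1 := by
  intro N G w o t0 ht0 hO
  obtain ⟨pos, h1, h2, h3, h4, h5⟩ := P1_gen (arcFun G) (smooth (st w)) (arcFun_inv G)
    (smooth_inv (st w)) o hO.1 hO.2 (t0, false)
  refine ⟨pos, h1, fun h _ => h2 h, ?_, h4, ?_⟩
  · intro p q hpq hp
    have hn : next G p = q := by
      apply G.injective
      apply Fin.ext
      have h6 := next_val G p
      have h7 : (G q : ℕ) < 2 * N := (G q).2
      rw [h6, hpq]
      split_ifs with h8
      · omega
      · rfl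
    have ha : arcFun G (p, true) = (q, false) := by
      show (next G p, false) = (q, false)
      rw [hn]
    have ha' : arcFun G (q, false) = (p, true) := by rw [← ha, arcFun_inv]
    have hq : cls G (st w) (q, false) = cls G (st w) (t0, false) := by
      rw [← hp, ← ha]
      exact (Quot.sound (r := gen (arcFun G) (smooth (st w))) (Or.inl rfl)).symm
    split_ifs with ho
    · have h6 := h3 (q, false) hq ho (by
        intro he
        have h7 : q = t0 := congrArg Prod.fst he
        rw [h7, ht0] at hpq
        omega)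
      rw [ha'] at h6
      exact h6
    · have h6 := h3 (p, true) hp (by
        have h7 := hO.1 (q, false)
        rw [ha'] at h7
        rw [h7]
        cases hx : o (q, false) <;> cases hy : o (t0, false) <;> simp_all) (by
        intro he
        have h7 : true = false := congrArg Prod.snd he
        exact absurd h7 (by decide))
      rw [ha] at h6
      exact h6
  · intro p hp h hh
    have hn : next G p = t0 := by
      apply G.injective
      apply Fin.ext
      have h6 := next_val G p
      rw [if_pos hp] at h6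
      rw [h6, ht0]
    have ha : arcFun G (t0, false) = (p, true) := by
      have h6 : arcFun G (p, true) = (t0, false) := by
        show (next G p, false) = (t0, false)
        rw [hn]
      rw [← h6, arcFun_inv]
    have h6 := h5 h hh
    rw [ha] at h6
    exact h6

end Pool.Agent.H867R3.Kn
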