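import Pool.Agent.H867R3.Kn.Stubs2
import Pool.Agent.H867R3.Kn.B3

set_option autoImplicit false

namespace Pool.Agent.H867R3.Kn

open Finset LaurentPolynomial Pool.Agent.H832R2.JR Function

variable {N : ℕ}

theorem P2_smooth_snd {w : Fin N → Bool} (h : Half N) :
    (smooth (st w) h).1.2 = !h.1.2 := by
  rcases h with ⟨⟨c, b⟩, e⟩
  unfold smooth st
  cases hw : w c <;> simp [hw]

/-- all four half edges at `c` -/
theorem P2_four {w : Fin N → Bool} (c : Fin N) (h : Half N) (hc : h.1.1 = c) :
    h = ((c, false), false) ∨ h = ((c, false), true) ∨
    h = smooth (st w) ((c, false), false) ∨ h = smooth (st w) ((c, false), true) := by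
  rcases h with ⟨⟨d, b⟩, e⟩
  simp only at hc
  subst hc
  unfold smooth st
  cases hw : w d <;> cases b <;> cases e <;> simp [hw]

theorem P2_loc {ε w : Fin N → Bool} (κ z o : Half N → Bool) (l r0 : Bool) (d : Fin N)
    (h1 : ∀ h, κ (rot ε h) = xor (κ h) (z (rot ε h)))
    (h2 : ∀ h : Half N, h.1.1 = d → z (smooth (st w) h) = z h)
    (h4 : ∀ h, z h = true → κ h = xor l (!o h))
    (h5 : o ((d, false), false) = !o ((d, false), true))
    (h6 : z ((d, false), false) = !z ((d, false), true))
    (h7 : ∀ e, z ((d, false), e) = false → κ ((d, false), e) = r0) :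
    xor (xor (o ((d, false), false)) (z ((d, false), false))) (xor (w d) (ε d)) = xor r0 (!l) := by
  have r1 : rot ε ((d, false), false) = ((d, true), ε d) := by simp [rot]
  have r2 : rot ε ((d, true), ε d) = ((d, false), true) := by simp [rot]
  have a1 := h1 ((d, false), false)
  rw [r1] at a1
  have a2 := h1 ((d, true), ε d)
  rw [r2] at a2
  have b1 := h2 ((d, false), false) rfl
  have b2 := h2 ((d, false), true) rfl
  have zt : z ((d, true), ε d) = xor (z ((d, false), false)) (xor (ε d) (w d)) := by
    unfold smooth st at b1 b2
    cases hw : w d <;> cases he : ε d <;> simp_all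
  rw [zt] at a1
  rw [a1] at a2
  have d1 := h4 ((d, false), false)
  have d2 := h4 ((d, false), true)
  have e1 := h7 false
  have e2 := h7 true
  clear h1 h2 h4 h7 r1 r2 a1 b1 b2 zt
  revert a2 d1 d2 e1 e2 h5 h6
  generalize κ ((d, false), false) = k1
  generalize κ ((d, false), true) = k2
  generalize z ((d, false), false) = z1
  generalize z ((d, false), true) = z2
  generalize o ((d, false), false) = o1
  generalize o ((d, false), true) = o2
  generalize w d = w1
  generalize ε d = e3
  intro h5 h6 a2 d1 d2 e1 e2
  subst h5 h6
  revert a2 d1 d2 e1 e2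
  cases z2 <;> cases o2 <;> cases l <;> cases r0 <;> cases k1 <;> cases k2 <;> simp <;>
    cases w1 <;> simp

theorem P2_zc {w : Fin N → Bool} {z : Half N → Bool} {c : Fin N}
    (F3b : ∀ h : Half N, h.1.1 = c → z (smooth (st w) h) = !z h)
    (F4 : z ((c, false), false) = z ((c, false), true)) (b e : Bool) :
    z ((c, b), e) = xor (z ((c, false), false)) b := by
  have s1 := F3b ((c, false), false) rfl
  have s2 := F3b ((c, false), true) rfl
  unfold smooth st at s1 s2
  cases hw : w c <;> cases b <;> cases e <;> simp [hw] at s1 s2 ⊢ <;> simp_all

theorem P2_oc {G : GaussWord N} {w : Fin N → Bool} {o : Half N → Bool} {c : Fin N}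
    (hO : Ori G (st w) o)
    (hco : o ((c, false), false) = !o ((c, false), true)) (b : Bool) :
    o ((c, b), false) = !o ((c, b), true) := by
  have s1 := hO.2 ((c, false), false)
  have s2 := hO.2 ((c, false), true)
  clear hO
  unfold smooth st at s1 s2
  cases hw : w c <;> cases b <;> simp [hw] at s1 s2 ⊢ <;> simp_all

theorem P2_oriC {G : GaussWord N} {w : Fin N → Bool} {o z : Half N → Bool} {c : Fin N}
    (hO : Ori G (st w) o)
    (hco : o ((c, false), false) = !o ((c, false), true))
    (zc : ∀ b e, z ((c, b), e) = xor (z ((c, false), false)) b) (x : Half N) (hx : x.1.1 = c) :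
    xor (o (smooth (st (flip w {c})) x)) (z (smooth (st (flip w {c})) x)) = !(xor (o x) (z x)) := by
  rcases x with ⟨⟨d, b⟩, e⟩
  simp only at hx
  subst hx
  have s1 := hO.2 ((d, false), false)
  have s2 := hO.2 ((d, false), true)
  have z1 := zc false true
  have z2 := zc true false
  have z3 := zc true true
  clear hO zc
  generalize hz : z ((d, false), false) = ζ at *
  generalize ho : o ((d, false), true) = a at *
  unfold smooth st at s1 s2
  unfold smooth st flip
  cases hw : w d
  · cases b <;> cases e <;> simp [hw] at s1 s2 ⊢ <;> simp [hco, ho, hz, z1, z2, z3, s1, s2]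
  · cases b <;> cases e <;> simp [hw] at s1 s2 ⊢ <;> simp [hco, ho, hz, z1, z2, z3, s1, s2]

theorem t_P2 (hA2 : S_A2) (hA3 : S_A3) : S_P2 := by
  classical
  intro N G ε w o t0 pos c hs hO ht0 hpos hc1 hc2 hco
  obtain ⟨p0, p1, p2, p3, p4⟩ := hpos
  set tl := cls G (st w) (t0, false) with htl
  set i := min (pos ((c, false), false)) (pos ((c, false), true)) with hi
  set j := max (pos ((c, false), false)) (pos ((c, false), true)) with hj
  have hne : pos ((c, false), false) ≠ pos ((c, false), true) := by
    intro h
    rcases p3 _ _ hc1 hc2 h with h' | h'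
    · simp at h'
    · have := congrArg (fun x : Half N => x.1.2) h'
      simp only [P2_smooth_snd] at this
      simp at this
  have hij : i < j := by
    rcases lt_or_gt_of_ne hne with h | h
    · rw [hi, hj, min_eq_left h.le, max_eq_right h.le]; exact h
    · rw [hi, hj, min_eq_right h.le, max_eq_left h.le]; exact h
  set z : Half N → Bool := fun h => decide (cls G (st w) h = tl ∧
    (if o h = o (t0, false) then i < pos h ∧ pos h ≤ j else i ≤ pos h ∧ pos h < j)) with hz
  have zdef : ∀ h, z h = true ↔ (cls G (st w) h = tl ∧
    (if o h = o (t0, false) then i < pos h ∧ pos h ≤ j else i ≤ pos h ∧ pos h < j)) := by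
    intro h; simp [hz]
  have hcls4 : ∀ h : Half N, h.1.1 = c → cls G (st w) h = tl := by
    intro h hh
    rcases P2_four (w := w) c h hh with e | e | e | e
    · rw [e]; exact hc1
    · rw [e]; exact hc2
    · rw [e, B3_smooth]; exact hc1
    · rw [e, B3_smooth]; exact hc2
  have hpos4 : ∀ h : Half N, h.1.1 = c → pos h = i ∨ pos h = j := by
    intro h hh
    have h1 : pos h = pos ((c, false), false) ∨ pos h = pos ((c, false), true) := by
      rcases P2_four (w := w) c h hh with e | e | e | e
      · left; rw [e]
      · right; rw [e]
      · left; rw [e, p1 _ hc1]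
      · right; rw [e, p1 _ hc2]
    rcases lt_or_gt_of_ne hne with h' | h'
    · rw [hi, hj, min_eq_left h'.le, max_eq_right h'.le]; exact h1
    · rw [hi, hj, min_eq_right h'.le, max_eq_left h'.le]; exact h1.symm
  have hposne : ∀ h : Half N, cls G (st w) h = tl → h.1.1 ≠ c → pos h ≠ i ∧ pos h ≠ j := by
    intro h hh hc
    have key : ∀ g : Half N, g.1.1 = c → pos h ≠ pos g := by
      intro g hg he
      rcases p3 _ _ hh (hcls4 g hg) he with e | e
      · rw [e] at hg; exact hc hg
      · rw [e, smooth_fst] at hg; exact hc hg
    rcases lt_or_gt_of_ne hne with h' | h'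
    · rw [hi, hj, min_eq_left h'.le, max_eq_right h'.le]
      exact ⟨key _ rfl, key _ rfl⟩
    · rw [hi, hj, min_eq_right h'.le, max_eq_left h'.le]
      exact ⟨key _ rfl, key _ rfl⟩
  -- F1
  have F1 : ∀ p q, (G q : ℕ) = G p + 1 → z (q, false) = z (p, true) := by
    intro p q hpq
    have e1 : cls G (st w) (q, false) = cls G (st w) (p, true) := B3_edge _ hpq
    have e2 : o (q, false) = !o (p, true) := by
      have := hO.1 (p, true)
      simpa [arcFun, B3_next hpq] using this
    rw [Bool.eq_iff_iff, zdef, zdef, e1]
    by_cases hcl : cls G (st w) (p, true) = tl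
    · have e3 := p2 p q hpq hcl
      simp only [hcl, true_and]
      by_cases ho : o (q, false) = o (t0, false)
      · have ho' : o (p, true) ≠ o (t0, false) := by
          intro h; rw [e2, h] at ho; simp at ho
        rw [if_pos ho] at e3
        rw [if_pos ho, if_neg ho']
        omega
      · have ho' : o (p, true) = o (t0, false) := by
          rw [e2] at ho
          revert ho
          cases o (p, true) <;> cases o (t0, false) <;> simp
        rw [if_neg ho] at e3
        rw [if_neg ho, if_pos ho']
        omega
    · simp [hcl]
  have hnextlast : ∀ p, (G p : ℕ) + 1 = 2 * N → next G p = t0 := by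
    intro p hp
    apply G.injective
    apply Fin.ext
    rw [next_val, if_pos hp, ht0]
  have Ftail : z (t0, false) = false := by
    rw [Bool.eq_false_iff]
    intro h
    rw [zdef] at h
    have := h.2
    rw [if_pos rfl, p0] at this
    omega
  have Fhead : ∀ p, (G p : ℕ) + 1 = 2 * N → z (p, true) = false := by
    intro p hp
    rw [Bool.eq_false_iff]
    intro h
    rw [zdef] at h
    have e1 : o (p, true) ≠ o (t0, false) := by
      have := hO.1 (p, true)
      simp only [arcFun, hnextlast p hp] at this
      rw [this]
      cases o (p, true) <;> simp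
    have h2 := h.2
    rw [if_neg e1] at h2
    have h3 : j ≤ pos (p, true) := by
      have h4 := p4 p hp _ hc1
      have h5 := p4 p hp _ hc2
      rw [hj]; exact max_le h4 h5
    omega
  -- F3
  have osm : ∀ h : Half N, o (smooth (st w) h) = !o h := hO.2
  have F3a : ∀ h : Half N, h.1.1 ≠ c → z (smooth (st w) h) = z h := by
    intro h hh
    rw [Bool.eq_iff_iff, zdef, zdef, B3_smooth]
    by_cases hcl : cls G (st w) h = tl
    · have e3 := p1 h hcl
      have e4 := hposne h hcl hh
      simp only [hcl, true_and, e3, osm]
      obtain ⟨e4, e5⟩ := e4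
      split_ifs <;> omega
    · simp [hcl]
  have F3b : ∀ h : Half N, h.1.1 = c → z (smooth (st w) h) = !z h := by
    intro h hh
    have hcl := hcls4 h hh
    have e3 := p1 h hcl
    have e4 := hpos4 h hh
    rw [Bool.eq_iff_iff, Bool.not_eq_true', ← Bool.not_eq_true, zdef, zdef, B3_smooth]
    simp only [hcl, true_and, e3, osm]
    by_cases ho : o h = o (t0, false)
    · have ho' : ¬ (!o h) = o (t0, false) := by rw [ho]; cases o (t0, false) <;> simp
      rw [if_pos ho, if_neg ho']
      rcases e4 with e4 | e4 <;> omega
    · have ho' : (!o h) = o (t0, false) := by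
        revert ho
        cases o h <;> cases o (t0, false) <;> simp
      rw [if_neg ho, if_pos ho']
      rcases e4 with e4 | e4 <;> omega
  have F4 : z ((c, false), false) = z ((c, false), true) := by
    rw [Bool.eq_iff_iff, zdef, zdef]
    simp only [hc1, hc2, true_and]
    have h1 : (pos ((c, false), false) = i ∧ pos ((c, false), true) = j) ∨
        (pos ((c, false), false) = j ∧ pos ((c, false), true) = i) := by
      rcases lt_or_gt_of_ne hne with h' | h'
      · left; rw [hi, hj, min_eq_left h'.le, max_eq_right h'.le]; exact ⟨rfl, rfl⟩
      · right; rw [hi, hj, min_eq_right h'.le, max_eq_left h'.le]; exact ⟨rfl, rfl⟩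
    by_cases ho : o ((c, false), true) = o (t0, false)
    · have ho' : ¬ o ((c, false), false) = o (t0, false) := by
        rw [hco, ho]; cases o (t0, false) <;> simp
      rw [if_pos ho, if_neg ho']
      rcases h1 with ⟨e1, e2⟩ | ⟨e1, e2⟩ <;> rw [e1, e2] <;> omega
    · have ho' : o ((c, false), false) = o (t0, false) := by
        rw [hco]; revert ho
        cases o ((c, false), true) <;> cases o (t0, false) <;> simp
      rw [if_neg ho, if_pos ho']
      rcases h1 with ⟨e1, e2⟩ | ⟨e1, e2⟩ <;> rw [e1, e2] <;> omega
  -- all arcs
  have F5a : ∀ p, z (next G p, false) = z (p, true) := by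
    intro p
    by_cases hp : (G p : ℕ) + 1 = 2 * N
    · rw [hnextlast p hp, Ftail, Fhead p hp]
    · refine F1 p (next G p) ?_
      rw [next_val, if_neg hp]
  have F5 : ∀ x, z (arcFun G x) = z x := by
    rintro ⟨p, _ | _⟩
    · have := F5a ((next G).symm p)
      rw [Equiv.apply_symm_apply] at this
      exact this.symm
    · exact F5a p
  -- passage values at c
  have zc : ∀ b e, z ((c, b), e) = xor (z ((c, false), false)) b := P2_zc F3b F4
  have oc : ∀ b, o ((c, b), false) = !o ((c, b), true) := P2_oc hO hco
  have hOri : Ori G (st (flip w {c})) (fun h => xor (o h) (z h)) := by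
    constructor
    · intro x
      simp only
      rw [F5, hO.1]
      simp
    · intro x
      simp only
      by_cases hx : x.1.1 = c
      · exact P2_oriC hO hco zc x hx
      · have e1 : smooth (st (flip w {c})) x = smooth (st w) x := by
          unfold smooth st flip
          simp [hx]
        rw [e1, F3a x hx, hO.2]
        simp
  -- the colouring
  have hpar : ∀ d, xor (xor (z ((d, false), false)) (z ((d, false), true)))
      (xor (z ((d, true), false)) (z ((d, true), true))) = false := by
    intro d
    by_cases hd : d = c
    · subst hd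
      rw [zc false true, zc true false, zc true true]
      cases z ((d, false), false) <;> simp
    · have s1 := F3a ((d, false), false) hd
      have s2 := F3a ((d, false), true) hd
      unfold smooth st at s1 s2
      cases hw : w d <;> simp [hw] at s1 s2 ⊢ <;> rw [s1, s2] <;>
        cases z ((d, false), false) <;> cases z ((d, false), true) <;> simp
  obtain ⟨κ, k1, k2⟩ := hs z (fun p q hpq => (F1 p q hpq).symm)
    (fun p hp => by
      have : p = t0 := G.injective (Fin.ext (by omega))
      rw [this]; exact Ftail) Fhead hpar
  -- the value on the closed part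
  have K1 : ∃ l, ∀ h, z h = true → κ h = xor l (!o h) := by
    set b0 : Bool := !z ((c, false), false) with hb0
    have zb0 : ∀ e, z ((c, b0), e) = true := by
      intro e; rw [zc, hb0]; cases z ((c, false), false) <;> simp
    have zb1 : ∀ e, z ((c, !b0), e) = false := by
      intro e; rw [zc, hb0]; cases z ((c, false), false) <;> simp
    have hk : κ ((c, b0), true) = !κ ((c, b0), false) := by
      have m1 := k1 ((c, b0), false)
      have m2 := k1 (rot ε ((c, b0), false))
      have m3 : rot ε (rot ε ((c, b0), false)) = ((c, b0), true) := by
        cases b0 <;> cases he : ε c <;> simp [rot, he]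
      have m4 : z (rot ε ((c, b0), false)) = false := by
        have : ∃ e, rot ε ((c, b0), false) = ((c, !b0), e) := by
          cases b0
          · exact ⟨_, rfl⟩
          · exact ⟨_, rfl⟩
        obtain ⟨e, he⟩ := this
        rw [he]; exact zb1 e
      rw [m3, m1, m4, zb0] at m2
      rw [m2]; cases κ ((c, b0), false) <;> rfl
    set v0 : Bool := xor (κ ((c, b0), false)) (!o ((c, b0), false)) with hv0
    have v1 : ∀ e, xor (κ ((c, b0), e)) (!o ((c, b0), e)) = v0 := by
      intro e
      cases e
      · rfl
      · rw [hv0, hk, oc b0]
        cases κ ((c, b0), false) <;> cases o ((c, b0), true) <;> rfl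
    set φ : Half N → Bool := fun h => if z h = true then xor (κ h) (!o h) else v0 with hφ
    have v2 : ∀ h : Half N, h.1.1 = c → φ h = v0 := by
      rintro ⟨⟨d, b⟩, e⟩ hd
      simp only at hd
      subst hd
      by_cases hb : b = b0
      · subst hb
        simp only [hφ]
        rw [if_pos (zb0 e), v1]
      · have hb' : b = !b0 := by revert hb; cases b <;> cases b0 <;> simp
        simp only [hφ]
        rw [hb', zb1 e]
        simp
    have a1 : ∀ p q, (G q : ℕ) = G p + 1 → φ (q, false) = φ (p, true) := by
      intro p q hpq
      simp only [hφ]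
      rw [F1 p q hpq]
      have e2 : o (q, false) = !o (p, true) := by
        have := hO.1 (p, true)
        simpa [arcFun, B3_next hpq] using this
      by_cases hzp : z (p, true) = true
      · rw [if_pos hzp, if_pos hzp, k2 p q hpq, e2, hzp]
        cases κ (p, true) <;> cases o (p, true) <;> rfl
      · rw [if_neg hzp, if_neg hzp]
    have a2 : ∀ h, φ (smooth (st w) h) = φ h := by
      intro h
      by_cases hh : h.1.1 = c
      · rw [v2 h hh, v2 _ (by rw [smooth_fst]; exact hh)]
      · simp only [hφ]
        rw [F3a h hh]
        by_cases hzh : z h = true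
        · rw [if_pos hzh, if_pos hzh, hO.2]
          have hkk : κ (smooth (st w) h) = !κ h := by
            rcases (hA3 N ε w h).1 with e | e
            · have := k1 h
              rw [← e, F3a h hh, hzh] at this
              rw [this]; cases κ h <;> rfl
            · have := k1 (smooth (st w) h)
              rw [e, hzh] at this
              rw [this]; cases κ (smooth (st w) h) <;> rfl
          rw [hkk]
          cases κ h <;> cases o h <;> rfl
        · rw [if_neg hzh, if_neg hzh]
    refine ⟨v0, fun h hh => ?_⟩
    have hcl : cls G (st w) h = cls G (st w) ((c, b0), false) := by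
      rw [((zdef h).1 hh).1, hcls4 _ rfl]
    have := hA2 N G w φ a1 a2 h _ hcl
    rw [v2 ((c, b0), false) rfl] at this
    simp only [hφ] at this
    rw [if_pos hh] at this
    rw [← this]
    cases κ h <;> cases o h <;> rfl
  -- the value on the end part
  have K2 : ∃ r0, ∀ h, cls G (st w) h = tl → j < pos h → κ h = r0 := by
    have hbj : ∃ bj : Half N, bj.1.1 = c ∧ cls G (st w) bj = tl ∧ pos bj = j ∧
        o bj ≠ o (t0, false) := by
      have : ∃ g : Half N, g.1.1 = c ∧ pos g = j := by
        rcases lt_or_gt_of_ne hne with h' | h'
        · exact ⟨((c, false), true), rfl, by rw [hj, max_eq_right h'.le]⟩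
        · exact ⟨((c, false), false), rfl, by rw [hj, max_eq_left h'.le]⟩
      obtain ⟨g, hg1, hg2⟩ := this
      by_cases ho : o g = o (t0, false)
      · refine ⟨smooth (st w) g, by rw [smooth_fst]; exact hg1, by rw [B3_smooth]; exact hcls4 g hg1,
          by rw [p1 g (hcls4 g hg1)]; exact hg2, ?_⟩
        rw [hO.2, ho]; cases o (t0, false) <;> simp
      · exact ⟨g, hg1, hcls4 g hg1, hg2, ho⟩
    obtain ⟨bj, hb1, hb2, hb3, hb4⟩ := hbj
    set inR : Half N → Prop := fun h => cls G (st w) h = tl ∧
      (if o h = o (t0, false) then j < pos h else j ≤ pos h) with hinR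
    have zR : ∀ h, inR h → z h = false := by
      intro h hh
      rw [Bool.eq_false_iff]
      intro hzz
      rw [zdef] at hzz
      obtain ⟨h1, h2⟩ := hh
      obtain ⟨h3, h4⟩ := hzz
      by_cases ho : o h = o (t0, false)
      · rw [if_pos ho] at h2 h4; omega
      · rw [if_neg ho] at h2 h4; omega
    set φ : Half N → Bool := fun h => if inR h then κ h else κ bj with hφ
    have a1 : ∀ p q, (G q : ℕ) = G p + 1 → φ (q, false) = φ (p, true) := by
      intro p q hpq
      have e1 : cls G (st w) (q, false) = cls G (st w) (p, true) := B3_edge _ hpq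
      have e2 : o (q, false) = !o (p, true) := by
        have := hO.1 (p, true)
        simpa [arcFun, B3_next hpq] using this
      have e3 : inR (q, false) ↔ inR (p, true) := by
        simp only [hinR, e1]
        by_cases hcl : cls G (st w) (p, true) = tl
        · have e3 := p2 p q hpq hcl
          simp only [hcl, true_and]
          by_cases ho : o (q, false) = o (t0, false)
          · have ho' : o (p, true) ≠ o (t0, false) := by
              intro h; rw [e2, h] at ho; simp at ho
            rw [if_pos ho] at e3
            rw [if_pos ho, if_neg ho']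
            omega
          · have ho' : o (p, true) = o (t0, false) := by
              rw [e2] at ho
              revert ho
              cases o (p, true) <;> cases o (t0, false) <;> simp
            rw [if_neg ho] at e3
            rw [if_neg ho, if_pos ho']
            omega
        · simp [hcl]
      simp only [hφ]
      by_cases hR : inR (p, true)
      · rw [if_pos hR, if_pos (e3.2 hR), k2 p q hpq, zR _ hR]
        cases κ (p, true) <;> rfl
      · rw [if_neg hR, if_neg (fun h => hR (e3.1 h))]
    have a2 : ∀ h, φ (smooth (st w) h) = φ h := by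
      intro h
      by_cases hcl : cls G (st w) h = tl
      · by_cases hh : h.1.1 = c
        · -- at the crossing c
          have v : ∀ g : Half N, g.1.1 = c → φ g = κ bj := by
            intro g hg
            simp only [hφ]
            by_cases hR : inR g
            · rw [if_pos hR]
              have h2 := hR.2
              have hpg := hpos4 g hg
              by_cases ho : o g = o (t0, false)
              · rw [if_pos ho] at h2
                exfalso; rcases hpg with h | h <;> omega
              · rw [if_neg ho] at h2
                have hpj : pos g = j := by rcases hpg with h | h <;> omega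
                rcases p3 bj g hb2 (hcls4 g hg) (by rw [hb3, hpj]) with e | e
                · rw [e]
                · exfalso
                  apply ho
                  rw [e, hO.2]
                  revert hb4
                  cases o bj <;> cases o (t0, false) <;> simp
            · rw [if_neg hR]
          rw [v h hh, v _ (by rw [smooth_fst]; exact hh)]
        · have e4 := hposne h hcl hh
          have e5 : inR (smooth (st w) h) ↔ inR h := by
            simp only [hinR, B3_smooth, hcl, true_and, p1 h hcl]
            obtain ⟨e4, e5⟩ := e4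
            split_ifs <;> omega
          simp only [hφ]
          by_cases hR : inR h
          · rw [if_pos hR, if_pos (e5.2 hR)]
            rcases (hA3 N ε w h).1 with e | e
            · have := k1 h
              rw [← e, zR _ (e5.2 hR)] at this
              rw [this]; cases κ h <;> rfl
            · have := k1 (smooth (st w) h)
              rw [e, zR _ hR] at this
              rw [this]; cases κ (smooth (st w) h) <;> rfl
          · rw [if_neg hR, if_neg (fun h => hR (e5.1 h))]
      · simp only [hφ]
        rw [if_neg, if_neg]
        · intro h'; exact hcl h'.1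
        · intro h'; apply hcl; rw [← h'.1, B3_smooth]
    refine ⟨κ bj, fun h hcl hh => ?_⟩
    have := hA2 N G w φ a1 a2 h (t0, false) hcl
    have e1 : ¬ inR (t0, false) := by
      intro h'
      have := h'.2
      rw [if_pos rfl, p0] at this
      omega
    have e2 : inR h := by
      refine ⟨hcl, ?_⟩
      split_ifs <;> omega
    simp only [hφ] at this
    rw [if_pos e2, if_neg e1] at this
    exact this
  obtain ⟨l, K1⟩ := K1
  obtain ⟨r0, K2⟩ := K2
  refine ⟨z, xor r0 (!l), hOri, ?_⟩
  intro d hd hd1 hd2 hdo hlt hzd
  have hcls4d : ∀ h : Half N, h.1.1 = d → cls G (st w) h = tl := by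
    intro h hh
    rcases P2_four (w := w) d h hh with e | e | e | e
    · rw [e]; exact hd1
    · rw [e]; exact hd2
    · rw [e, B3_smooth]; exact hd1
    · rw [e, B3_smooth]; exact hd2
  refine P2_loc κ z o l r0 d k1 (fun h hh => F3a h (by rw [hh]; exact hd)) K1 hdo hzd ?_
  intro e he
  have hcl := hcls4d ((d, false), e) rfl
  refine K2 _ hcl ?_
  have hne2 := hposne _ hcl hd
  have hgt : i < pos ((d, false), e) := by
    rw [lt_min_iff] at hlt
    cases e
    · exact hlt.1
    · exact hlt.2
  by_contra hle
  have hlt2 : pos ((d, false), e) < j := by omega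
  have : z ((d, false), e) = true := by
    rw [zdef]
    refine ⟨hcl, ?_⟩
    split_ifs <;> omega
  rw [this] at he
  exact Bool.noConfusion he

end Pool.Agent.H867R3.Kn
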