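import Pool.Agent.H867R3.Kn.Stubs2
import Pool.Agent.H867R3.Kn.G1

/-! Task P3 of project KN (helper819). -/

set_option autoImplicit false

namespace Pool.Agent.H867R3.Kn

open Finset LaurentPolynomial Pool.Agent.H832R2.JR Function

theorem P3_flip {N : ℕ} (w : Fin N → Bool) {c d : Fin N} (h : c ≠ d) :
    flip w {c, d} = flip (flip w {c}) {d} := by
  funext e
  unfold flip
  by_cases h1 : e = c
  · subst h1; simp [h]
  · by_cases h2 : e = d
    · subst h2; simp [h1]
    · simp [h1, h2]

theorem t_P3 (hA5 : S_A5) : S_P3 := by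
  intro N G w o c d hcd hO hod
  unfold ell
  rw [P3_flip w hcd]
  generalize flip w {c} = u at hO
  have e1 := G1_self u d
  have e2 := G1_flip u d
  obtain ⟨f1, f2⟩ := G1_four hO (G1_st_ne u d)
  have hod1 : o ((d, true), false) = !o ((d, true), true) := by
    by_cases h : st u d = 1
    · obtain ⟨a, b⟩ := f1 h
      simp [a, b, hod]
    · obtain ⟨a, b⟩ := f2 h
      simp [a, b, hod]
  have hO0 : Ori G (update (st u) d 0) o := by
    apply G1_upd 0 hO
    intro b e
    have e1 : smooth (update (st u) d 0) ((d, b), e) = ((d, b), !e) := by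
      unfold smooth
      simp
    rw [e1]
    cases b <;> cases e <;> simp [hod, hod1]
  have hk : st u d ≠ 0 := G1_st_ne u d
  have hOk : Ori G (update (st u) d (st u d)) o := by
    rw [update_eq_self]
    exact hO
  have h5 := hA5 N G (st u) d (st u d) 0 o hk hOk hO0
  rw [update_eq_self] at h5
  obtain ⟨n, h3⟩ := three_term G (st u) d
  rw [e2]
  cases hw : u d
  · rw [hw] at e1
    simp only [Bool.false_eq_true, if_false] at e1 ⊢
    rw [← e1] at h3
    rcases h3 with h | h | h <;> omega
  · rw [hw] at e1
    simp only [if_true] at e1 ⊢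
    rw [← e1] at h3
    rcases h3 with h | h | h <;> omega

end Pool.Agent.H867R3.Kn
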