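import Pool.Agent.H867R3.Kn.Stubs2

/-! Task P4 of project KN (helper819). -/

set_option autoImplicit false

namespace Pool.Agent.H867R3.Kn

open Finset LaurentPolynomial Pool.Agent.H832R2.JR Function

theorem P4_aux {N : ℕ} (first : Fin N → ℕ) (V : Finset (Fin N) → Prop)
    (adj : Fin N → Fin N → Prop) : ∀ (n : ℕ) (B : Finset (Fin N)), B.card = n →
    (∀ c ∈ B, ∀ d ∈ B, first c = first d → c = d) →
    (∀ c ∈ B, ∀ K ⊆ B, (∀ d ∈ K, first c < first d) → (V (insert c K) ↔ ∀ d ∈ K, adj c d)) →
    B.Nonempty → ∀ W : Finset (Finset (Fin N)), (∀ S, S ∈ W ↔ S ⊆ B ∧ S.Nonempty ∧ V S) →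
    ∑ S ∈ W, (-1 : ℤ) ^ S.card < 0 := by
  classical
  intro n
  induction n with
  | zero =>
    intro B hB _ _ hne
    exact absurd (Finset.card_eq_zero.mp hB) hne.ne_empty
  | succ n ih =>
    intro B hB hinj hV hne W hW
    obtain ⟨c, hc, hmin⟩ := Finset.exists_min_image B first hne
    have hlt : ∀ d ∈ B.erase c, first c < first d := by
      intro d hd
      obtain ⟨hd1, hd2⟩ := Finset.mem_erase.mp hd
      refine lt_of_le_of_ne (hmin d hd2) ?_
      intro h
      exact hd1 (hinj c hc d hd2 h).symm
    have hsplit : ∑ S ∈ W, (-1 : ℤ) ^ S.card =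
        ∑ S ∈ W.filter (fun S => c ∈ S), (-1 : ℤ) ^ S.card +
          ∑ S ∈ W.filter (fun S => ¬ c ∈ S), (-1 : ℤ) ^ S.card :=
      (Finset.sum_filter_add_sum_filter_not W (fun S => c ∈ S) _).symm
    -- the sets which contain `c`
    have hA : W.filter (fun S => c ∈ S) =
        (((B.erase c).filter (fun d => adj c d)).powerset).image (insert c) := by
      ext S
      rw [Finset.mem_filter, hW, Finset.mem_image]
      constructor
      · rintro ⟨⟨h1, h2, h3⟩, h4⟩
        refine ⟨S.erase c, ?_, Finset.insert_erase h4⟩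
        rw [Finset.mem_powerset]
        intro d hd
        have hdS := Finset.mem_erase.mp hd
        have hdB : d ∈ B.erase c := Finset.mem_erase.mpr ⟨hdS.1, h1 hdS.2⟩
        rw [Finset.mem_filter]
        refine ⟨hdB, ?_⟩
        have h5 := (hV c hc (S.erase c) ((Finset.erase_subset _ _).trans h1)
          (fun d hd => hlt d (Finset.erase_subset_erase c h1 hd))).mp (by
            rw [Finset.insert_erase h4]; exact h3)
        exact h5 d hd
      · rintro ⟨K, hK, rfl⟩
        rw [Finset.mem_powerset] at hK
        have hKe : K ⊆ B.erase c := hK.trans (Finset.filter_subset _ _)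
        have hKB : K ⊆ B := hKe.trans (Finset.erase_subset _ _)
        refine ⟨⟨Finset.insert_subset hc hKB, Finset.insert_nonempty _ _, ?_⟩,
          Finset.mem_insert_self _ _⟩
        rw [hV c hc K hKB (fun d hd => hlt d (hKe hd))]
        intro d hd
        exact (Finset.mem_filter.mp (hK hd)).2
    have hnotc : ∀ K ∈ ((B.erase c).filter (fun d => adj c d)).powerset, c ∉ K := by
      intro K hK hcK
      have h1 := Finset.mem_powerset.mp hK hcK
      exact Finset.notMem_erase c B (Finset.mem_of_mem_filter c h1)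
    have hAsum : ∑ S ∈ W.filter (fun S => c ∈ S), (-1 : ℤ) ^ S.card =
        -(if (B.erase c).filter (fun d => adj c d) = ∅ then 1 else 0) := by
      rw [hA, Finset.sum_image]
      · rw [← Finset.sum_powerset_neg_one_pow_card, ← Finset.sum_neg_distrib]
        refine Finset.sum_congr rfl fun K hK => ?_
        rw [Finset.card_insert_of_notMem (hnotc K hK), pow_succ]
        ring
      · intro K hK K' hK' h
        have h1 := hnotc K hK
        have h2 := hnotc K' hK'
        rw [← Finset.erase_insert h1, ← Finset.erase_insert h2]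
        exact congrArg (fun s => Finset.erase s c) h
    have hB' : ∀ S, S ∈ W.filter (fun S => ¬ c ∈ S) ↔ S ⊆ B.erase c ∧ S.Nonempty ∧ V S := by
      intro S
      rw [Finset.mem_filter, hW, Finset.subset_erase]
      tauto
    rw [hsplit, hAsum]
    by_cases hBe : (B.erase c).Nonempty
    · have h1 := ih (B.erase c) (by rw [Finset.card_erase_of_mem hc, hB]; rfl)
        (fun a ha b hb => hinj a (Finset.mem_of_mem_erase ha) b (Finset.mem_of_mem_erase hb))
        (fun a ha K hK => hV a (Finset.mem_of_mem_erase ha) K (hK.trans (Finset.erase_subset _ _)))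
        hBe _ hB'
      split_ifs <;> linarith
    · rw [Finset.not_nonempty_iff_eq_empty] at hBe
      have h1 : W.filter (fun S => ¬ c ∈ S) = ∅ := by
        rw [Finset.eq_empty_iff_forall_notMem]
        intro S hS
        obtain ⟨h2, h3, -⟩ := (hB' S).mp hS
        rw [hBe] at h2
        exact h3.ne_empty (Finset.subset_empty.mp h2)
      rw [h1, hBe]
      simp

theorem t_P4 : S_P4 := by
  intro N B first V adj hinj hV hne W hW
  exact P4_aux first V adj B.card B rfl hinj hV hne W hW

end Pool.Agent.H867R3.Kn
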