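import Pool.Agent.H867R3.Kn.Defs

/-! Stubs for the semi-adequate knotoid theorem.  `S_XX : Prop` is the statement of task `XX`. -/

set_option autoImplicit false

namespace Pool.Agent.H867R3.Kn

open Finset LaurentPolynomial Pool.Agent.H832R2.JR Function

/-- A1: the components of a state of the knotoid diagram are the classes of the closed diagram
(`path_lemma` of JR/Path: the half edges `tail` and `head` are in the same class) -/
def S_A1 : Prop := ∀ (N : ℕ) (G : GaussWord N) (s : Fin N → Bool),
  (∀ x y, Quot.mk (KJoined G s) x = Quot.mk (KJoined G s) y ↔ cls G (st s) x = cls G (st s) y) ∧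
  comps G s = L G (st s)

/-- A2 (uses A1): functions which are invariant along the edges of the knotoid diagram and under
the smoothings are constant on the curves -/
def S_A2 : Prop := ∀ (N : ℕ) (G : GaussWord N) (s : Fin N → Bool) (φ : Half N → Bool),
  (∀ p q, (G q : ℕ) = G p + 1 → φ (q, false) = φ (p, true)) →
  (∀ x, φ (smooth (st s) x) = φ x) → ∀ x y, cls G (st s) x = cls G (st s) y → φ x = φ y

/-- A3: smoothings join neighbouring half edges; four steps around a crossing -/
def S_A3 : Prop := ∀ (N : ℕ) (ε s : Fin N → Bool) (h : Half N),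
  (smooth (st s) h = rot ε h ∨ rot ε (smooth (st s) h) = h) ∧
  rot ε (rot ε (rot ε (rot ε h))) = h ∧ (rot ε h).1.1 = h.1.1

/-- A4: switching a crossing whose arcs are in different curves, resp. in the same curve (from the
proof of `three_term` in JR/States) -/
def S_A4 : Prop := ∀ (N : ℕ) (G : GaussWord N) (t : Fin N → Fin 3) (c : Fin N), t c ≠ 0 →
  (cls G t ((c, false), false) ≠ cls G t ((c, false), true) →
    ∀ k : Fin 3, k ≠ t c → L G (update t c k) + 1 = L G t) ∧
  (cls G t ((c, false), false) = cls G t ((c, false), true) →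
    ∀ k : Fin 3, L G t ≤ L G (update t c k))

/-- A5: if an orientation is compatible with two of the three ways to join the strands at a
crossing, then the numbers of curves are different -/
def S_A5 : Prop := ∀ (N : ℕ) (G : GaussWord N) (t : Fin N → Fin 3) (c : Fin N) (k k' : Fin 3)
  (o : Half N → Bool), k ≠ k' → Ori G (update t c k) o → Ori G (update t c k') o →
  L G (update t c k) ≠ L G (update t c k')

/-- A6: every state has an orientation -/
def S_A6 : Prop := ∀ (N : ℕ) (G : GaussWord N) (t : Fin N → Fin 3), ∃ o, Ori G t o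

/-- B1 (uses A2, A3): the two sides of a circle `Z` (a curve which does not contain the tail) of the
state `s` -/
def S_B1 : Prop := ∀ (N : ℕ) (G : GaussWord N) (ε s : Fin N → Bool) (o : Half N → Bool)
  (Z : Quot (gen (arcFun G) (smooth (st s)))), Spherical G ε → Ori G (st s) o →
  (∀ p, (G p : ℕ) = 0 → cls G (st s) (p, false) ≠ Z) →
  ∃ (κ : Half N → Bool) (l : Bool),
    (∀ h, cls G (st s) (rot ε h) = Z → κ (rot ε h) = !κ h) ∧
    (∀ h, cls G (st s) (rot ε h) ≠ Z → κ (rot ε h) = κ h) ∧
    (∀ p q, (G q : ℕ) = G p + 1 → cls G (st s) (p, true) ≠ Z → κ (q, false) = κ (p, true)) ∧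
    (∀ h, cls G (st s) h = Z → κ h = xor l (!o h)) ∧
    (∀ h h', cls G (st s) h ≠ Z → cls G (st s) h = cls G (st s) h' → κ h = κ h')

/-- B2 (uses A3): the side of the other strand at a crossing -/
def S_B2 : Prop := ∀ (N : ℕ) (G : GaussWord N) (ε s : Fin N → Bool) (o : Half N → Bool)
  (Z : Quot (gen (arcFun G) (smooth (st s)))) (κ : Half N → Bool) (l : Bool), Ori G (st s) o →
  (∀ h, cls G (st s) (rot ε h) = Z → κ (rot ε h) = !κ h) →
  (∀ h, cls G (st s) (rot ε h) ≠ Z → κ (rot ε h) = κ h) →
  (∀ h, cls G (st s) h = Z → κ h = xor l (!o h)) →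
  ∀ (d : Fin N) (h h' : Half N), h.1.1 = d → h'.1.1 = d →
    o ((d, false), false) = o ((d, false), true) →
    cls G (st s) h = Z → cls G (st s) h' ≠ Z →
    κ h' = xor l (xor (o ((d, false), false)) (xor (s d) (ε d)))

/-- B3 (uses A2, A3, B1, B2): the main lemma -/
def S_B3 : Prop := ∀ (N : ℕ) (G : GaussWord N) (ε w : Fin N → Bool) (o : Half N → Bool)
  (S : Finset (Fin N)) (c : Fin N) (X Y : Quot (gen (arcFun G) (smooth (st w)))),
  Spherical G ε → Adq G w → Ori G (st w) o → S.Nonempty → c ∉ S → X ≠ Y →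
  (∀ d ∈ insert c S, s(cls G (st w) ((d, false), false), cls G (st w) ((d, false), true)) = s(X, Y)) →
  (∀ d ∈ insert c S, o ((d, false), false) = o ((d, false), true)) →
  cls G (st (flip w S)) ((c, false), false) = cls G (st (flip w S)) ((c, false), true)

/-- C1 (uses A4, three_term): the number of curves after changing a nonempty set -/
def S_C1 : Prop := ∀ (N : ℕ) (G : GaussWord N) (w : Fin N → Bool), Adq G w →
  ∀ S T : Finset (Fin N), S ⊆ T → S.Nonempty →
    ell G w T + S.card ≤ ell G w S + T.card ∧ ell G w T + 2 ≤ ell G w ∅ + T.card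

/-- C2 (uses A4, A5, B3, three_term): crossings of one class -/
def S_C2 : Prop := ∀ (N : ℕ) (G : GaussWord N) (ε w : Fin N → Bool) (o : Half N → Bool),
  Spherical G ε → Adq G w → Ori G (st w) o → ∀ S : Finset (Fin N), S.Nonempty →
  (∀ c ∈ S, ∀ d ∈ S, key G w o c = key G w o d) → ell G w S + 2 = ell G w ∅ + S.card

/-- C3 (uses A4, A5, three_term): crossings of different classes -/
def S_C3 : Prop := ∀ (N : ℕ) (G : GaussWord N) (w : Fin N → Bool) (o : Half N → Bool),
  Adq G w → Ori G (st w) o → ∀ c d : Fin N, key G w o c ≠ key G w o d →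
  ell G w {c, d} + 1 ≤ ell G w ∅

/-- C4 (uses C1, C2, C3): the signed number of sets with the largest possible number of curves -/
def S_C4 : Prop := ∀ (N : ℕ) (G : GaussWord N) (ε w : Fin N → Bool) (o : Half N → Bool),
  Spherical G ε → Adq G w → Ori G (st w) o →
  ∑ S ∈ univ.filter (fun S : Finset (Fin N) => S.Nonempty ∧ ell G w S + 2 = ell G w ∅ + S.card),
    (-1 : ℤ) ^ S.card = -((Set.range (key G w o)).ncard : ℤ)

/-- D1: the two highest coefficients of a state sum (pure Laurent polynomials) -/
def S_D1 : Prop := ∀ (N : ℕ) (f : Finset (Fin N) → ℕ) (m a : ℤ), 1 ≤ f ∅ → (∀ S, 1 ≤ f S) →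
  (∀ S : Finset (Fin N), S.Nonempty → f S + 2 ≤ f ∅ + S.card) → (a = 1 ∨ a = -1) →
  (∑ S : Finset (Fin N), T ((N : ℤ) - 2 * S.card) * (-T 2 - T (-2)) ^ (f S - 1) : ℤ[T;T⁻¹])
    = C a * T m →
  (N : ℤ) + 2 * ((f ∅ : ℤ) - 1) = m ∧
  ((f ∅ : ℤ) - 1) + ∑ S ∈ univ.filter (fun S : Finset (Fin N) =>
    S.Nonempty ∧ f S + 2 = f ∅ + S.card), (-1 : ℤ) ^ S.card = 0

/-- D2 (uses A1): the bracket as a sum over the sets of changed crossings -/
def S_D2 : Prop := ∀ (N : ℕ) (G : GaussWord N) (w : Fin N → Bool), kPoly G w = 1 →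
  ∃ a : ℤ, (a = 1 ∨ a = -1) ∧
  (∑ S : Finset (Fin N), T ((N : ℤ) - 2 * S.card) * (-T 2 - T (-2)) ^ (ell G w S - 1) : ℤ[T;T⁻¹])
    = C a * T (3 * writhe w)

/-- E1: a function on the curves which takes the same value on the two curves at every crossing is
constant (the diagram is connected) -/
def S_E1 : Prop := ∀ (N : ℕ) (G : GaussWord N) (w : Fin N → Bool)
  (σ : Quot (gen (arcFun G) (smooth (st w))) → Bool),
  (∀ c, σ (cls G (st w) ((c, false), false)) = σ (cls G (st w) ((c, false), true))) →
  ∀ X Y, σ X = σ Y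

/-- E2 (uses E1): if there are as few classes as possible, there is a coherent orientation -/
def S_E2 : Prop := ∀ (N : ℕ) (G : GaussWord N) (w : Fin N → Bool) (o : Half N → Bool), 0 < N →
  Ori G (st w) o → (Set.range (key G w o)).ncard + 1 = ell G w ∅ →
  ∃ o' : Half N → Bool, Ori G (st w) o' ∧ ∀ c, o' ((c, false), false) = !o' ((c, false), true)

/-- E3: a coherent orientation is the orientation of the diagram or the opposite one, hence all
smoothings are oriented -/
def S_E3 : Prop := ∀ (N : ℕ) (G : GaussWord N) (w : Fin N → Bool) (o : Half N → Bool),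
  Ori G (st w) o → (∀ c, o ((c, false), false) = !o ((c, false), true)) → ∀ c, w c = true

/-- F1 (three_term, chi of JR/Values): if the oriented smoothing of all crossings gives `N + 1`
curves, then no two chords cross -/
def S_F1 : Prop := ∀ (N : ℕ) (G : GaussWord N), L G (fun _ => 1) = N + 1 →
  ∀ i j, ¬ Crosses G i j

/-- F2: a Gauss word without crossing chords is untied by removing kinks (order the crossings by
the distance of their two passages) -/
def S_F2 : Prop := ∀ (N : ℕ) (G : GaussWord N), (∀ i j, ¬ Crosses G i j) → UntiedByKinks G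

/-- M1: mirror images -/
def S_M1 : Prop := ∀ (N : ℕ) (G : GaussWord N) (w : Fin N → Bool), kPoly G w = 1 →
  kPoly G (fun c => !w c) = 1

end Pool.Agent.H867R3.Kn
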